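import Pool.Agent.H691R3.SL.Defs
import Pool.Agent.H691R3.SLF.F_D1B
/-! Task D1 (helper121): the odometer. -/

namespace Pool.Agent.H691R3.SL

open MeasureTheory Set Filter Topology
open scoped Real BigOperators

noncomputable section

/-- the inverse of the odometer -/
def D1_odo' (e : Cn) : Cn := fun j => if (∀ i < j, e i = false) then !(e j) else e j

theorem D1_low (e : Cn) (j : ℕ) : (∀ i < j, odo e i = false) ↔ (∀ i < j, e i = true) := by
  constructor
  · intro h i
    induction i using Nat.strong_induction_on with
    | _ i ih =>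
      intro hi
      have h1 : ∀ k < i, e k = true := fun k hk => ih k hk (hk.trans hi)
      have h2 := h i hi
      unfold odo at h2
      rw [if_pos h1] at h2
      simpa using h2
  · intro h i hi
    unfold odo
    rw [if_pos fun k hk => h k (hk.trans hi), h i hi]
    rfl

theorem D1_low' (e : Cn) (j : ℕ) : (∀ i < j, D1_odo' e i = true) ↔ (∀ i < j, e i = false) := by
  constructor
  · intro h i
    induction i using Nat.strong_induction_on with
    | _ i ih =>
      intro hi
      have h1 : ∀ k < i, e k = false := fun k hk => ih k hk (hk.trans hi)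
      have h2 := h i hi
      unfold D1_odo' at h2
      rw [if_pos h1] at h2
      simpa using h2
  · intro h i hi
    unfold D1_odo'
    rw [if_pos fun k hk => h k (hk.trans hi), h i hi]
    rfl

theorem D1_left (e : Cn) : D1_odo' (odo e) = e := by
  funext j
  unfold D1_odo'
  by_cases h : ∀ i < j, e i = true
  · rw [if_pos ((D1_low e j).2 h)]
    unfold odo
    rw [if_pos h, Bool.not_not]
  · rw [if_neg (fun h' => h ((D1_low e j).1 h'))]
    unfold odo
    rw [if_neg h]

theorem D1_right (e : Cn) : odo (D1_odo' e) = e := by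
  funext j
  unfold odo
  by_cases h : ∀ i < j, e i = false
  · rw [if_pos ((D1_low' e j).2 h)]
    unfold D1_odo'
    rw [if_pos h, Bool.not_not]
  · rw [if_neg (fun h' => h ((D1_low' e j).1 h'))]
    unfold D1_odo'
    rw [if_neg h]

theorem D1_set (b : Bool) (j : ℕ) : MeasurableSet {e : Cn | ∀ i < j, e i = b} := by
  have h : {e : Cn | ∀ i < j, e i = b} = ⋂ i : ℕ, ⋂ _ : i < j, {e : Cn | e i = b} := by
    ext e
    simp
  rw [h]
  refine MeasurableSet.iInter fun i => MeasurableSet.iInter fun _ => ?_
  exact measurableSet_eq_fun (measurable_pi_apply i) measurable_const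

theorem D1_meas : Measurable odo := by
  refine measurable_pi_iff.2 fun j => ?_
  unfold odo
  refine Measurable.ite (D1_set true j) ?_ (measurable_pi_apply j)
  exact (measurable_of_countable (fun b : Bool => !b)).comp (measurable_pi_apply j)

theorem D1_meas' : Measurable D1_odo' := by
  refine measurable_pi_iff.2 fun j => ?_
  unfold D1_odo'
  refine Measurable.ite (D1_set false j) ?_ (measurable_pi_apply j)
  exact (measurable_of_countable (fun b : Bool => !b)).comp (measurable_pi_apply j)

/-- cylinders -/
def D1_cyl (i : ℕ) (w : Cn) : Set Cn := {e | ∀ j < i, e j = w j}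

theorem D1_dep (i : ℕ) {u v : Cn} (h : ∀ j < i, u j = v j) : ∀ j < i, odo u j = odo v j := by
  intro j hj
  unfold odo
  have h1 : (∀ k < j, u k = true) ↔ (∀ k < j, v k = true) :=
    forall₂_congr fun k hk => by rw [h k (hk.trans hj)]
  simp only [h1, h j hj]

theorem D1_dep' (i : ℕ) {u v : Cn} (h : ∀ j < i, u j = v j) :
    ∀ j < i, D1_odo' u j = D1_odo' v j := by
  intro j hj
  unfold D1_odo'
  have h1 : (∀ k < j, u k = false) ↔ (∀ k < j, v k = false) :=
    forall₂_congr fun k hk => by rw [h k (hk.trans hj)]
  simp only [h1, h j hj]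

theorem D1_preimage (i : ℕ) (w : Cn) : odo ⁻¹' (D1_cyl i w) = D1_cyl i (D1_odo' w) := by
  ext e
  constructor
  · intro h
    have h1 := D1_dep' i (u := odo e) (v := w) h
    rw [D1_left] at h1
    exact h1
  · intro h
    have h1 := D1_dep i (u := e) (v := D1_odo' w) h
    rw [D1_right] at h1
    exact h1

theorem D1_cyl_meas (i : ℕ) (w : Cn) : MeasurableSet (D1_cyl i w) := by
  have h : D1_cyl i w = ⋂ j : ℕ, ⋂ _ : j < i, {e : Cn | e j = w j} := by
    ext e
    simp [D1_cyl]
  rw [h]
  refine MeasurableSet.iInter fun j => MeasurableSet.iInter fun _ => ?_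
  exact measurableSet_eq_fun (measurable_pi_apply j) measurable_const

theorem D1_pi : IsPiSystem {s : Set Cn | ∃ i w, s = D1_cyl i w} := by
  rintro s ⟨i, w, rfl⟩ t ⟨i', w', rfl⟩ ⟨e, he, he'⟩
  refine ⟨max i i', e, ?_⟩
  ext u
  constructor
  · rintro ⟨h1, h2⟩ j hj
    rcases lt_max_iff.1 hj with h | h
    · rw [h1 j h, he j h]
    · rw [h2 j h, he' j h]
  · intro h
    exact ⟨fun j hj => by rw [h j (hj.trans_le (le_max_left _ _)), he j hj],
      fun j hj => by rw [h j (hj.trans_le (le_max_right _ _)), he' j hj]⟩

theorem D1_gen : (MeasurableSpace.pi : MeasurableSpace Cn) =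
    MeasurableSpace.generateFrom {s : Set Cn | ∃ i w, s = D1_cyl i w} := by
  apply le_antisymm
  · unfold MeasurableSpace.pi
    refine iSup_le fun j => ?_
    rw [MeasurableSpace.comap_le_iff_le_map]
    intro t _
    show MeasurableSet[MeasurableSpace.generateFrom {s : Set Cn | ∃ i w, s = D1_cyl i w}]
      ((fun e : Cn => e j) ⁻¹' t)
    have h : ((fun e : Cn => e j) ⁻¹' t) = ⋃ w : Fin (j + 1) → Bool, ⋃ _ : w (Fin.last j) ∈ t,
        D1_cyl (j + 1) (fun i => if h : i < j + 1 then w ⟨i, h⟩ else false) := by
      ext e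
      simp only [Set.mem_preimage, Set.mem_iUnion, exists_prop]
      constructor
      · intro he
        refine ⟨fun i => e i, he, ?_⟩
        intro i hi
        simp only
        rw [dif_pos hi]
      · rintro ⟨w, hw, he⟩
        have h1 := he j (Nat.lt_succ_self j)
        simp only at h1
        rw [dif_pos (Nat.lt_succ_self j)] at h1
        rw [h1]
        exact hw
    rw [h]
    refine MeasurableSet.iUnion fun w => MeasurableSet.iUnion fun _ => ?_
    exact MeasurableSpace.measurableSet_generateFrom ⟨_, _, rfl⟩
  · refine MeasurableSpace.generateFrom_le ?_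
    rintro s ⟨i, w, rfl⟩
    exact D1_cyl_meas i w

/-- D1: the odometer is a measure preserving Borel automorphism of the Cantor space -/
theorem odo_equiv : ∃ S : Cn ≃ᵐ Cn, (∀ e, S e = odo e) ∧ MeasurePreserving S coin coin := by
  obtain ⟨hprob, hcyl, -, -⟩ := Pool.Agent.H691R3.SL.coin_cyl
  let S : Cn ≃ᵐ Cn :=
    { toFun := odo
      invFun := D1_odo'
      left_inv := D1_left
      right_inv := D1_right
      measurable_toFun := D1_meas
      measurable_invFun := D1_meas' }
  refine ⟨S, fun _ => rfl, D1_meas, ?_⟩
  have hp : IsProbabilityMeasure (Measure.map odo coin) :=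
    Measure.isProbabilityMeasure_map D1_meas.aemeasurable
  have : Measure.map odo coin = coin := by
    refine ext_of_generate_finite _ D1_gen D1_pi ?_ ?_
    · rintro s ⟨i, w, rfl⟩
      rw [Measure.map_apply D1_meas (D1_cyl_meas i w), D1_preimage]
      exact (hcyl i _).trans (hcyl i w).symm
    · rw [measure_univ, measure_univ]
  exact this

end

end Pool.Agent.H691R3.SL
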