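import Pool.Agent.H691R3.SL.Defs
import Pool.Agent.H691R3.SLF.F_D3
/-!
# D4: combinatorics of the tower
-/

namespace Pool.Agent.H691R3.SL

open MeasureTheory Set Filter Topology
open scoped Real BigOperators

noncomputable section

section comb

variable {Ω : Type} (n : ℕ → Ω → ℕ)

/-- splitting a sum over `range i` at `l < i` -/
theorem D4_split (f : ℕ → ℕ) {l i : ℕ} (h : l < i) :
    ∑ j ∈ Finset.range i, f j
      = ∑ j ∈ Finset.range l, f j + f l + ∑ j ∈ Finset.Ico (l + 1) i, f j := by
  rw [← Finset.sum_range_succ, Finset.sum_range_add_sum_Ico f (Nat.succ_le_of_lt h)]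

/-- all digits below `i` are `1` -/
theorem D4_all (ω : Ω) (e : Cn) (i : ℕ) (h : ∀ j < i, e j = true) :
    (∑ l ∈ Finset.range i, if e l then n l ω else 0) = ∑ l ∈ Finset.range i, n l ω := by
  refine Finset.sum_congr rfl fun l hl => ?_
  rw [h l (Finset.mem_range.1 hl), if_pos rfl]

theorem D4_le (ω : Ω) (e : Cn) (s : Finset ℕ) :
    (∑ l ∈ s, if e l then n l ω else 0) ≤ ∑ l ∈ s, n l ω := by
  refine Finset.sum_le_sum fun l _ => ?_
  split_ifs
  · exact le_rfl
  · exact Nat.zero_le _

/-- the first zero -/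
theorem D4_first (e : Cn) (i : ℕ) (h : ∃ l < i, e l = false) :
    ∃ l < i, e l = false ∧ ∀ j < l, e j = true := by
  obtain ⟨l0, hl0, hel0⟩ := h
  have hex : ∃ l, e l = false := ⟨l0, hel0⟩
  refine ⟨Nat.find hex, lt_of_le_of_lt (Nat.find_min' hex hel0) hl0, Nat.find_spec hex, ?_⟩
  intro j hj
  have h1 := Nat.find_min hex hj
  simpa using h1

theorem D4_zero_or (i : ℕ) (p : Sky (ret n)) (hp : InT n i p) :
    (∃ l < i, p.1.1.2 l = false) ∨ (p.1.2 = 0 ∧ ∀ j < i, p.1.1.2 j = true) := by
  by_cases h : ∃ l < i, p.1.1.2 l = false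
  · exact Or.inl h
  · refine Or.inr ⟨hp.resolve_left h, fun j hj => ?_⟩
    by_contra hc
    exact h ⟨j, hj, by simpa using hc⟩

variable (hn : ∀ i ω, 2 * ∑ j ∈ Finset.range i, n j ω < n i ω)
  (T : Sky (ret n) → Sky (ret n))
  (hT1 : ∀ (p : Sky (ret n)) (h : p.1.2 + 1 < ret n p.1.1), T p = ⟨(p.1.1, p.1.2 + 1), h⟩)
  (hT2 : ∀ (p : Sky (ret n)), ¬ p.1.2 + 1 < ret n p.1.1 →
    (T p).1.1 = (p.1.1.1, odo p.1.1.2) ∧ (T p).1.2 = 0)

include hn hT1 hT2 in
/-- D4: one step up in the tower of order `i` -/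
theorem tower_step (i : ℕ) (p : Sky (ret n)) (hp : InT n i p)
    (htop : pos n i p < ∑ l ∈ Finset.range i, n l p.1.1.1) :
    InT n i (T p) ∧ pos n i (T p) = pos n i p + 1 ∧ (T p).1.1.1 = p.1.1.1 ∧
      ∀ l, i ≤ l → (T p).1.1.2 l = p.1.1.2 l := by
  have hz : ∃ l < i, p.1.1.2 l = false := by
    rcases D4_zero_or n i p hp with h | ⟨h0, h1⟩
    · exact h
    · exfalso
      have h2 : pos n i p = ∑ l ∈ Finset.range i, n l p.1.1.1 := by
        unfold pos
        rw [D4_all n p.1.1.1 p.1.1.2 i h1, h0, add_zero]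
      omega
  by_cases hlt : p.1.2 + 1 < ret n p.1.1
  · rw [hT1 p hlt]
    refine ⟨Or.inl hz, ?_, rfl, fun _ _ => rfl⟩
    unfold pos
    exact (add_assoc _ _ _).symm
  · obtain ⟨hA, hB⟩ := hT2 p hlt
    obtain ⟨l, hli, hel, hfirst⟩ := D4_first p.1.1.2 i hz
    obtain ⟨hret, hodo⟩ := ret_spec n p.1.1.1 p.1.1.2 l hfirst hel
    have hlt2 := p.2
    have hret' : p.1.2 + 1 = n l p.1.1.1 - ∑ j ∈ Finset.range l, n j p.1.1.1 := by
      have h3 : ret n p.1.1 = ret n (p.1.1.1, p.1.1.2) := rfl
      rw [← hret, ← h3]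
      omega
    have hω : (T p).1.1.1 = p.1.1.1 := by rw [hA]
    have he : (T p).1.1.2 = fun j => if j < l then false else if j = l then true else p.1.1.2 j := by
      rw [hA, ← hodo]
    refine ⟨Or.inr hB, ?_, hω, ?_⟩
    · unfold pos
      rw [hω, he, hB, add_zero]
      rw [D4_split _ hli, D4_split (fun j => if p.1.1.2 j then n j p.1.1.1 else 0) hli]
      have h4 : (∑ j ∈ Finset.range l, if (if j < l then false else if j = l then true
          else p.1.1.2 j) = true then n j p.1.1.1 else 0) = 0 := by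
        refine Finset.sum_eq_zero fun j hj => ?_
        rw [if_pos (Finset.mem_range.1 hj)]
        rfl
      have h5 : (∑ j ∈ Finset.Ico (l + 1) i, if (if j < l then false else if j = l then true
          else p.1.1.2 j) = true then n j p.1.1.1 else 0)
          = ∑ j ∈ Finset.Ico (l + 1) i, if p.1.1.2 j = true then n j p.1.1.1 else 0 := by
        refine Finset.sum_congr rfl fun j hj => ?_
        have hj' := (Finset.mem_Ico.1 hj).1
        rw [if_neg (show ¬ j < l by omega), if_neg (show ¬ j = l by omega)]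
      have h6 : (∑ j ∈ Finset.range l, if p.1.1.2 j = true then n j p.1.1.1 else 0)
          = ∑ j ∈ Finset.range l, n j p.1.1.1 := D4_all n p.1.1.1 p.1.1.2 l hfirst
      rw [h4, h5, h6]
      have h7 := hn l p.1.1.1
      simp only [lt_irrefl, if_false, if_true, hel]
      simp only [Bool.false_eq_true, if_false]
      omega
    · intro j hj
      rw [he]
      show (if j < l then false else if j = l then true else p.1.1.2 j) = p.1.1.2 j
      rw [if_neg (show ¬ j < l by omega), if_neg (show ¬ j = l by omega)]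

include hn in
/-- height of a point with a zero digit -/
theorem D4_height (p : Sky (ret n)) (l : ℕ) (h1 : ∀ j < l, p.1.1.2 j = true)
    (h2 : p.1.1.2 l = false) :
    p.1.2 + ∑ j ∈ Finset.range l, n j p.1.1.1 < n l p.1.1.1 := by
  have h3 := (ret_spec n p.1.1.1 p.1.1.2 l h1 h2).1
  have h4 : p.1.2 < ret n (p.1.1.1, p.1.1.2) := p.2
  have h5 := hn l p.1.1.1
  omega

include hn in
/-- D4b: inside the tower the position is at most the height, and it determines the point -/
theorem pos_le (i : ℕ) (p : Sky (ret n)) (hp : InT n i p) :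
    pos n i p ≤ ∑ l ∈ Finset.range i, n l p.1.1.1 := by
  rcases D4_zero_or n i p hp with h | ⟨h0, h1⟩
  · obtain ⟨l, hli, hel, hfirst⟩ := D4_first p.1.1.2 i h
    have h2 := D4_height n hn p l hfirst hel
    unfold pos
    rw [D4_split _ hli, D4_split (fun l => n l p.1.1.1) hli]
    have h6 : (∑ j ∈ Finset.range l, if p.1.1.2 j = true then n j p.1.1.1 else 0)
        = ∑ j ∈ Finset.range l, n j p.1.1.1 := D4_all n p.1.1.1 p.1.1.2 l hfirst
    have h7 := D4_le n p.1.1.1 p.1.1.2 (Finset.Ico (l + 1) i)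
    rw [h6, hel]
    simp only [Bool.false_eq_true, if_false]
    omega
  · unfold pos
    rw [D4_all n p.1.1.1 p.1.1.2 i h1, h0, add_zero]

include hn in
/-- if digit `l` is `0` then the digits below `l` and the height contribute less than `n_l` -/
theorem D4_low (p : Sky (ret n)) (l : ℕ) (hl : p.1.1.2 l = false) :
    (∑ j ∈ Finset.range l, if p.1.1.2 j = true then n j p.1.1.1 else 0) + p.1.2
      < n l p.1.1.1 := by
  obtain ⟨l0, hl0, hel0, hfirst⟩ := D4_first p.1.1.2 (l + 1) ⟨l, Nat.lt_succ_self l, hl⟩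
  have h2 := D4_height n hn p l0 hfirst hel0
  rcases Nat.lt_or_ge l0 l with hlt | hge
  · rw [D4_split _ hlt]
    have h6 : (∑ j ∈ Finset.range l0, if p.1.1.2 j = true then n j p.1.1.1 else 0)
        = ∑ j ∈ Finset.range l0, n j p.1.1.1 := D4_all n p.1.1.1 p.1.1.2 l0 hfirst
    have h7 := D4_le n p.1.1.1 p.1.1.2 (Finset.Ico (l0 + 1) l)
    have h8 := hn l p.1.1.1
    rw [D4_split _ hlt] at h8
    rw [h6, hel0]
    simp only [Bool.false_eq_true, if_false]
    omega
  · have h9 : l0 = l := by omega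
    subst h9
    have h6 : (∑ j ∈ Finset.range l0, if p.1.1.2 j = true then n j p.1.1.1 else 0)
        = ∑ j ∈ Finset.range l0, n j p.1.1.1 := D4_all n p.1.1.1 p.1.1.2 l0 hfirst
    rw [h6]
    omega

include hn in
/-- comparison of positions at the largest differing digit -/
theorem D4_lt (i : ℕ) (p q : Sky (ret n)) (hω : p.1.1.1 = q.1.1.1) (l : ℕ) (hl : l < i)
    (hpl : p.1.1.2 l = false) (hql : q.1.1.2 l = true)
    (hgt : ∀ j, l < j → j < i → p.1.1.2 j = q.1.1.2 j) :
    pos n i p < pos n i q := by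
  unfold pos
  rw [D4_split _ hl, D4_split (fun l => if q.1.1.2 l = true then n l q.1.1.1 else 0) hl]
  have h1 := D4_low n hn p l hpl
  have h2 : (∑ j ∈ Finset.Ico (l + 1) i, if p.1.1.2 j = true then n j p.1.1.1 else 0)
      = ∑ j ∈ Finset.Ico (l + 1) i, if q.1.1.2 j = true then n j q.1.1.1 else 0 := by
    refine Finset.sum_congr rfl fun j hj => ?_
    have hj' := Finset.mem_Ico.1 hj
    rw [hgt j (by omega) hj'.2, hω]
  rw [h2, hpl, hql, ← hω]
  simp only [Bool.false_eq_true, if_false, if_true]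
  omega

include hn in
theorem pos_inj (i : ℕ) (p q : Sky (ret n)) (hp : InT n i p) (hq : InT n i q)
    (hω : p.1.1.1 = q.1.1.1) (htail : ∀ l, i ≤ l → p.1.1.2 l = q.1.1.2 l)
    (h : pos n i p = pos n i q) : p = q := by
  classical
  by_cases hD : ∃ l < i, p.1.1.2 l ≠ q.1.1.2 l
  · exfalso
    obtain ⟨l0, hl0, hne0⟩ := hD
    let D : Finset ℕ := (Finset.range i).filter (fun l => p.1.1.2 l ≠ q.1.1.2 l)
    have hDne : D.Nonempty := ⟨l0, Finset.mem_filter.2 ⟨Finset.mem_range.2 hl0, hne0⟩⟩
    have hmem := D.max'_mem hDne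
    set l := D.max' hDne with hldef
    have hl : l < i := Finset.mem_range.1 (Finset.mem_filter.1 hmem).1
    have hne : p.1.1.2 l ≠ q.1.1.2 l := (Finset.mem_filter.1 hmem).2
    have hgt : ∀ j, l < j → j < i → p.1.1.2 j = q.1.1.2 j := by
      intro j hj hji
      by_contra hc
      have h3 : j ∈ D := Finset.mem_filter.2 ⟨Finset.mem_range.2 hji, hc⟩
      have h4 := D.le_max' j h3
      omega
    cases hpl : p.1.1.2 l with
    | false =>
      have hql : q.1.1.2 l = true := by
        cases hql : q.1.1.2 l with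
        | false => exact absurd (hpl.trans hql.symm) hne
        | true => rfl
      exact absurd h (ne_of_lt (D4_lt n hn i p q hω l hl hpl hql hgt))
    | true =>
      have hql : q.1.1.2 l = false := by
        cases hql : q.1.1.2 l with
        | false => rfl
        | true => exact absurd (hpl.trans hql.symm) hne
      exact absurd h.symm (ne_of_lt (D4_lt n hn i q p hω.symm l hl hql hpl
        (fun j hj hji => (hgt j hj hji).symm)))
  · push Not at hD
    have he : p.1.1.2 = q.1.1.2 := by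
      funext l
      rcases Nat.lt_or_ge l i with hl | hl
      · exact hD l hl
      · exact htail l hl
    have hh : p.1.2 = q.1.2 := by
      unfold pos at h
      rw [he, hω] at h
      exact Nat.add_left_cancel h
    exact Subtype.ext (Prod.ext (Prod.ext hω he) hh)

end comb

end

end Pool.Agent.H691R3.SL
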