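import Pool.Agent.H691R3.SL.Defs
import Pool.Agent.H691R3.SLF.F_D4
/-!
# D5: climbing the tower
-/

namespace Pool.Agent.H691R3.SL

open MeasureTheory Set Filter Topology
open scoped Real BigOperators

noncomputable section

section comb

variable {Ω : Type} (n : ℕ → Ω → ℕ)

theorem D5_pos_base (i : ℕ) (p : Sky (ret n)) (h0 : p.1.2 = 0) (h1 : ∀ j < i, p.1.1.2 j = false) :
    pos n i p = 0 := by
  unfold pos
  rw [h0, add_zero]
  refine Finset.sum_eq_zero fun l hl => ?_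
  rw [h1 l (Finset.mem_range.1 hl)]
  exact if_neg Bool.noConfusion

variable (hn : ∀ i ω, 2 * ∑ j ∈ Finset.range i, n j ω < n i ω)
  (T : Sky (ret n) → Sky (ret n))
  (hT1 : ∀ (p : Sky (ret n)) (h : p.1.2 + 1 < ret n p.1.1), T p = ⟨(p.1.1, p.1.2 + 1), h⟩)
  (hT2 : ∀ (p : Sky (ret n)), ¬ p.1.2 + 1 < ret n p.1.1 →
    (T p).1.1 = (p.1.1.1, odo p.1.1.2) ∧ (T p).1.2 = 0)

include hn hT1 hT2 in
/-- D5 (uses D4, D4b): `m` steps from the base; `T^{n_i}` maps digit `i` from `0` to `1`;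
every point of the tower of order `i` is reached from the base -/
theorem tower_iter (i : ℕ) (p : Sky (ret n)) (h0 : p.1.2 = 0) (h1 : ∀ j < i, p.1.1.2 j = false)
    (m : ℕ) (hm : m ≤ ∑ l ∈ Finset.range i, n l p.1.1.1) :
    InT n i (T^[m] p) ∧ pos n i (T^[m] p) = m ∧ (T^[m] p).1.1.1 = p.1.1.1 ∧
      ∀ l, i ≤ l → (T^[m] p).1.1.2 l = p.1.1.2 l := by
  induction m with
  | zero => exact ⟨Or.inr h0, D5_pos_base n i p h0 h1, rfl, fun _ _ => rfl⟩
  | succ m ih =>
    obtain ⟨a1, a2, a3, a4⟩ := ih (by omega)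
    have htop : pos n i (T^[m] p) < ∑ l ∈ Finset.range i, n l (T^[m] p).1.1.1 := by
      rw [a2, a3]
      omega
    obtain ⟨b1, b2, b3, b4⟩ := tower_step n hn T hT1 hT2 i (T^[m] p) a1 htop
    rw [Function.iterate_succ_apply']
    exact ⟨b1, by rw [b2, a2], b3.trans a3, fun l hl => (b4 l hl).trans (a4 l hl)⟩

include hn hT1 hT2 in
theorem T_pow_n (i : ℕ) (p : Sky (ret n)) (h0 : p.1.2 = 0) (h1 : ∀ j ≤ i, p.1.1.2 j = false) :
    (T^[n i p.1.1.1] p).1 = ((p.1.1.1, Function.update p.1.1.2 i true), 0) := by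
  obtain ⟨a1, a2, a3, a4⟩ := tower_iter n hn T hT1 hT2 (i + 1) p h0
    (fun j hj => h1 j (Nat.lt_succ_iff.1 hj)) (n i p.1.1.1) (by
      rw [Finset.sum_range_succ]
      omega)
  let q : Sky (ret n) := ⟨((p.1.1.1, Function.update p.1.1.2 i true), 0), ret_pos n hn _⟩
  have hq : InT n (i + 1) q := Or.inr rfl
  have hpos : pos n (i + 1) q = n i p.1.1.1 := by
    show (∑ l ∈ Finset.range (i + 1), if (Function.update p.1.1.2 i true) l = true
      then n l p.1.1.1 else 0) + 0 = n i p.1.1.1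
    rw [add_zero, Finset.sum_range_succ, Function.update_self, if_pos rfl]
    have h2 : (∑ l ∈ Finset.range i, if (Function.update p.1.1.2 i true) l = true
      then n l p.1.1.1 else 0) = 0 := by
      refine Finset.sum_eq_zero fun l hl => ?_
      have hl' := Finset.mem_range.1 hl
      rw [Function.update_of_ne (by omega), h1 l hl'.le]
      exact if_neg Bool.noConfusion
    rw [h2, zero_add]
  have htail : ∀ l, i + 1 ≤ l → (T^[n i p.1.1.1] p).1.1.2 l = q.1.1.2 l := by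
    intro l hl
    rw [a4 l hl]
    show p.1.1.2 l = Function.update p.1.1.2 i true l
    rw [Function.update_of_ne (by omega)]
  have heq : T^[n i p.1.1.1] p = q :=
    pos_inj n hn (i + 1) _ q a1 hq a3 htail (a2.trans hpos.symm)
  rw [heq]

include hn hT1 hT2 in
theorem reach_level (i : ℕ) (q : Sky (ret n)) (hq : InT n i q) :
    ∃ p : Sky (ret n), p.1.2 = 0 ∧ (∀ j < i, p.1.1.2 j = false) ∧ p.1.1.1 = q.1.1.1 ∧
      (∀ l, i ≤ l → p.1.1.2 l = q.1.1.2 l) ∧ T^[pos n i q] p = q := by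
  let p : Sky (ret n) :=
    ⟨((q.1.1.1, fun l => if l < i then false else q.1.1.2 l), 0), ret_pos n hn _⟩
  have h0 : p.1.2 = 0 := rfl
  have h1 : ∀ j < i, p.1.1.2 j = false := fun j hj => if_pos hj
  have h2 : p.1.1.1 = q.1.1.1 := rfl
  have h3 : ∀ l, i ≤ l → p.1.1.2 l = q.1.1.2 l := fun l hl => if_neg (not_lt.2 hl)
  obtain ⟨a1, a2, a3, a4⟩ := tower_iter n hn T hT1 hT2 i p h0 h1 (pos n i q) (pos_le n hn i q hq)
  refine ⟨p, h0, h1, h2, h3, ?_⟩
  exact pos_inj n hn i _ q a1 hq (a3.trans h2) (fun l hl => (a4 l hl).trans (h3 l hl)) a2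

end comb

end

end Pool.Agent.H691R3.SL
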