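import Pool.Agent.H691R3.SL.Defs
import Pool.Agent.H691R3.SLF.F_D4
/-!
# D6: no return
-/

namespace Pool.Agent.H691R3.SL

open MeasureTheory Set Filter Topology
open scoped Real BigOperators

noncomputable section

section comb

variable {Ω : Type} (n : ℕ → Ω → ℕ)

variable (hn : ∀ i ω, 2 * ∑ j ∈ Finset.range i, n j ω < n i ω)
  (T : Sky (ret n) → Sky (ret n))
  (hT1 : ∀ (p : Sky (ret n)) (h : p.1.2 + 1 < ret n p.1.1), T p = ⟨(p.1.1, p.1.2 + 1), h⟩)
  (hT2 : ∀ (p : Sky (ret n)), ¬ p.1.2 + 1 < ret n p.1.1 →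
    (T p).1.1 = (p.1.1.1, odo p.1.1.2) ∧ (T p).1.2 = 0)

include hn hT1 hT2 in
lemma D6_iter (i : ℕ) (p : Sky (ret n)) (hp : InT n i p) (m : ℕ)
    (hm : pos n i p + m ≤ ∑ l ∈ Finset.range i, n l p.1.1.1) :
    InT n i (T^[m] p) ∧ pos n i (T^[m] p) = pos n i p + m ∧ (T^[m] p).1.1.1 = p.1.1.1 := by
  induction m with
  | zero => exact ⟨hp, rfl, rfl⟩
  | succ m ih =>
    obtain ⟨h1, h2, h3⟩ := ih (by omega)
    have htop : pos n i (T^[m] p) < ∑ l ∈ Finset.range i, n l (T^[m] p).1.1.1 := by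
      rw [h2, h3]; omega
    obtain ⟨g1, g2, g3, _⟩ := Pool.Agent.H691R3.SL.tower_step n hn T hT1 hT2 i (T^[m] p) h1 htop
    rw [Function.iterate_succ_apply']
    refine ⟨g1, ?_, ?_⟩
    · rw [g2, h2]; ring
    · rw [g3, h3]

include hn hT1 hT2 in
/-- D6 (uses D4, D4b, D5): no return to the base of the tower of order `i` before time `n_i`
(points whose digits are eventually `1` excluded) -/
theorem no_return (i : ℕ) (p : Sky (ret n)) (h0 : p.1.2 = 0) (h1 : ∀ j < i, p.1.1.2 j = false)
    (hinf : ∀ N, ∃ l, N ≤ l ∧ p.1.1.2 l = false)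
    (k : ℕ) (hk : 0 < k) (hk2 : k < n i p.1.1.1) :
    ¬ ((T^[k] p).1.2 = 0 ∧ ∀ j < i, (T^[k] p).1.1.2 j = false) := by
  rintro ⟨hq0, hq1⟩
  classical
  obtain ⟨l, ⟨hil, hl⟩, hmin⟩ : ∃ l, (i ≤ l ∧ p.1.1.2 l = false) ∧
      ∀ j, i ≤ j → j < l → p.1.1.2 j = true := by
    refine ⟨Nat.find (hinf i), Nat.find_spec (hinf i), ?_⟩
    intro j hij hj
    have := Nat.find_min (hinf i) hj
    by_contra hcon
    exact this ⟨hij, by simpa using hcon⟩
  have hInT : InT n (l + 1) p := Or.inl ⟨l, Nat.lt_succ_self l, hl⟩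
  set ω := p.1.1.1 with hω
  -- position of p
  have hpos : pos n (l + 1) p = ∑ j ∈ Finset.range l, if p.1.1.2 j then n j ω else 0 := by
    unfold pos
    rw [Finset.sum_range_succ, hl, h0]
    simp [hω]
  have hle : pos n (l + 1) p ≤ ∑ j ∈ Finset.range l, n j ω := by
    rw [hpos]
    refine Finset.sum_le_sum (fun j _ => ?_)
    split_ifs
    · exact le_rfl
    · exact Nat.zero_le _
  have hbig : pos n (l + 1) p + k < n l ω := by
    rcases Nat.eq_or_lt_of_le hil with h | h
    · -- l = i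
      have hz : pos n (l + 1) p = 0 := by
        rw [hpos]
        refine Finset.sum_eq_zero (fun j hj => ?_)
        rw [h1 j (by rw [h]; exact Finset.mem_range.mp hj)]
        simp
      rw [hz, zero_add, ← h]
      exact hk2
    · have h3 : n i ω ≤ ∑ j ∈ Finset.range l, n j ω :=
        Finset.single_le_sum (f := fun j => n j ω) (fun _ _ => Nat.zero_le _) (Finset.mem_range.mpr h)
      have h4 := hn l ω
      omega
  have hH : pos n (l + 1) p + k ≤ ∑ j ∈ Finset.range (l + 1), n j ω := by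
    rw [Finset.sum_range_succ]; omega
  obtain ⟨_, g2, g3⟩ := D6_iter n hn T hT1 hT2 (l + 1) p hInT k hH
  set q := T^[k] p with hqdef
  -- position of q
  have hposq : pos n (l + 1) q = (∑ j ∈ Finset.range l, if q.1.1.2 j then n j ω else 0)
      + (if q.1.1.2 l then n l ω else 0) := by
    unfold pos
    rw [Finset.sum_range_succ, hq0, g3]
    simp [hω]
  cases hwl : q.1.1.2 l with
  | true =>
    rw [hwl] at hposq
    simp only [if_true] at hposq
    omega
  | false =>
    rw [hwl] at hposq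
    simp only [Bool.false_eq_true, if_false, add_zero] at hposq
    have hle2 : pos n (l + 1) q ≤ pos n (l + 1) p := by
      rw [hposq, hpos]
      refine Finset.sum_le_sum (fun j hj => ?_)
      have hjl := Finset.mem_range.mp hj
      by_cases hji : j < i
      · rw [hq1 j hji]
        simp
      · rw [hmin j (by omega) hjl, if_pos rfl]
        split_ifs
        · exact le_rfl
        · exact Nat.zero_le _
    omega

end comb

end

end Pool.Agent.H691R3.SL
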