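import Pool.Agent.H691R3.SL.Defs
import Pool.Agent.H691R3.SLF.F_D1B
/-! Task D7 (helper19): properties of the skyscraper measure space. -/

namespace Pool.Agent.H691R3.SL

open MeasureTheory Set Filter Topology Pool.Agent.H691R3.SL
open scoped Real BigOperators

noncomputable section

/-- points whose first zero digit is at `l` -/
def D7_L (Ω : Type) (l : ℕ) : Set (Ω × Cn) := {p | (∀ j < l, p.2 j = true) ∧ p.2 l = false}

theorem D7_L_meas (Ω : Type) [MeasurableSpace Ω] (l : ℕ) : MeasurableSet (D7_L Ω l) := by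
  have h1 : ∀ j : ℕ, Measurable (fun p : Ω × Cn => p.2 j) := fun j =>
    (measurable_pi_apply j).comp measurable_snd
  have h2 : D7_L Ω l = (⋂ j ∈ {j : ℕ | j < l}, {p : Ω × Cn | p.2 j = true}) ∩
      {p : Ω × Cn | p.2 l = false} := by
    ext p
    simp [D7_L]
  rw [h2]
  refine MeasurableSet.inter (MeasurableSet.biInter (Set.to_countable _) fun j _ => ?_) ?_
  · exact h1 j (measurableSet_singleton true)
  · exact h1 l (measurableSet_singleton false)

theorem D7_ret_L {Ω : Type} (n : ℕ → Ω → ℕ) (l : ℕ) (p : Ω × Cn) (hp : p ∈ D7_L Ω l) :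
    ret n p = n l p.1 - ∑ j ∈ Finset.range l, n j p.1 := by
  classical
  have h : ∃ l, p.2 l = false := ⟨l, hp.2⟩
  have hfind : Nat.find h = l := by
    rw [Nat.find_eq_iff]
    refine ⟨hp.2, fun j hj => ?_⟩
    rw [hp.1 j hj]
    simp
  unfold ret
  rw [dif_pos h]
  have e : (Nat.find h) = l := hfind
  convert rfl using 2 <;> simp [e]

theorem D7_ret_not {Ω : Type} (n : ℕ → Ω → ℕ) (p : Ω × Cn) (hp : ∀ l, p.2 l = true) :
    ret n p = 1 := by
  have h : ¬ ∃ l, p.2 l = false := by
    rintro ⟨l, hl⟩
    rw [hp l] at hl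
    exact absurd hl (by simp)
  unfold ret
  rw [dif_neg h]

theorem D7_ret_meas {Ω : Type} [MeasurableSpace Ω] (n : ℕ → Ω → ℕ) (hm : ∀ i, Measurable (n i)) :
    Measurable (ret n) := by
  apply measurable_to_countable'
  intro k
  have h1 : (ret n) ⁻¹' {k} =
      (⋃ l : ℕ, (D7_L Ω l ∩ {p : Ω × Cn | n l p.1 - ∑ j ∈ Finset.range l, n j p.1 = k})) ∪
        ((⋂ l : ℕ, {p : Ω × Cn | p.2 l = true}) ∩ {_p : Ω × Cn | 1 = k}) := by
    ext p
    simp only [mem_preimage, mem_singleton_iff, mem_union, mem_iUnion, mem_inter_iff, mem_iInter]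
    by_cases hp : ∀ l, p.2 l = true
    · rw [D7_ret_not n p hp]
      constructor
      · intro h
        exact Or.inr ⟨hp, h⟩
      · rintro (⟨l, hl, _⟩ | ⟨_, h⟩)
        · exact absurd (hp l) (by rw [hl.2]; simp)
        · exact h
    · push Not at hp
      have hex : ∃ l, p.2 l = false := by
        obtain ⟨l, hl⟩ := hp
        exact ⟨l, by simpa using hl⟩
      classical
      have hL : p ∈ D7_L Ω (Nat.find hex) := by
        refine ⟨fun j hj => ?_, Nat.find_spec hex⟩
        have := Nat.find_min hex hj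
        simpa using this
      constructor
      · intro h
        refine Or.inl ⟨Nat.find hex, hL, ?_⟩
        show n (Nat.find hex) p.1 - ∑ j ∈ Finset.range (Nat.find hex), n j p.1 = k
        rw [← D7_ret_L n _ p hL]
        exact h
      · rintro (⟨l, hl, h⟩ | ⟨h, _⟩)
        · rw [D7_ret_L n l p hl]
          exact h
        · obtain ⟨l, hl⟩ := hp
          exact absurd (h l) hl
  rw [h1]
  refine MeasurableSet.union (MeasurableSet.iUnion fun l => (D7_L_meas Ω l).inter ?_)
    (MeasurableSet.inter (MeasurableSet.iInter fun l => ?_) (MeasurableSet.const _))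
  · have h2 : Measurable (fun p : Ω × Cn => n l p.1 - ∑ j ∈ Finset.range l, n j p.1) := by
      have e1 : Measurable (fun p : Ω × Cn => n l p.1) := (hm l).comp measurable_fst
      have e2 : Measurable (fun p : Ω × Cn => ∑ j ∈ Finset.range l, n j p.1) :=
        Finset.measurable_fun_sum _ fun j _ => (hm j).comp measurable_fst
      exact e1.sub e2
    exact h2 (measurableSet_singleton k)
  · have h2 : Measurable (fun p : Ω × Cn => p.2 l) := (measurable_pi_apply l).comp measurable_snd
    exact h2 (measurableSet_singleton true)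

theorem D7_n_ge {Ω : Type} (n : ℕ → Ω → ℕ) (hn : ∀ i ω, 2 * ∑ j ∈ Finset.range i, n j ω < n i ω)
    (ω : Ω) (l : ℕ) : 3 ^ l ≤ n l ω ∧ 3 ^ l ≤ 2 * (∑ j ∈ Finset.range l, n j ω) + 1 := by
  induction l with
  | zero =>
    have h := hn 0 ω
    simp only [Finset.range_zero, Finset.sum_empty, mul_zero, pow_zero] at h ⊢
    omega
  | succ l ih =>
    have h1 : 3 ^ (l + 1) ≤ 2 * (∑ j ∈ Finset.range (l + 1), n j ω) + 1 := by
      rw [Finset.sum_range_succ, pow_succ]
      omega
    have h2 := hn (l + 1) ω
    exact ⟨by omega, h1⟩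

/-- D7 (uses D1b, D3): properties of the skyscraper measure space -/
theorem sky_space {Ω : Type} [MeasurableSpace Ω] [StandardBorelSpace Ω] (P : Measure Ω)
    [IsProbabilityMeasure P] (n : ℕ → Ω → ℕ) (hm : ∀ i, Measurable (n i))
    (hn : ∀ i ω, 2 * ∑ j ∈ Finset.range i, n j ω < n i ω) :
    Measurable (ret n) ∧ StandardBorelSpace (Sky (ret n)) ∧
    SigmaFinite (skyMeasure (P.prod coin) (ret n)) ∧
    NullSingletonClass (skyMeasure (P.prod coin) (ret n)) ∧
    skyMeasure (P.prod coin) (ret n) Set.univ = ⊤ := by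
  obtain ⟨hprob, hcyl, hatom, -⟩ := Pool.Agent.H691R3.SL.coin_cyl
  have := hprob
  have hret := D7_ret_meas n hm
  have hSm : MeasurableSet {p : (Ω × Cn) × ℕ | p.2 < ret n p.1} :=
    measurableSet_lt measurable_snd (hret.comp measurable_fst)
  have hemb : MeasurableEmbedding (Subtype.val : Sky (ret n) → (Ω × Cn) × ℕ) :=
    MeasurableEmbedding.subtype_coe hSm
  have happly : ∀ s : Set (Sky (ret n)), skyMeasure (P.prod coin) (ret n) s =
      ((P.prod coin).prod (Measure.count : Measure ℕ)) (Subtype.val '' s) := fun s =>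
    hemb.comap_apply _ s
  refine ⟨hret, hSm.standardBorel, ?_, ?_, ?_⟩
  · let ρ := ((P.prod coin).prod (Measure.count : Measure ℕ))
    refine ⟨⟨{ set := fun i => Subtype.val ⁻¹' (spanningSets ρ i)
               set_mem := fun _ => trivial
               finite := fun i => ?_
               spanning := ?_ }⟩⟩
    · rw [happly]
      refine lt_of_le_of_lt (measure_mono (Set.image_preimage_subset _ _)) ?_
      exact measure_spanningSets_lt_top ρ i
    · rw [← Set.preimage_iUnion, iUnion_spanningSets, Set.preimage_univ]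
  · refine ⟨fun x => ?_⟩
    rw [happly, Set.image_singleton]
    have e1 : ({x.1} : Set ((Ω × Cn) × ℕ)) =
        (({x.1.1.1} : Set Ω) ×ˢ ({x.1.1.2} : Set Cn)) ×ˢ ({x.1.2} : Set ℕ) := by
      simp
    rw [e1, Measure.prod_prod, Measure.prod_prod, hatom, mul_zero, zero_mul]
  · rw [happly, eq_top_iff]
    -- lower bound for every `l`
    have hlow : ∀ l : ℕ, (((3:ENNReal) / 2) ^ l) / 4 ≤
        ((P.prod coin).prod (Measure.count : Measure ℕ)) (Subtype.val '' (Set.univ :
          Set (Sky (ret n)))) := by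
      intro l
      set m : ℕ := (3 ^ l + 1) / 2 with hmdef
      have hsub : (((Set.univ : Set Ω) ×ˢ
          {e : Cn | ∀ j < l + 1, e j = (decide (j < l) : Bool)}) ×ˢ
            (↑(Finset.range m) : Set ℕ)) ⊆ Subtype.val '' (Set.univ : Set (Sky (ret n))) := by
        rintro ⟨⟨ω, e⟩, j⟩ ⟨⟨_, he⟩, hj⟩
        have hL : (ω, e) ∈ D7_L Ω l := by
          refine ⟨fun i hi => ?_, ?_⟩
          · have := he i (by omega)
            simpa [hi] using this
          · have := he l (by omega)
            simpa using this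
        have hjm : j < m := by simpa using hj
        have hlt : j < ret n (ω, e) := by
          rw [D7_ret_L n l _ hL]
          have h1 := (D7_n_ge n hn ω l).1
          have h2 := hn l ω
          show j < n l ω - ∑ j ∈ Finset.range l, n j ω
          omega
        exact ⟨⟨((ω, e), j), hlt⟩, trivial, rfl⟩
      refine le_trans ?_ (measure_mono hsub)
      rw [Measure.prod_prod, Measure.prod_prod, measure_univ, one_mul, Measure.count_apply_finset,
        Finset.card_range, hcyl (l + 1) (fun j => decide (j < l))]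
      -- numbers
      have hm2 : (3:ENNReal) ^ l / 2 ≤ (m : ENNReal) := by
        rw [ENNReal.div_le_iff (by norm_num) (by norm_num)]
        have : 3 ^ l ≤ m * 2 := by omega
        exact_mod_cast this
      calc ((3:ENNReal) / 2) ^ l / 4 = (2⁻¹ : ENNReal) ^ (l + 1) * ((3:ENNReal) ^ l / 2) := by
            rw [ENNReal.div_eq_inv_mul (a := (3:ENNReal)) (b := 2), mul_pow, pow_succ,
              ENNReal.div_eq_inv_mul, ENNReal.div_eq_inv_mul]
            have : (4:ENNReal)⁻¹ = 2⁻¹ * 2⁻¹ := by
              rw [← ENNReal.mul_inv (Or.inl (by norm_num)) (Or.inl (by norm_num))]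
              norm_num
            rw [this]
            ring
        _ ≤ (2⁻¹ : ENNReal) ^ (l + 1) * (m : ENNReal) := by gcongr
    have hlim : Tendsto (fun l : ℕ => (((3:ENNReal) / 2) ^ l) / 4) atTop (𝓝 ⊤) := by
      have h1 : Tendsto (fun l : ℕ => ((3:ENNReal) / 2) ^ l) atTop (𝓝 ⊤) := by
        rw [ENNReal.tendsto_pow_atTop_nhds_top_iff]
        rw [ENNReal.lt_div_iff_mul_lt (by norm_num) (by norm_num)]
        norm_num
      have h2 := ENNReal.Tendsto.div_const h1 (b := (4:ENNReal)) (Or.inl (by simp))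
      rwa [ENNReal.top_div_of_ne_top (by norm_num)] at h2
    exact le_of_tendsto hlim (Eventually.of_forall hlow)

end

end Pool.Agent.H691R3.SL
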