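import Pool.Agent.H691R3.SL.Defs
import Pool.Agent.H691R3.SLF.F_H1
namespace Pool.Agent.H691R3.SL

open MeasureTheory Set Filter Topology
open scoped Real BigOperators

noncomputable section

variable {H : Type} [NormedAddCommGroup H] [InnerProductSpace ℝ H]

/-- orthogonality of the cyclic spaces -/
def H2_Or (U : H ≃ₗᵢ[ℝ] H) (x y : H) : Prop := ∀ j : ℤ, inner ℝ ((U ^ j) x) y = 0

theorem H2_zpow_apply (U : H ≃ₗᵢ[ℝ] H) (i j : ℤ) (x : H) :
    (U ^ i) ((U ^ j) x) = (U ^ (i + j)) x := by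
  rw [zpow_add]; rfl

theorem H2_inner_symm (U : H ≃ₗᵢ[ℝ] H) (x y : H) (j : ℤ) :
    inner ℝ ((U ^ j) x) y = inner ℝ ((U ^ (-j)) y) x := by
  have h := LinearIsometryEquiv.inner_map_map (U ^ (-j)) ((U ^ j) x) y
  rw [H2_zpow_apply] at h
  simp only [neg_add_cancel, zpow_zero] at h
  have h1 : (1 : H ≃ₗᵢ[ℝ] H) x = x := rfl
  rw [h1] at h
  rw [← h, real_inner_comm]

theorem H2_Or.symm {U : H ≃ₗᵢ[ℝ] H} {x y : H} (h : H2_Or U x y) : H2_Or U y x := by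
  intro j
  rw [H2_inner_symm]
  exact h (-j)

theorem H2_Or.zpow {U : H ≃ₗᵢ[ℝ] H} {x y : H} (h : H2_Or U x y) (i : ℤ) :
    H2_Or U ((U ^ i) x) y := by
  intro j
  rw [H2_zpow_apply]
  exact h _

theorem H2_Or.add {U : H ≃ₗᵢ[ℝ] H} {x x' y : H} (h : H2_Or U x y) (h' : H2_Or U x' y) :
    H2_Or U (x + x') y := by
  intro j
  rw [map_add, inner_add_left, h j, h' j, add_zero]

theorem H2_Or.smul {U : H ≃ₗᵢ[ℝ] H} {x y : H} (h : H2_Or U x y) (r : ℝ) :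
    H2_Or U (r • x) y := by
  intro j
  rw [map_smul, real_inner_smul_left, h j, mul_zero]

theorem H2_Or.sum {ι : Type*} {U : H ≃ₗᵢ[ℝ] H} {y : H} (s : Finset ι) (x : ι → H)
    (h : ∀ i ∈ s, H2_Or U (x i) y) : H2_Or U (∑ i ∈ s, x i) y := by
  intro j
  rw [map_sum, sum_inner]
  exact Finset.sum_eq_zero fun i hi => h i hi j

theorem H2_Or.pop {U : H ≃ₗᵢ[ℝ] H} {x y : H} (h : H2_Or U x y) (l : List ℕ) :
    H2_Or U (Pop U l x) y := by
  induction l with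
  | nil => exact h
  | cons n l ih => exact ih.add (ih.zpow _)

theorem H2_Or.tpU {U : H ≃ₗᵢ[ℝ] H} {x y : H} (h : H2_Or U x y) (m : ℕ) (a : ℕ → ℝ) :
    H2_Or U (tpU U m a x) y :=
  H2_Or.sum _ _ fun j _ => ((h.zpow _).add (h.zpow _)).smul _

theorem H2_Or.inner_eq {U : H ≃ₗᵢ[ℝ] H} {x y : H} (h : H2_Or U x y) : inner ℝ x y = 0 := by
  have := h 0
  simpa using this

/-- the two-sided version for sums -/
theorem H2_norm_sum {ι : Type*} [DecidableEq ι] (s : Finset ι) (x : ι → H)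
    (h : ∀ i ∈ s, ∀ j ∈ s, i ≠ j → inner ℝ (x i) (x j) = 0) :
    ‖∑ i ∈ s, x i‖ ^ 2 = ∑ i ∈ s, ‖x i‖ ^ 2 := by
  rw [← real_inner_self_eq_norm_sq, sum_inner]
  apply Finset.sum_congr rfl
  intro i hi
  rw [inner_sum, Finset.sum_eq_single i]
  · exact real_inner_self_eq_norm_sq _
  · intro j hj hne
    exact h i hi j hj (Ne.symm hne)
  · intro h'; exact absurd hi h'

theorem H2_cs_zero (x : ℝ) : cs 0 x = 1 := by simp [cs]

/-- `1 - tp` is again a `tp` -/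
def H2_co (a : ℕ → ℝ) : ℕ → ℝ := fun j => if j = 0 then 1 - a 0 else - a j

theorem H2_tp_co (m : ℕ) (hm : 0 < m) (a : ℕ → ℝ) (x : ℝ) :
    tp m (H2_co a) x = 1 - tp m a x := by
  obtain ⟨m, rfl⟩ : ∃ k, m = k + 1 := ⟨m - 1, by omega⟩
  unfold tp
  rw [Finset.sum_range_succ', Finset.sum_range_succ']
  simp only [H2_co, Nat.cast_zero, H2_cs_zero, if_true, mul_one, Nat.succ_ne_zero, if_false,
    neg_mul, Finset.sum_neg_distrib]
  ring

theorem H2_tpU_co (U : H ≃ₗᵢ[ℝ] H) (m : ℕ) (hm : 0 < m) (a : ℕ → ℝ) (x : H) :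
    tpU U m (H2_co a) x = x - tpU U m a x := by
  obtain ⟨m, rfl⟩ : ∃ k, m = k + 1 := ⟨m - 1, by omega⟩
  unfold tpU
  rw [Finset.sum_range_succ', Finset.sum_range_succ']
  have h1 : (1 : H ≃ₗᵢ[ℝ] H) x = x := rfl
  simp only [H2_co, Nat.cast_zero, if_true, Nat.succ_ne_zero, if_false, neg_zero, zpow_zero, h1]
  have h2 : ∀ r : ℝ, (r / 2) • (x + x) = r • x := by
    intro r
    rw [← two_smul ℝ x, smul_smul]
    congr 1; ring
  rw [h2, h2]
  have h3 : ∀ i, ((-a (i + 1)) / 2) • ((U ^ (((i + 1 : ℕ)) : ℤ)) x + (U ^ (-(((i + 1 : ℕ)) : ℤ))) x)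
      = -((a (i + 1) / 2) • ((U ^ (((i + 1 : ℕ)) : ℤ)) x + (U ^ (-(((i + 1 : ℕ)) : ℤ))) x)) := by
    intro i
    rw [neg_div, neg_smul]
  simp only [h3, Finset.sum_neg_distrib, sub_smul, one_smul]
  abel

theorem H2_cs_cont (k : ℤ) : Continuous (cs k) := by
  unfold cs; fun_prop

theorem H2_tp_cont (m : ℕ) (a : ℕ → ℝ) : Continuous (tp m a) := by
  unfold tp
  exact continuous_finsetSum _ fun j _ => continuous_const.mul (H2_cs_cont _)

theorem H2_RP_cont (l : List ℕ) : Continuous (RP l) := by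
  induction l with
  | nil =>
    have : RP [] = fun _ => (1:ℝ) := by funext x; simp [RP]
    rw [this]; exact continuous_const
  | cons n l ih =>
    have : RP (n :: l) = fun x => (1 + cs (n : ℤ) x) * RP l x := by
      funext x; simp [RP]
    rw [this]
    exact (continuous_const.add (H2_cs_cont _)).mul ih

/-- the integral in `wit` as a sum over the classes -/
theorem H2_int_sum {Θ : Type} [Fintype Θ] [DecidableEq Θ] (fr : Θ → List ℕ) (S : Finset Θ)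
    (p q : ℝ → ℝ) (hp : Continuous p) (hq : Continuous q) :
    ∫ x in (0:ℝ)..1, (p x ^ 2 * DD fr S x + q x ^ 2 * DD fr Sᶜ x)
      = (∑ h ∈ S, (1 / (Fintype.card Θ : ℝ)) * ∫ x in (0:ℝ)..1, p x ^ 2 * RP (fr h) x)
        + ∑ h ∈ Sᶜ, (1 / (Fintype.card Θ : ℝ)) * ∫ x in (0:ℝ)..1, q x ^ 2 * RP (fr h) x := by
  have e : ∀ (r : ℝ → ℝ), Continuous r → ∀ S : Finset Θ,
      ∫ x in (0:ℝ)..1, r x ^ 2 * DD fr S x
        = ∑ h ∈ S, (1 / (Fintype.card Θ : ℝ)) * ∫ x in (0:ℝ)..1, r x ^ 2 * RP (fr h) x := by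
    intro r hr S
    simp_rw [← intervalIntegral.integral_const_mul]
    rw [← intervalIntegral.integral_finsetSum]
    · apply intervalIntegral.integral_congr
      intro x _
      simp only [DD, Finset.sum_div, Finset.mul_sum]
      apply Finset.sum_congr rfl
      intro h _
      ring
    · intro h _
      exact (continuous_const.mul ((hr.pow 2).mul (H2_RP_cont _))).intervalIntegrable _ _
  rw [intervalIntegral.integral_add, e p hp, e q hq]
  · apply Continuous.intervalIntegrable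
    unfold DD
    exact (hp.pow 2).mul ((continuous_finsetSum _ fun h _ => H2_RP_cont _).div_const _)
  · apply Continuous.intervalIntegrable
    unfold DD
    exact (hq.pow 2).mul ((continuous_finsetSum _ fun h _ => H2_RP_cont _).div_const _)

theorem H2_tpU_mem (U : H ≃ₗᵢ[ℝ] H) (f : H) (m : ℕ) (a : ℕ → ℝ) :
    tpU U m a f ∈ (Submodule.span ℝ (Set.range fun j : ℤ => (U ^ j) f) : Submodule ℝ H) := by
  unfold tpU
  refine Submodule.sum_mem _ fun j _ => Submodule.smul_mem _ _ (Submodule.add_mem _ ?_ ?_)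
  · exact Submodule.subset_span ⟨_, rfl⟩
  · exact Submodule.subset_span ⟨_, rfl⟩

theorem H2_tpU_sum {ι : Type*} (U : H ≃ₗᵢ[ℝ] H) (m : ℕ) (a : ℕ → ℝ) (s : Finset ι) (x : ι → H) :
    tpU U m a (∑ i ∈ s, x i) = ∑ i ∈ s, tpU U m a (x i) := by
  classical
  unfold tpU
  rw [Finset.sum_comm]
  apply Finset.sum_congr rfl
  intro j _
  rw [map_sum, map_sum, ← Finset.sum_add_distrib, Finset.smul_sum]

theorem H2_step (𝒟 : Data) (U : H ≃ₗᵢ[ℝ] H) (f : H) (v : (k : ℕ) → Th 𝒟.K k → H)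
    (hD : HilbertData 𝒟 U f v) (k : ℕ) (c : Th 𝒟.K k) :
    ∃ y ∈ (Submodule.span ℝ (Set.range fun j : ℤ => (U ^ j) f) : Submodule ℝ H),
      ‖Pop U (𝒟.fr k c) (v k c) - y‖ ≤ (1 / 2 : ℝ) ^ k / (Fintype.card (Th 𝒟.K k) : ℝ) := by
  obtain ⟨a, ha⟩ := 𝒟.wit k c
  set m := 𝒟.mm (k + 1) with hm
  have hm0 : 0 < m := lt_of_le_of_lt (Nat.zero_le _) (𝒟.mm_ge (k + 1))
  set S : Finset (Th 𝒟.K (k + 1)) := lift (𝒟.K k) {c} with hS
  set F : Th 𝒟.K (k + 1) → H := fun c' => Pop U (𝒟.fr (k + 1) c') (v (k + 1) c') with hF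
  have hfc : Pop U (𝒟.fr k c) (v k c) = ∑ c' ∈ S, F c' := by
    rw [hD.refine k c]
    have : (∑ c' ∈ S, F c') = ∑ p ∈ ({c} : Finset (Th 𝒟.K k)) ×ˢ
        (Finset.univ : Finset (Fin (𝒟.K k + 1))), F p := rfl
    rw [this, Finset.sum_product, Finset.sum_singleton]
  have hf : f = ∑ c' ∈ S, F c' + ∑ c' ∈ Sᶜ, F c' := by
    rw [Finset.sum_add_sum_compl]
    exact hD.sum (k + 1)
  refine ⟨f - tpU U m a f, Submodule.sub_mem _ (Submodule.subset_span ⟨0, by simp⟩)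
    (H2_tpU_mem U f m a), ?_⟩
  -- the difference
  set G : Th 𝒟.K (k + 1) → H := fun c' => if c' ∈ S then tpU U m a (F c')
    else - tpU U m (H2_co a) (F c') with hG
  have hdiff : Pop U (𝒟.fr k c) (v k c) - (f - tpU U m a f) = ∑ c', G c' := by
    rw [← H2_tpU_co U m hm0 a f, hfc]
    rw [← Finset.sum_add_sum_compl S G]
    have e1 : ∑ c' ∈ S, G c' = ∑ c' ∈ S, tpU U m a (F c') :=
      Finset.sum_congr rfl fun c' hc' => by simp [hG, hc']
    have e2 : ∑ c' ∈ Sᶜ, G c' = - ∑ c' ∈ Sᶜ, tpU U m (H2_co a) (F c') := by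
      rw [← Finset.sum_neg_distrib]
      exact Finset.sum_congr rfl fun c' hc' => by
        simp only [hG]; rw [if_neg (Finset.mem_compl.mp hc')]
    rw [e1, e2]
    conv_lhs => rw [hf]
    have e3 : tpU U m (H2_co a) (∑ c' ∈ S, F c' + ∑ c' ∈ Sᶜ, F c')
        = ∑ c' ∈ S, tpU U m (H2_co a) (F c') + ∑ c' ∈ Sᶜ, tpU U m (H2_co a) (F c') := by
      rw [Finset.sum_add_sum_compl, H2_tpU_sum, Finset.sum_add_sum_compl]
    rw [e3]
    have e4 : ∑ c' ∈ S, tpU U m (H2_co a) (F c')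
        = ∑ c' ∈ S, F c' - ∑ c' ∈ S, tpU U m a (F c') := by
      rw [← Finset.sum_sub_distrib]
      exact Finset.sum_congr rfl fun c' _ => H2_tpU_co U m hm0 a _
    rw [e4]
    abel
  have hor : ∀ c₁ c₂ : Th 𝒟.K (k + 1), c₁ ≠ c₂ → H2_Or U (F c₁) (F c₂) := by
    intro c₁ c₂ hne
    have h0 : H2_Or U (v (k + 1) c₁) (v (k + 1) c₂) := fun j => hD.orth (k + 1) c₁ c₂ hne j
    exact ((h0.pop _).symm.pop _).symm
  have horG : ∀ c₁ ∈ (Finset.univ : Finset (Th 𝒟.K (k + 1))),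
      ∀ c₂ ∈ (Finset.univ : Finset (Th 𝒟.K (k + 1))), c₁ ≠ c₂ → inner ℝ (G c₁) (G c₂) = 0 := by
    intro c₁ _ c₂ _ hne
    have key : ∀ (a₁ a₂ : ℕ → ℝ), inner ℝ (tpU U m a₁ (F c₁)) (tpU U m a₂ (F c₂)) = 0 := by
      intro a₁ a₂
      exact ((((hor c₁ c₂ hne).tpU m a₁).symm.tpU m a₂).symm).inner_eq
    simp only [hG]
    split_ifs <;> simp [inner_neg_left, inner_neg_right, key]
  have hnorm : ∀ (b : ℕ → ℝ) (c' : Th 𝒟.K (k + 1)), ‖tpU U m b (F c')‖ ^ 2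
      = (1 / (Fintype.card (Th 𝒟.K (k + 1)) : ℝ))
        * ∫ x in (0:ℝ)..1, (tp m b x) ^ 2 * RP (𝒟.fr (k + 1) c') x := by
    intro b c'
    rw [hF]
    simp only
    rw [Pool.Agent.H691R3.SL.norm_formula U (v (k + 1) c') (𝒟.fr (k + 1) c') m b]
    · rw [hD.norm (k + 1) c']
      congr 1
      rw [div_mul_eq_mul_div, ← mul_pow]
      norm_num
    · intro j hj0 hj
      exact hD.gap (k + 1) c' j hj0 hj
  have hsq : ‖Pop U (𝒟.fr k c) (v k c) - (f - tpU U m a f)‖ ^ 2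
      ≤ ((1 / 2 : ℝ) ^ k / (Fintype.card (Th 𝒟.K k) : ℝ)) ^ 2 := by
    rw [hdiff, H2_norm_sum _ _ horG]
    refine le_trans (le_of_eq ?_) ha
    have e5 : ∀ x, (1 - tp m a x) ^ 2 = (tp m (H2_co a) x) ^ 2 := by
      intro x; rw [H2_tp_co m hm0]
    simp_rw [e5]
    rw [H2_int_sum (𝒟.fr (k + 1)) S (tp m a) (tp m (H2_co a)) (H2_tp_cont _ _) (H2_tp_cont _ _)]
    rw [← Finset.sum_add_sum_compl S]
    congr 1
    · refine Finset.sum_congr rfl fun c' hc' => ?_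
      rw [← hnorm a c']
      simp [hG, hc']
    · refine Finset.sum_congr rfl fun c' hc' => ?_
      rw [← hnorm (H2_co a) c']
      simp only [hG]; rw [if_neg (Finset.mem_compl.mp hc'), norm_neg]
  exact le_of_sq_le_sq hsq (by positivity)

theorem H2_iter (𝒟 : Data) (U : H ≃ₗᵢ[ℝ] H) (f : H) (v : (k : ℕ) → Th 𝒟.K k → H)
    (hD : HilbertData 𝒟 U f v) (n : ℕ) : ∀ (k : ℕ) (c : Th 𝒟.K k),
    ∃ y ∈ (Submodule.span ℝ (Set.range fun j : ℤ => (U ^ j) f) : Submodule ℝ H),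
      ‖Pop U (𝒟.fr k c) (v k c) - y‖
        ≤ (1 / 2 : ℝ) ^ (k + n) / (Fintype.card (Th 𝒟.K k) : ℝ) := by
  induction n with
  | zero => intro k c; simpa using H2_step 𝒟 U f v hD k c
  | succ n ih =>
    intro k c
    choose y hy hyn using fun a : Fin (𝒟.K k + 1) => ih (k + 1) (c, a)
    refine ⟨∑ a, y a, Submodule.sum_mem _ fun a _ => hy a, ?_⟩
    rw [hD.refine k c, ← Finset.sum_sub_distrib]
    refine le_trans (norm_sum_le _ _) ?_
    refine le_trans (Finset.sum_le_sum fun a _ => hyn a) ?_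
    rw [Finset.sum_const, Finset.card_univ, Fintype.card_fin, nsmul_eq_mul]
    have hcard : (Fintype.card (Th 𝒟.K (k + 1)) : ℝ)
        = (Fintype.card (Th 𝒟.K k) : ℝ) * ((𝒟.K k + 1 : ℕ) : ℝ) := by
      have : Fintype.card (Th 𝒟.K (k + 1)) = Fintype.card (Th 𝒟.K k × Fin (𝒟.K k + 1)) := rfl
      rw [this, Fintype.card_prod, Fintype.card_fin]
      push_cast; ring
    rw [hcard]
    have h1 : (0:ℝ) < (Fintype.card (Th 𝒟.K k) : ℝ) := by
      exact_mod_cast Fintype.card_pos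
    have h2 : (0:ℝ) < ((𝒟.K k + 1 : ℕ) : ℝ) := by positivity
    have e : k + 1 + n = k + (n + 1) := by ring
    rw [e]
    apply le_of_eq
    field_simp

theorem class_mem (𝒟 : Data) (U : H ≃ₗᵢ[ℝ] H) (f : H) (v : (k : ℕ) → Th 𝒟.K k → H)
    (hD : HilbertData 𝒟 U f v) (k : ℕ) (c : Th 𝒟.K k) :
    Pop U (𝒟.fr k c) (v k c)
      ∈ closure ((Submodule.span ℝ (Set.range fun j : ℤ => (U ^ j) f) : Submodule ℝ H) : Set H) := by
  rw [Metric.mem_closure_iff]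
  intro ε hε
  obtain ⟨n, hn⟩ := exists_pow_lt_of_lt_one hε (by norm_num : (1 / 2 : ℝ) < 1)
  obtain ⟨y, hy, hyn⟩ := H2_iter 𝒟 U f v hD n k c
  refine ⟨y, hy, ?_⟩
  rw [dist_eq_norm]
  refine lt_of_le_of_lt hyn (lt_of_le_of_lt ?_ hn)
  have h1 : (1:ℝ) ≤ (Fintype.card (Th 𝒟.K k) : ℝ) := by
    exact_mod_cast Fintype.card_pos
  refine le_trans (div_le_self (by positivity) h1) ?_
  exact pow_le_pow_of_le_one (by norm_num) (by norm_num) (by omega)

end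

end Pool.Agent.H691R3.SL
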