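import Pool.Agent.H691R3.SL.Defs
import Pool.Agent.H691R3.SLF.F_H1
/-!
# H5A: the spectral measure of `f` is `ρ dx`, and the Riemann-Lebesgue lemma
-/

namespace Pool.Agent.H691R3.SL

open MeasureTheory Set Filter Topology
open scoped Real BigOperators

noncomputable section

variable {H : Type} [NormedAddCommGroup H] [InnerProductSpace ℝ H]

theorem rl_cos (ρ : ℝ → ℝ) (hρ : IntervalIntegrable ρ volume 0 1) :
    Tendsto (fun j : ℕ => ∫ x in (0:ℝ)..1, ρ x * cs (j : ℤ) x) atTop (𝓝 0) := by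
  have h1 := Real.tendsto_integral_exp_smul_cocompact
    (fun x : ℝ => (Ioc (0:ℝ) 1).indicator (fun x => (ρ x : ℂ)) x)
  have h2 : Tendsto (fun j : ℕ => (j : ℝ)) atTop (cocompact ℝ) :=
    tendsto_natCast_atTop_atTop.mono_right atTop_le_cocompact
  have h3 := (Complex.continuous_re.tendsto _).comp (h1.comp h2)
  rw [Complex.zero_re] at h3
  refine h3.congr fun j => ?_
  have hI : IntegrableOn (fun x => (ρ x : ℂ)) (Ioc (0:ℝ) 1) :=
    ((intervalIntegrable_iff_integrableOn_Ioc_of_le zero_le_one).1 hρ).ofReal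
  have hint : Integrable ((Ioc (0:ℝ) 1).indicator (fun x => (ρ x : ℂ))) :=
    hI.integrable_indicator measurableSet_Ioc
  have hint2 : Integrable (fun v : ℝ => Real.fourierChar (-(v * (j : ℝ))) •
      (Ioc (0:ℝ) 1).indicator (fun x => (ρ x : ℂ)) v) := by
    refine hint.mono ?_ (Filter.Eventually.of_forall fun v => ?_)
    · refine AEStronglyMeasurable.smul ?_ hint.aestronglyMeasurable
      have : Continuous (fun v : ℝ => ((Real.fourierChar (-(v * (j : ℝ))) : Circle) : ℂ)) := by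
        fun_prop
      exact this.aestronglyMeasurable
    · rw [Circle.norm_smul]
  simp only [Function.comp_apply]
  rw [← Complex.reCLM_apply, ← Complex.reCLM.integral_comp_comm hint2,
    intervalIntegral.integral_of_le zero_le_one, ← integral_indicator measurableSet_Ioc]
  refine integral_congr_ae (Filter.Eventually.of_forall fun x => ?_)
  simp only [Complex.reCLM_apply]
  by_cases hx : x ∈ Ioc (0:ℝ) 1
  · rw [indicator_of_mem hx, indicator_of_mem hx, Circle.smul_def, Real.fourierChar_apply,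
      smul_eq_mul, Complex.re_mul_ofReal, Complex.exp_ofReal_mul_I_re]
    unfold cs
    rw [mul_comm]
    congr 1
    rw [← Real.cos_neg]
    congr 1
    push_cast
    ring
  · rw [indicator_of_notMem hx, indicator_of_notMem hx, smul_zero, Complex.zero_re]

lemma H5A_pow_add (U : H ≃ₗᵢ[ℝ] H) (i j : ℤ) (x : H) : (U ^ i) ((U ^ j) x) = (U ^ (i + j)) x := by
  rw [zpow_add]; rfl

lemma H5A_inner_shift (U : H ≃ₗᵢ[ℝ] H) (i j : ℤ) (x y : H) :
    inner ℝ ((U ^ i) x) ((U ^ j) y) = inner ℝ ((U ^ (i - j)) x) y := by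
  have h : (U ^ i) x = (U ^ j) ((U ^ (i - j)) x) := by
    rw [H5A_pow_add]; congr 2; ring
  rw [h, LinearIsometryEquiv.inner_map_map]

lemma H5A_orth_right (U : H ≃ₗᵢ[ℝ] H) (v w : H) (h : ∀ j : ℤ, inner ℝ ((U ^ j) v) w = 0)
    (l : List ℕ) : ∀ j : ℤ, inner ℝ ((U ^ j) v) (Pop U l w) = 0 := by
  induction l with
  | nil => exact h
  | cons n l ih =>
    intro j
    change inner ℝ ((U ^ j) v) (Pop U l w + (U ^ (n : ℤ)) (Pop U l w)) = 0
    rw [inner_add_right, ih j, H5A_inner_shift, ih, add_zero]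

lemma H5A_orth (U : H ≃ₗᵢ[ℝ] H) (v w : H) (h : ∀ j : ℤ, inner ℝ ((U ^ j) v) w = 0)
    (l l' : List ℕ) : ∀ j : ℤ, inner ℝ ((U ^ j) (Pop U l v)) (Pop U l' w) = 0 := by
  induction l with
  | nil => exact H5A_orth_right U v w h l'
  | cons n l ih =>
    intro j
    change inner ℝ ((U ^ j) (Pop U l v + (U ^ (n : ℤ)) (Pop U l v))) (Pop U l' w) = 0
    rw [map_add, inner_add_left, ih j, H5A_pow_add, ih, add_zero]

lemma H5A_cs_cont (j : ℤ) : Continuous (cs j) := by
  unfold cs; fun_prop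

lemma H5A_cs_le (j : ℤ) (x : ℝ) : |cs j x| ≤ 1 := Real.abs_cos_le_one _

lemma H5A_RP_cont (l : List ℕ) : Continuous (RP l) := by
  induction l with
  | nil =>
    have h : RP [] = fun _ => (1 : ℝ) := by
      funext x; simp [RP]
    rw [h]; exact continuous_const
  | cons n l ih =>
    have h : RP (n :: l) = fun x => (1 + cs (n : ℤ) x) * RP l x := by
      funext x; simp [RP]
    rw [h]
    exact (continuous_const.add (H5A_cs_cont _)).mul ih

lemma H5A_DD_cont {Θ : Type} [Fintype Θ] (fr : Θ → List ℕ) (S : Finset Θ) :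
    Continuous (DD fr S) := by
  unfold DD
  exact (continuous_finsetSum _ fun c _ => H5A_RP_cont _).div_const _

theorem H5A_level (𝒟 : Data) (U : H ≃ₗᵢ[ℝ] H) (f : H) (v : (k : ℕ) → Th 𝒟.K k → H)
    (hD : HilbertData 𝒟 U f v) (j : ℤ) (k : ℕ) (hk : |j| ≤ 2 * (𝒟.mm k : ℤ)) :
    inner ℝ ((U ^ j) f) f = ∫ x in (0:ℝ)..1, cs j x * DD (𝒟.fr k) Finset.univ x := by
  have h1 : inner ℝ ((U ^ j) f) f = ∑ c : Th 𝒟.K k,
      inner ℝ ((U ^ j) (Pop U (𝒟.fr k c) (v k c))) (Pop U (𝒟.fr k c) (v k c)) := by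
    conv_lhs => rw [hD.sum k]
    rw [map_sum, sum_inner]
    refine Finset.sum_congr rfl fun c _ => ?_
    rw [inner_sum]
    refine Finset.sum_eq_single c (fun c' _ hc => ?_) (fun h => absurd (Finset.mem_univ c) h)
    exact H5A_orth U _ _ (hD.orth k c c' (Ne.symm hc)) _ _ j
  have h2 : ∀ c : Th 𝒟.K k,
      inner ℝ ((U ^ j) (Pop U (𝒟.fr k c) (v k c))) (Pop U (𝒟.fr k c) (v k c))
      = (1 / (Fintype.card (Th 𝒟.K k) : ℝ)) * ∫ x in (0:ℝ)..1, cs j x * RP (𝒟.fr k c) x := by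
    intro c
    rw [Pool.Agent.H691R3.SL.corr_formula U (v k c) (𝒟.fr k c) (𝒟.mm k) (fun i hi0 hi => hD.gap k c i hi0 hi) j hk,
      hD.norm k c]
    have : (1 / 2 : ℝ) ^ (𝒟.fr k c).length / (Fintype.card (Th 𝒟.K k) : ℝ)
        * 2 ^ (𝒟.fr k c).length = 1 / (Fintype.card (Th 𝒟.K k) : ℝ) := by
      rw [div_mul_eq_mul_div, ← mul_pow]; norm_num
    rw [this]
  have h3 : ∑ c : Th 𝒟.K k, ∫ x in (0:ℝ)..1, cs j x * RP (𝒟.fr k c) x
      = ∫ x in (0:ℝ)..1, ∑ c : Th 𝒟.K k, cs j x * RP (𝒟.fr k c) x := by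
    rw [intervalIntegral.integral_finset_sum]
    intro c _
    exact ((H5A_cs_cont j).mul (H5A_RP_cont _)).intervalIntegrable 0 1
  rw [h1, Finset.sum_congr rfl fun c _ => h2 c, ← Finset.mul_sum, h3,
    ← intervalIntegral.integral_const_mul]
  refine intervalIntegral.integral_congr fun x _ => ?_
  simp only [DD]
  rw [← Finset.mul_sum]
  ring

theorem f_corr (𝒟 : Data) (U : H ≃ₗᵢ[ℝ] H) (f : H) (v : (k : ℕ) → Th 𝒟.K k → H)
    (hD : HilbertData 𝒟 U f v) (j : ℤ) :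
    inner ℝ ((U ^ j) f) f = ∫ x in (0:ℝ)..1, 𝒟.rho x * cs j x := by
  have hcs : IntervalIntegrable (fun x => 𝒟.rho x * cs j x) volume 0 1 :=
    𝒟.rho_int.mul_continuousOn (H5A_cs_cont j).continuousOn
  have h1 : ∀ᶠ k in atTop, |inner ℝ ((U ^ j) f) f - ∫ x in (0:ℝ)..1, 𝒟.rho x * cs j x|
      ≤ ∫ x in (0:ℝ)..1, |DD (𝒟.fr k) Finset.univ x - 𝒟.rho x| := by
    filter_upwards [eventually_ge_atTop j.natAbs] with k hk
    have hk' : |j| ≤ 2 * (𝒟.mm k : ℤ) := by
      have := 𝒟.mm_ge k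
      rw [Int.abs_eq_natAbs]
      omega
    rw [H5A_level 𝒟 U f v hD j k hk']
    have hDD : IntervalIntegrable (fun x => cs j x * DD (𝒟.fr k) Finset.univ x) volume 0 1 :=
      ((H5A_cs_cont j).mul (H5A_DD_cont _ _)).intervalIntegrable 0 1
    rw [← intervalIntegral.integral_sub hDD hcs]
    refine (intervalIntegral.abs_integral_le_integral_abs zero_le_one).trans ?_
    refine intervalIntegral.integral_mono_on zero_le_one (hDD.sub hcs).abs ?_ fun x _ => ?_
    · exact (((H5A_DD_cont (𝒟.fr k) Finset.univ).intervalIntegrable 0 1).sub 𝒟.rho_int).abs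
    · have : cs j x * DD (𝒟.fr k) Finset.univ x - 𝒟.rho x * cs j x
          = (DD (𝒟.fr k) Finset.univ x - 𝒟.rho x) * cs j x := by ring
      rw [this, abs_mul]
      exact mul_le_of_le_one_right (abs_nonneg _) (H5A_cs_le j x)
  have h2 := ge_of_tendsto 𝒟.rho_lim h1
  have h3 := abs_nonneg (inner ℝ ((U ^ j) f) f - ∫ x in (0:ℝ)..1, 𝒟.rho x * cs j x)
  have h4 := le_antisymm h2 h3
  rwa [abs_eq_zero, sub_eq_zero] at h4

end

end Pool.Agent.H691R3.SL
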