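import Pool.Agent.H691R3.SL.Defs
import Pool.Agent.H691R3.SLF.F_H2
import Pool.Agent.H691R3.SLF.F_H3
import Pool.Agent.H691R3.SLF.F_H4
import Pool.Agent.H691R3.SLF.F_H5
import Pool.Agent.H691R3.SLF.F_H5A
/-!
# H6: assembly of the Hilbert space part (helper212)
-/

namespace Pool.Agent.H691R3.SL

open MeasureTheory Set Filter Topology
open scoped Real BigOperators

noncomputable section

variable {H : Type} [NormedAddCommGroup H] [InnerProductSpace ℝ H]

/-- every entry of an admissible list is positive -/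
theorem H6_gr_pos (B : ℕ) : ∀ (l : List ℕ) (s : ℕ), Gr B s l → ∀ n ∈ l, 0 < n := by
  intro l
  induction l with
  | nil => intro s _ n hn; simp at hn
  | cons a w ih =>
      intro s h n hn
      rw [Gr] at h
      rcases List.mem_cons.mp hn with rfl | h1
      · omega
      · exact ih _ h.2 n h1

/-- all frequencies of the data are positive -/
theorem H6_fr_pos (𝒟 : Data) : ∀ (k : ℕ) (c : Th 𝒟.K k), ∀ n ∈ 𝒟.fr k c, 0 < n := by
  intro k
  induction k with
  | zero =>
      intro c n hn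
      rw [𝒟.fr_zero c] at hn
      simp at hn
  | succ k ih =>
      intro c n hn
      obtain ⟨c, a⟩ := c
      rw [𝒟.fr_succ k c a] at hn
      rcases List.mem_append.mp hn with h | h
      · exact ih c n h
      · exact H6_gr_pos _ _ _ (𝒟.gr k c a) n h

/-- powers of `U` as isometries -/
theorem H6_pow_inner (U : H ≃ₗᵢ[ℝ] H) (i j : ℤ) (x y : H) :
    inner ℝ ((U ^ (i + j)) x) y = inner ℝ ((U ^ j) x) ((U ^ (-i)) y) := by
  have h1 : inner ℝ ((U ^ j) x) ((U ^ (-i)) y)
      = inner ℝ ((U ^ i) ((U ^ j) x)) ((U ^ i) ((U ^ (-i)) y)) :=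
    ((U ^ i).inner_map_map _ _).symm
  rw [h1]
  have h2 : (U ^ i) ((U ^ j) x) = (U ^ (i + j)) x := by
    rw [zpow_add]; rfl
  have h3 : (U ^ i) ((U ^ (-i)) y) = y := by
    have : (U ^ i) ((U ^ (-i)) y) = (U ^ (i + -i)) y := by
      rw [zpow_add]; rfl
    rw [this, add_neg_cancel, zpow_zero]; rfl
  rw [h2, h3]

theorem hilbert_main [CompleteSpace H] (𝒟 : Data) (U : H ≃ₗᵢ[ℝ] H) (f : H)
    (v : (k : ℕ) → Th 𝒟.K k → H) (hD : HilbertData 𝒟 U f v) :
    ∃ g : H, (∀ m n : ℤ, inner ℝ ((U ^ m) g) ((U ^ n) g) = if m = n then (1:ℝ) else 0) ∧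
      ∀ u : H, (∀ n : ℤ, inner ℝ ((U ^ n) g) u = 0) → u = 0 := by
  refine Pool.Agent.H691R3.SL.cyclic_onb U f 𝒟.rho 𝒟.rho_int 𝒟.rho_pos (Pool.Agent.H691R3.SL.f_corr 𝒟 U f v hD) ?_
  intro u hu
  refine hD.total u ?_
  intro k c
  refine Pool.Agent.H691R3.SL.peel U (v k c) u (𝒟.fr k c) (H6_fr_pos 𝒟 k c) ?_ ?_
  · refine Pool.Agent.H691R3.SL.weak_decay U (v k c) ?_ u
    have hlim : Tendsto (fun j : ℕ => |inner ℝ ((U ^ (j : ℤ)) f) f|) atTop (𝓝 0) := by
      have h1 := Pool.Agent.H691R3.SL.rl_cos 𝒟.rho 𝒟.rho_int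
      have h2 := h1.abs
      rw [abs_zero] at h2
      refine h2.congr (fun j => ?_)
      rw [Pool.Agent.H691R3.SL.f_corr 𝒟 U f v hD (j : ℤ)]
    refine squeeze_zero_norm (fun j => ?_) hlim
    rw [Real.norm_eq_abs]
    exact hD.dom k c (j : ℤ)
  · intro i
    -- `⟨U^i f_c, u⟩ = ⟨f_c, U^{-i} u⟩`
    have hz : inner ℝ ((U ^ i) (Pop U (𝒟.fr k c) (v k c))) u
        = inner ℝ (Pop U (𝒟.fr k c) (v k c)) ((U ^ (-i)) u) := by
      have := H6_pow_inner U i 0 (Pop U (𝒟.fr k c) (v k c)) u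
      rw [add_zero, zpow_zero] at this
      exact this
    rw [hz]
    -- the orthogonality persists on the closure of the span
    have hspan : ∀ x ∈ Submodule.span ℝ (Set.range fun j : ℤ => (U ^ j) f),
        inner ℝ x ((U ^ (-i)) u) = 0 := by
      intro x hx
      induction hx using Submodule.span_induction with
      | mem x hx =>
          obtain ⟨j, rfl⟩ := hx
          show inner ℝ ((U ^ j) f) ((U ^ (-i)) u) = 0
          rw [← H6_pow_inner U i j f u]
          exact hu (i + j)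
      | zero => simp
      | add x y _ _ hx hy => rw [inner_add_left, hx, hy, add_zero]
      | smul a x _ hx => rw [inner_smul_left, hx, mul_zero]
    have hcl : IsClosed {x : H | inner ℝ x ((U ^ (-i)) u) = 0} :=
      isClosed_eq (continuous_id.inner continuous_const) continuous_const
    exact closure_minimal hspan hcl (Pool.Agent.H691R3.SL.class_mem 𝒟 U f v hD k c)

end

end Pool.Agent.H691R3.SL
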