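import Pool.Agent.H691R3.SL.Defs
import Pool.Agent.H691R3.SLF.F_K1
/-! Task K1B (helper19): the Koopman operator and indicators. -/

namespace Pool.Agent.H691R3.SL

open MeasureTheory Set Filter Topology Pool.Agent.H691R3.SL
open scoped Real BigOperators

noncomputable section

theorem K1B_image {X : Type} [MeasurableSpace X] (T : X ≃ᵐ X) (A : Set X) (j : ℤ) :
    ((T.toEquiv : Equiv.Perm X) ^ j) '' A =
      (fun x => ((T.toEquiv : Equiv.Perm X) ^ (-j)) x) ⁻¹' A := by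
  rw [Equiv.image_eq_preimage_symm, zpow_neg]
  rfl

/-- K1b: Koopman operator and indicators -/
theorem koop_ind {X : Type} [MeasurableSpace X] (μ : Measure X) (T : X ≃ᵐ X)
    (hT : MeasurePreserving T μ μ) (U : Lp ℝ 2 μ ≃ₗᵢ[ℝ] Lp ℝ 2 μ)
    (hU : ∀ (j : ℤ) (g : Lp ℝ 2 μ),
      ((U ^ j) g : Lp ℝ 2 μ) =ᵐ[μ] fun x => g (((T.toEquiv : Equiv.Perm X) ^ (-j)) x))
    (A : Set X) (hA : MeasurableSet A) (hA' : μ A ≠ ⊤) (j : ℤ) :
    MeasurableSet (((T.toEquiv : Equiv.Perm X) ^ j) '' A) ∧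
    μ (((T.toEquiv : Equiv.Perm X) ^ j) '' A) = μ A ∧
    (∀ (h1 : MeasurableSet (((T.toEquiv : Equiv.Perm X) ^ j) '' A))
      (h2 : μ (((T.toEquiv : Equiv.Perm X) ^ j) '' A) ≠ ⊤),
      (U ^ j) (indicatorConstLp 2 hA hA' (1:ℝ)) = indicatorConstLp 2 h1 h2 (1:ℝ)) ∧
    (∀ u : Lp ℝ 2 μ, inner ℝ ((U ^ j) (indicatorConstLp 2 hA hA' (1:ℝ))) u
      = ∫ x in ((T.toEquiv : Equiv.Perm X) ^ j) '' A, u x ∂μ) ∧
    (∀ (B : Set X) (hB : MeasurableSet B) (hB' : μ B ≠ ⊤),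
      inner ℝ ((U ^ j) (indicatorConstLp 2 hA hA' (1:ℝ))) (indicatorConstLp 2 hB hB' (1:ℝ))
        = (μ ((((T.toEquiv : Equiv.Perm X) ^ j) '' A) ∩ B)).toReal) := by
  have hmp := K1_mp μ T hT (-j)
  have c1 : MeasurableSet (((T.toEquiv : Equiv.Perm X) ^ j) '' A) := by
    rw [K1B_image]
    exact hmp.measurable hA
  have c2 : μ (((T.toEquiv : Equiv.Perm X) ^ j) '' A) = μ A := by
    rw [K1B_image]
    exact hmp.measure_preimage hA.nullMeasurableSet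
  have c3 : ∀ (h1 : MeasurableSet (((T.toEquiv : Equiv.Perm X) ^ j) '' A))
      (h2 : μ (((T.toEquiv : Equiv.Perm X) ^ j) '' A) ≠ ⊤),
      (U ^ j) (indicatorConstLp 2 hA hA' (1:ℝ)) = indicatorConstLp 2 h1 h2 (1:ℝ) := by
    intro h1 h2
    apply Lp.ext
    refine (hU j _).trans ?_
    have e1 := hmp.quasiMeasurePreserving.ae_eq_comp
      (indicatorConstLp_coeFn (p := 2) (hs := hA) (hμs := hA') (c := (1:ℝ)))
    refine e1.trans ?_
    refine EventuallyEq.trans ?_ (indicatorConstLp_coeFn (p := 2) (hs := h1) (hμs := h2)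
      (c := (1:ℝ))).symm
    apply Eventually.of_forall
    intro x
    rw [K1B_image]
    rfl
  have c2' : μ (((T.toEquiv : Equiv.Perm X) ^ j) '' A) ≠ ⊤ := by rw [c2]; exact hA'
  refine ⟨c1, c2, c3, ?_, ?_⟩
  · intro u
    rw [c3 c1 c2']
    exact L2.inner_indicatorConstLp_one c1 c2' u
  · intro B hB hB'
    rw [c3 c1 c2', L2.real_inner_indicatorConstLp_one_indicatorConstLp_one]
    rfl

end

end Pool.Agent.H691R3.SL
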