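import Pool.Agent.H691R3.SL.Defs
import Pool.Agent.H691R3.SLF.F_M2
/-!
# M3: tails of normalised elementary symmetric functions (proof: helper439)
-/

namespace Pool.Agent.H691R3.SL

open MeasureTheory Set Filter Topology
open scoped Real BigOperators

noncomputable section

theorem M3_aux_e1 {ι : Type} [DecidableEq ι] (s : Finset ι) (ψ : ι → ℝ) :
    ∑ S ∈ s.powersetCard 1, ∏ i ∈ S, ψ i = ∑ i ∈ s, ψ i := by
  rw [Finset.powersetCard_one, Finset.sum_map]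
  simp

theorem M3_aux_e2 {ι : Type} [DecidableEq ι] (s : Finset ι) (ψ : ι → ℝ) :
    2 * ∑ S ∈ s.powersetCard 2, ∏ i ∈ S, ψ i = (∑ i ∈ s, ψ i) ^ 2 - ∑ i ∈ s, ψ i ^ 2 := by
  induction s using Finset.induction_on with
  | empty =>
    have h0 : (∅ : Finset ι).powersetCard 2 = ∅ := Finset.powersetCard_eq_empty.2 (by simp)
    rw [h0]
    simp
  | insert x s hx ih =>
    rw [Finset.powersetCard_succ_insert hx, Finset.sum_union, Finset.sum_image,
      Finset.sum_insert hx, Finset.sum_insert hx]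
    · have h1 : ∑ S ∈ s.powersetCard 1, ∏ i ∈ insert x S, ψ i = ψ x * ∑ i ∈ s, ψ i := by
        rw [← M3_aux_e1 s ψ, Finset.mul_sum]
        refine Finset.sum_congr rfl fun S hS => ?_
        rw [Finset.prod_insert]
        exact fun h => hx ((Finset.mem_powersetCard.1 hS).1 h)
      rw [h1, mul_add, ih]
      ring
    · intro S hS S' hS' h
      have e1 : x ∉ S := fun h => hx ((Finset.mem_powersetCard.1 hS).1 h)
      have e2 : x ∉ S' := fun h => hx ((Finset.mem_powersetCard.1 hS').1 h)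
      rw [← Finset.erase_insert e1, ← Finset.erase_insert e2]
      exact congrArg (fun A => A.erase x) h
    · rw [Finset.disjoint_left]
      intro S hS hS'
      obtain ⟨S', _, rfl⟩ := Finset.mem_image.1 hS'
      exact hx ((Finset.mem_powersetCard.1 hS).1 (Finset.mem_insert_self _ _))

/-- M3b: orders one and two -/
theorem esn_one_two {d : ℕ} (hd : 2 ≤ d) (ψ : Fin d → ℝ) :
    esn 0 ψ = 1 ∧ esn 1 ψ = (∑ i, ψ i) / d ∧
      esn 2 ψ = ((∑ i, ψ i) ^ 2 - ∑ i, ψ i ^ 2) / (d * (d - 1)) := by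
  have hd' : (2 : ℝ) ≤ d := by exact_mod_cast hd
  refine ⟨?_, ?_, ?_⟩
  · simp [esn]
  · rw [esn, M3_aux_e1, Nat.choose_one_right]
  · rw [esn, ← M3_aux_e2, Nat.cast_choose_two]
    have h1 : (d : ℝ) ≠ 0 := by linarith
    have h2 : (d : ℝ) - 1 ≠ 0 := by
      have : (0 : ℝ) < d - 1 := by linarith
      exact this.ne'
    field_simp

theorem M3_aux_choose (d k : ℕ) (hk : k ≤ d) : d ^ k ≤ k ^ k * d.choose k := by
  have h1 : d ^ k * k.factorial ≤ k ^ k * d.descFactorial k := by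
    have e1 : k.factorial = ∏ i ∈ Finset.range k, (k - i) := by
      rw [← Nat.descFactorial_self, Nat.descFactorial_eq_prod_range]
    rw [e1, Nat.descFactorial_eq_prod_range, ← Finset.card_range k, ← Finset.prod_const,
      ← Finset.prod_const, Finset.card_range, ← Finset.prod_mul_distrib,
      ← Finset.prod_mul_distrib]
    refine Finset.prod_le_prod' fun i hi => ?_
    have hi' := Finset.mem_range.1 hi
    rw [Nat.mul_sub, Nat.mul_sub]
    have h2 : k * i ≤ d * i := Nat.mul_le_mul_right i hk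
    have h3 : d * i ≤ d * k := Nat.mul_le_mul_left d hi'.le
    have h4 : d * k = k * d := Nat.mul_comm _ _
    omega
  rw [Nat.descFactorial_eq_factorial_mul_choose] at h1
  have h2 : k.factorial * d ^ k ≤ k.factorial * (k ^ k * d.choose k) := by
    calc k.factorial * d ^ k = d ^ k * k.factorial := Nat.mul_comm _ _
      _ ≤ k ^ k * (k.factorial * d.choose k) := h1
      _ = k.factorial * (k ^ k * d.choose k) := by ring
  exact Nat.le_of_mul_le_mul_left h2 k.factorial_pos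

theorem M3_aux_geom (u : ℝ) (hu : 0 ≤ u) (hu1 : u ≤ 1 / 2) (d : ℕ) (hd : 3 ≤ d) :
    ∑ k ∈ Finset.Icc 3 d, u ^ k ≤ 2 * u ^ 3 - u ^ d := by
  induction d, hd using Nat.le_induction with
  | base => simp; linarith
  | succ d hd ih =>
    rw [Finset.sum_Icc_succ_top (by omega)]
    have h1 : u ^ (d + 1) = u ^ d * u := pow_succ u d
    have h2 : 0 ≤ u ^ d := pow_nonneg hu d
    nlinarith

theorem M3_aux_term {d : ℕ} (ψ : Fin d → ℝ) (η : ℝ) (h0 : 0 < η)
    (hS1 : |∑ i, ψ i| ≤ 4 * η * Real.sqrt d) (hS2 : ∑ i, ψ i ^ 2 ≤ 4 * η ^ 2 * d)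
    (k : ℕ) (hk3 : 3 ≤ k) (hkd : k ≤ d) :
    (d.choose k : ℝ) / 2 ^ k * (esn k ψ) ^ 2 ≤ Real.exp 1 * (2 * η ^ 2 * Real.exp 3) ^ k := by
  have hk0 : (0 : ℝ) < k := by
    have : 0 < k := by omega
    exact_mod_cast this
  have hd0 : (0 : ℝ) < d := by
    have : 0 < d := by omega
    exact_mod_cast this
  have hsd : 0 < Real.sqrt d := Real.sqrt_pos.2 hd0
  have hsk : 0 < Real.sqrt k := Real.sqrt_pos.2 hk0
  have hsd2 : Real.sqrt d ^ 2 = d := Real.sq_sqrt hd0.le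
  have hsk2 : Real.sqrt k ^ 2 = k := Real.sq_sqrt hk0.le
  set t := Real.sqrt k / (2 * η * Real.sqrt d) with ht
  have ht0 : 0 < t := by positivity
  have ht2 : t ^ 2 * (4 * η ^ 2 * d) = k := by
    rw [ht, div_pow, mul_pow, mul_pow, hsk2, hsd2]
    field_simp
    ring
  have hts : t * (η * Real.sqrt d) = Real.sqrt k / 2 := by
    rw [ht]
    field_simp
  have h1 := Pool.Agent.H691R3.SL.esym_sq_le ψ k t ht0
  set E := ∑ S ∈ (Finset.univ : Finset (Fin d)).powersetCard k, ∏ i ∈ S, ψ i with hE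
  have hexp : Real.exp (2 * t * |∑ i, ψ i| + t ^ 2 * ∑ i, ψ i ^ 2) ≤ Real.exp (3 * k + 1) := by
    apply Real.exp_le_exp.2
    have e1 : 2 * t * |∑ i, ψ i| ≤ 4 * Real.sqrt k := by
      calc 2 * t * |∑ i, ψ i| ≤ 2 * t * (4 * η * Real.sqrt d) :=
            mul_le_mul_of_nonneg_left hS1 (by positivity)
        _ = 8 * (t * (η * Real.sqrt d)) := by ring
        _ = 4 * Real.sqrt k := by rw [hts]; ring
    have e2 : t ^ 2 * ∑ i, ψ i ^ 2 ≤ k := by
      rw [← ht2]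
      exact mul_le_mul_of_nonneg_left hS2 (by positivity)
    have e3 : 4 * Real.sqrt k ≤ 2 * k + 1 := by
      have h3 : (3 : ℝ) ≤ k := by exact_mod_cast hk3
      have h4 : (4 * Real.sqrt k) ^ 2 ≤ (2 * k + 1) ^ 2 := by
        rw [mul_pow, hsk2]
        nlinarith
      exact (abs_le_of_sq_le_sq' h4 (by positivity)).2
    linarith
  have h2 : E ^ 2 * t ^ (2 * k) ≤ Real.exp (3 * k + 1) := h1.trans hexp
  have hC : (0 : ℝ) < d.choose k := by exact_mod_cast Nat.choose_pos hkd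
  have hkk : (0 : ℝ) < (k : ℝ) ^ k := pow_pos hk0 k
  have hch : (d : ℝ) ^ k ≤ (k : ℝ) ^ k * d.choose k := by exact_mod_cast M3_aux_choose d k hkd
  have h3 : E ^ 2 * (k : ℝ) ^ k ≤ Real.exp (3 * k + 1) * (4 * η ^ 2) ^ k * d.choose k *
      (k : ℝ) ^ k := by
    have e1 : (k : ℝ) ^ k = t ^ (2 * k) * (4 * η ^ 2 * d) ^ k := by
      conv_lhs => rw [← ht2]
      rw [mul_pow, ← pow_mul]
    calc E ^ 2 * (k : ℝ) ^ k = (E ^ 2 * t ^ (2 * k)) * (4 * η ^ 2 * d) ^ k := by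
          rw [e1]; ring
      _ ≤ Real.exp (3 * k + 1) * (4 * η ^ 2 * d) ^ k :=
          mul_le_mul_of_nonneg_right h2 (by positivity)
      _ = Real.exp (3 * k + 1) * (4 * η ^ 2) ^ k * (d : ℝ) ^ k := by rw [mul_pow (4 * η ^ 2)]; ring
      _ ≤ Real.exp (3 * k + 1) * (4 * η ^ 2) ^ k * ((k : ℝ) ^ k * d.choose k) :=
          mul_le_mul_of_nonneg_left hch (by positivity)
      _ = _ := by ring
  have h4 : E ^ 2 ≤ Real.exp (3 * k + 1) * (4 * η ^ 2) ^ k * d.choose k :=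
    le_of_mul_le_mul_right h3 hkk
  have h5 : (d.choose k : ℝ) / 2 ^ k * (esn k ψ) ^ 2 = E ^ 2 / (2 ^ k * d.choose k) := by
    rw [esn, ← hE]
    field_simp
  rw [h5, div_le_iff₀ (by positivity)]
  refine h4.trans (le_of_eq ?_)
  have e2 : Real.exp (3 * k + 1) = Real.exp 1 * Real.exp 3 ^ k := by
    rw [← Real.exp_nat_mul, ← Real.exp_add]
    congr 1
    ring
  rw [e2, mul_pow (2 * η ^ 2), show (4 : ℝ) * η ^ 2 = 2 * (2 * η ^ 2) by ring,
    mul_pow 2 (2 * η ^ 2)]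
  ring

/-- M3 -/
theorem esn_tail {d : ℕ} (hd : 3 ≤ d) (ψ : Fin d → ℝ) (η : ℝ) (h0 : 0 < η) (h1 : η ≤ 1 / 11)
    (hS1 : |∑ i, ψ i| ≤ 4 * η * Real.sqrt d) (hS2 : ∑ i, ψ i ^ 2 ≤ 4 * η ^ 2 * d) :
    ∑ k ∈ Finset.Icc 3 d, (d.choose k : ℝ) / 2 ^ k * (esn k ψ) ^ 2 ≤ (600 * η ^ 3) ^ 2 := by
  have he := Real.exp_one_lt_d9
  have he0 := Real.exp_pos 1
  have e3 : Real.exp 3 = Real.exp 1 ^ 3 := by
    rw [← Real.exp_nat_mul]; norm_num
  have he3 : Real.exp 3 ≤ 2.7182818286 ^ 3 := by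
    rw [e3]
    exact pow_le_pow_left₀ he0.le he.le 3
  set u := 2 * η ^ 2 * Real.exp 3 with hu
  have hη2 : η ^ 2 ≤ (1 / 11) ^ 2 := pow_le_pow_left₀ h0.le h1 2
  have hu0 : 0 ≤ u := by positivity
  have hu1 : u ≤ 1 / 2 := by
    calc u ≤ 2 * (1 / 11) ^ 2 * 2.7182818286 ^ 3 :=
          mul_le_mul (mul_le_mul_of_nonneg_left hη2 (by norm_num)) he3 (Real.exp_pos 3).le
            (by norm_num)
      _ ≤ 1 / 2 := by norm_num
  have h2 : ∑ k ∈ Finset.Icc 3 d, (d.choose k : ℝ) / 2 ^ k * (esn k ψ) ^ 2 ≤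
      ∑ k ∈ Finset.Icc 3 d, Real.exp 1 * u ^ k := by
    refine Finset.sum_le_sum fun k hk => ?_
    have hk' := Finset.mem_Icc.1 hk
    exact M3_aux_term ψ η h0 hS1 hS2 k hk'.1 hk'.2
  refine h2.trans ?_
  rw [← Finset.mul_sum]
  have h3 := M3_aux_geom u hu0 hu1 d hd
  have h4 : 0 ≤ u ^ d := pow_nonneg hu0 d
  have h5 : Real.exp 1 * ∑ k ∈ Finset.Icc 3 d, u ^ k ≤ Real.exp 1 * (2 * u ^ 3) :=
    mul_le_mul_of_nonneg_left (by linarith) he0.le
  refine h5.trans ?_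
  have h6 : Real.exp 1 * (2 * u ^ 3) = 16 * Real.exp 1 ^ 10 * η ^ 6 := by
    rw [hu, e3]; ring
  rw [h6]
  have h7 : Real.exp 1 ^ 10 ≤ 2.7182818286 ^ 10 := pow_le_pow_left₀ he0.le he.le 10
  have h8 : (16 : ℝ) * 2.7182818286 ^ 10 ≤ 360000 := by norm_num
  have h9 : (0 : ℝ) ≤ η ^ 6 := by positivity
  calc 16 * Real.exp 1 ^ 10 * η ^ 6 ≤ 360000 * η ^ 6 :=
        mul_le_mul_of_nonneg_right (by linarith) h9
    _ = (600 * η ^ 3) ^ 2 := by ring

end

end Pool.Agent.H691R3.SL
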