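import Pool.Agent.H691R3.SL.Defs
import Pool.Agent.H691R3.SLF.F_M3
/-!
# Task M12F: size of the slow coefficients of the gadget
-/

namespace Pool.Agent.H691R3.SL

open MeasureTheory Set Filter Topology
open scoped Real BigOperators

noncomputable section

theorem M12F_S1 {d : ℕ} (η : ℝ) (H : ℕ) (β : Fin d → ℕ) (x : ℝ) :
    ∑ j, psi η H β x j = η * (∑ j, cs (β j : ℤ) x) + (1 - η) * ((d : ℝ) * kap H x) := by
  unfold psi
  rw [Finset.sum_add_distrib, ← Finset.mul_sum, Finset.sum_const, Finset.card_univ,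
    Fintype.card_fin, nsmul_eq_mul]
  ring

theorem M12F_S2 {d : ℕ} (η : ℝ) (H : ℕ) (β : Fin d → ℕ) (x : ℝ) :
    ∑ j, psi η H β x j ^ 2 = η ^ 2 * (∑ j, (cs (β j : ℤ) x) ^ 2)
      + 2 * η * (1 - η) * kap H x * (∑ j, cs (β j : ℤ) x)
      + (1 - η) ^ 2 * kap H x ^ 2 * d := by
  unfold psi
  have h : ∀ j : Fin d, (η * cs (β j : ℤ) x + (1 - η) * kap H x) ^ 2 =
      η ^ 2 * (cs (β j : ℤ) x) ^ 2 + 2 * η * (1 - η) * kap H x * cs (β j : ℤ) x
        + (1 - η) ^ 2 * kap H x ^ 2 := fun j => by ring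
  rw [Finset.sum_congr rfl fun j _ => h j, Finset.sum_add_distrib, Finset.sum_add_distrib,
    ← Finset.mul_sum, ← Finset.mul_sum, Finset.sum_const, Finset.card_univ, Fintype.card_fin,
    nsmul_eq_mul]
  ring

/-- the estimates for one of the two multisets -/
theorem M12F_one {d : ℕ} (hd : 3 ≤ d) (η : ℝ) (h0 : 0 < η) (h1 : η ≤ 1 / 11) (H : ℕ)
    (β : Fin d → ℕ) (x ζ ε : ℝ) (hζ : |ζ| ≤ 1) (hε0 : 0 ≤ ε) (hε1 : ε ≤ 1)
    (hS : |(∑ j, cs (β j : ℤ) x) / Real.sqrt d - ζ| ≤ ε)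
    (hQ : |(∑ j, (cs (β j : ℤ) x) ^ 2) / d - 1 / 2| ≤ ε)
    (hk0 : 0 ≤ kap H x) (hk1 : kap H x ≤ η ^ 2 * ε / (10 * d)) :
    |(∑ j, psi η H β x j) / Real.sqrt d - η * ζ| ≤ 11 / 10 * (η * ε) ∧
      |(∑ j, psi η H β x j ^ 2) / d - η ^ 2 / 2| ≤ 2 * (η ^ 2 * ε) := by
  rw [M12F_S1, M12F_S2]
  generalize hk : kap H x = k at *
  generalize (∑ j, cs (β j : ℤ) x) = C at *
  generalize (∑ j, (cs (β j : ℤ) x) ^ 2) = Q at *
  have hdR : (3 : ℝ) ≤ d := by exact_mod_cast hd
  have hd0 : (0 : ℝ) < d := by linarith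
  have hr0 : 0 < Real.sqrt d := Real.sqrt_pos.2 hd0
  have hr1 : 1 ≤ Real.sqrt d := by
    rw [show (1 : ℝ) = Real.sqrt 1 from Real.sqrt_one.symm]
    exact Real.sqrt_le_sqrt (by linarith)
  have hrr : Real.sqrt d * Real.sqrt d = d := Real.mul_self_sqrt hd0.le
  generalize Real.sqrt d = r at *
  have hdk : (d : ℝ) * k ≤ η ^ 2 * ε / 10 := by
    have := mul_le_mul_of_nonneg_left hk1 hd0.le
    calc (d : ℝ) * k ≤ d * (η ^ 2 * ε / (10 * d)) := this
      _ = η ^ 2 * ε / 10 := by field_simp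
  have hrk0 : 0 ≤ r * k := mul_nonneg hr0.le hk0
  have hrk : r * k ≤ η ^ 2 * ε / 10 := by
    refine le_trans ?_ hdk
    rw [← hrr]
    nlinarith [mul_nonneg (sub_nonneg.2 hr1) hrk0]
  have hk' : k ≤ η ^ 2 * ε / 10 := by
    refine le_trans ?_ hrk
    nlinarith [mul_nonneg (sub_nonneg.2 hr1) hk0]
  have hη1 : 0 ≤ 1 - η := by linarith
  have hηε : 0 ≤ η * ε := mul_nonneg h0.le hε0
  have hη2ε : 0 ≤ η ^ 2 * ε := mul_nonneg (sq_nonneg η) hε0
  have hsq : η ^ 2 * ε ≤ η * ε / 11 := by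
    have : η * (η * ε) ≤ 1 / 11 * (η * ε) := mul_le_mul_of_nonneg_right h1 hηε
    nlinarith
  constructor
  · have e : (η * C + (1 - η) * ((d : ℝ) * k)) / r - η * ζ = η * (C / r - ζ) + (1 - η) * (r * k) := by
      rw [← hrr]
      field_simp
      ring
    rw [e]
    calc |η * (C / r - ζ) + (1 - η) * (r * k)| ≤ |η * (C / r - ζ)| + |(1 - η) * (r * k)| :=
          abs_add_le _ _
      _ = η * |C / r - ζ| + (1 - η) * (r * k) := by
          rw [abs_mul, abs_of_pos h0, abs_of_nonneg (mul_nonneg hη1 hrk0)]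
      _ ≤ η * ε + 1 * (η ^ 2 * ε / 10) := by
          refine add_le_add (mul_le_mul_of_nonneg_left hS h0.le) ?_
          exact mul_le_mul (by linarith) hrk hrk0 zero_le_one
      _ ≤ 11 / 10 * (η * ε) := by linarith
  · have hc : |C / r| ≤ 2 := by
      calc |C / r| = |(C / r - ζ) + ζ| := by ring_nf
        _ ≤ |C / r - ζ| + |ζ| := abs_add_le _ _
        _ ≤ 2 := by linarith
    have hcd : |C / d| ≤ 2 := by
      have : C / d = C / r / r := by rw [← hrr]; field_simp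
      rw [this, abs_div, abs_of_pos hr0, div_le_iff₀ hr0]
      nlinarith
    have e : (η ^ 2 * Q + 2 * η * (1 - η) * k * C + (1 - η) ^ 2 * k ^ 2 * d) / d - η ^ 2 / 2 =
        η ^ 2 * (Q / d - 1 / 2) + 2 * η * (1 - η) * k * (C / d) + (1 - η) ^ 2 * k ^ 2 := by
      field_simp
      ring
    rw [e]
    have t1 : |η ^ 2 * (Q / d - 1 / 2)| ≤ η ^ 2 * ε := by
      rw [abs_mul, abs_of_nonneg (sq_nonneg η)]
      exact mul_le_mul_of_nonneg_left hQ (sq_nonneg η)
    have t2 : |2 * η * (1 - η) * k * (C / d)| ≤ 4 / 11 * (η ^ 2 * ε / 10) := by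
      rw [abs_mul, abs_of_nonneg (by positivity)]
      calc 2 * η * (1 - η) * k * |C / d| ≤ 2 * η * 1 * (η ^ 2 * ε / 10) * 2 := by
            refine mul_le_mul (mul_le_mul (mul_le_mul_of_nonneg_left (by linarith) (by linarith)) hk'
              hk0 (by linarith)) hcd (abs_nonneg _) (by positivity)
        _ = 4 * η * (η ^ 2 * ε / 10) := by ring
        _ ≤ 4 / 11 * (η ^ 2 * ε / 10) := mul_le_mul_of_nonneg_right (by linarith) (by positivity)
    have t3 : |(1 - η) ^ 2 * k ^ 2| ≤ (η ^ 2 * ε / 10) := by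
      rw [abs_of_nonneg (by positivity)]
      have hkk : k ≤ 1 := by nlinarith
      have : (1 - η) ^ 2 ≤ 1 := by nlinarith
      calc (1 - η) ^ 2 * k ^ 2 ≤ 1 * k ^ 2 := mul_le_mul_of_nonneg_right this (sq_nonneg k)
        _ = k * k := by ring
        _ ≤ k * 1 := mul_le_mul_of_nonneg_left hkk hk0
        _ ≤ η ^ 2 * ε / 10 := by linarith
    calc |η ^ 2 * (Q / d - 1 / 2) + 2 * η * (1 - η) * k * (C / d) + (1 - η) ^ 2 * k ^ 2|
        ≤ |η ^ 2 * (Q / d - 1 / 2) + 2 * η * (1 - η) * k * (C / d)| + |(1 - η) ^ 2 * k ^ 2| :=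
          abs_add_le _ _
      _ ≤ |η ^ 2 * (Q / d - 1 / 2)| + |2 * η * (1 - η) * k * (C / d)| + |(1 - η) ^ 2 * k ^ 2| :=
          add_le_add_left (abs_add_le _ _) _
      _ ≤ 2 * (η ^ 2 * ε) := by linarith

theorem A_bounds {d : ℕ} (hd : 3 ≤ d) (η : ℝ) (h0 : 0 < η) (h1 : η ≤ 1 / 11) (H : ℕ)
    (β : Bool → Fin d → ℕ) (x a s ε : ℝ) (has : a ^ 2 + s ^ 2 = 1 / 2) (hε0 : 0 ≤ ε) (hε1 : ε ≤ 1)
    (hS : ∀ τ : Bool,
      |(∑ j, cs (β τ j : ℤ) x) / Real.sqrt d - (a + (if τ then s else -s))| ≤ ε)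
    (hQ : ∀ τ : Bool, |(∑ j, (cs (β τ j : ℤ) x) ^ 2) / d - 1 / 2| ≤ ε)
    (hk0 : 0 ≤ kap H x) (hk1 : kap H x ≤ η ^ 2 * ε / (10 * d)) :
    |Real.sqrt d * Ak η H β 1 x - η * a| ≤ 2 * ε ∧
    |((d : ℝ) - 1) * Ak η H β 2 x| ≤ 100 * ε ∧
    |(d : ℝ) * Ak η H β 2 x| ≤ 150 * ε ∧
    ∑ k ∈ Finset.Icc 3 d, (d.choose k : ℝ) / 2 ^ k * (Ak η H β k x) ^ 2 ≤ (600 * η ^ 3) ^ 2 := by
  have hdR : (3 : ℝ) ≤ d := by exact_mod_cast hd
  have hd0 : (0 : ℝ) < d := by linarith
  have hr0 : 0 < Real.sqrt d := Real.sqrt_pos.2 hd0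
  have hrr : Real.sqrt d * Real.sqrt d = d := Real.mul_self_sqrt hd0.le
  have hζ : ∀ τ : Bool, |a + (if τ then s else -s)| ≤ 1 := by
    intro τ
    apply abs_le_one_iff_mul_self_le_one.2
    cases τ
    · simp only [Bool.false_eq_true, if_false]
      nlinarith [sq_nonneg (a + s)]
    · simp only [if_true]
      nlinarith [sq_nonneg (a - s)]
  have key := fun τ : Bool => M12F_one hd η h0 h1 H (β τ) x (a + (if τ then s else -s)) ε (hζ τ)
    hε0 hε1 (hS τ) (hQ τ) hk0 hk1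
  have hηε : 0 ≤ η * ε := mul_nonneg h0.le hε0
  have hηε' : η * ε ≤ ε / 11 := by nlinarith
  have hη2 : η ^ 2 ≤ 1 / 121 := by nlinarith
  have hη2ε : 0 ≤ η ^ 2 * ε := mul_nonneg (sq_nonneg η) hε0
  have hη2ε' : η ^ 2 * ε ≤ ε / 121 := by nlinarith
  -- the square of the normalised sum
  have hX : ∀ τ : Bool, |((∑ j, psi η H (β τ) x j) / Real.sqrt d) ^ 2
      - η ^ 2 * (a + (if τ then s else -s)) ^ 2| ≤ 4 * (η ^ 2 * ε) := by
    intro τ
    have hk := (key τ).1
    have hz := hζ τ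
    generalize (∑ j, psi η H (β τ) x j) / Real.sqrt d = X at *
    generalize a + (if τ = true then s else -s) = z at *
    have e : X ^ 2 - η ^ 2 * z ^ 2 = (X - η * z) * ((X - η * z) + 2 * (η * z)) := by ring
    rw [e, abs_mul]
    have h2 : |X - η * z + 2 * (η * z)| ≤ 11 / 10 * (η * ε) + 2 * η := by
      calc |X - η * z + 2 * (η * z)| ≤ |X - η * z| + |2 * (η * z)| := abs_add_le _ _
        _ ≤ 11 / 10 * (η * ε) + 2 * η := by
            refine add_le_add hk ?_
            rw [abs_mul, abs_mul, abs_of_pos h0, abs_of_pos (by norm_num : (0:ℝ) < 2)]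
            nlinarith
    calc |X - η * z| * |X - η * z + 2 * (η * z)|
        ≤ (11 / 10 * (η * ε)) * (11 / 10 * (η * ε) + 2 * η) :=
          mul_le_mul hk h2 (abs_nonneg _) (by positivity)
      _ = η ^ 2 * ε * (121 / 100 * ε + 22 / 10) := by ring
      _ ≤ η ^ 2 * ε * 4 := mul_le_mul_of_nonneg_left (by linarith) hη2ε
      _ = 4 * (η ^ 2 * ε) := by ring
  have hsum := key false
  -- second order
  have h2 : |((d : ℝ) - 1) * Ak η H β 2 x| ≤ 6 * (η ^ 2 * ε) := by
    have e1 : ((d : ℝ) - 1) * Ak η H β 2 x =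
        ((((∑ j, psi η H (β false) x j) / Real.sqrt d) ^ 2
            - η ^ 2 * (a + (if false = true then s else -s)) ^ 2)
          + (((∑ j, psi η H (β true) x j) / Real.sqrt d) ^ 2
            - η ^ 2 * (a + (if true = true then s else -s)) ^ 2)
          - ((∑ j, psi η H (β false) x j ^ 2) / d - η ^ 2 / 2)
          - ((∑ j, psi η H (β true) x j ^ 2) / d - η ^ 2 / 2)) / 2 := by
      unfold Ak
      rw [(Pool.Agent.H691R3.SL.esn_one_two (by omega) (psi η H (β false) x)).2.2,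
        (Pool.Agent.H691R3.SL.esn_one_two (by omega) (psi η H (β true) x)).2.2]
      have hd1 : (d : ℝ) - 1 ≠ 0 := by intro h; linarith
      have hs2 : ∀ y : ℝ, (y / Real.sqrt d) ^ 2 = y ^ 2 / d := by
        intro y
        rw [div_pow, sq (Real.sqrt (d : ℝ)), hrr]
      rw [hs2, hs2]
      simp only [Bool.false_eq_true, if_false, if_true]
      have hs : s ^ 2 = 1 / 2 - a ^ 2 := by linarith
      field_simp
      ring_nf
      rw [hs]
      ring
    rw [e1, abs_div, abs_of_pos (by norm_num : (0:ℝ) < 2), div_le_iff₀ (by norm_num)]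
    have a1 := hX false
    have a2 := hX true
    have a3 := (key false).2
    have a4 := (key true).2
    rw [abs_le] at a1 a2 a3 a4 ⊢
    constructor <;> linarith
  refine ⟨?_, ?_, ?_, ?_⟩
  · have e1 : Real.sqrt d * Ak η H β 1 x - η * a =
        (((∑ j, psi η H (β false) x j) / Real.sqrt d - η * (a + (if false = true then s else -s)))
          + ((∑ j, psi η H (β true) x j) / Real.sqrt d
            - η * (a + (if true = true then s else -s)))) / 2 := by
      unfold Ak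
      rw [(Pool.Agent.H691R3.SL.esn_one_two (by omega) (psi η H (β false) x)).2.1,
        (Pool.Agent.H691R3.SL.esn_one_two (by omega) (psi η H (β true) x)).2.1]
      have hs2 : ∀ y : ℝ, y / (d : ℝ) = y / Real.sqrt d / Real.sqrt d := by
        intro y
        rw [div_div, hrr]
      rw [hs2, hs2 (∑ i, psi η H (β true) x i)]
      simp only [Bool.false_eq_true, if_false, if_true]
      field_simp
      ring
    rw [e1, abs_div, abs_of_pos (by norm_num : (0:ℝ) < 2), div_le_iff₀ (by norm_num)]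
    have a1 := (key false).1
    have a2 := (key true).1
    rw [abs_le] at a1 a2 ⊢
    constructor <;> linarith
  · linarith
  · have e1 : (d : ℝ) * Ak η H β 2 x = (d / (d - 1)) * (((d : ℝ) - 1) * Ak η H β 2 x) := by
      have hd1 : (d : ℝ) - 1 ≠ 0 := by intro h; linarith
      field_simp
    have hd1 : (0 : ℝ) < d - 1 := by linarith
    have h3 : (d : ℝ) / (d - 1) ≤ 3 / 2 := by
      rw [div_le_iff₀ hd1]; linarith
    rw [e1, abs_mul, abs_of_pos (div_pos hd0 hd1)]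
    calc (d : ℝ) / (d - 1) * |((d : ℝ) - 1) * Ak η H β 2 x| ≤ 3 / 2 * (6 * (η ^ 2 * ε)) :=
          mul_le_mul h3 h2 (abs_nonneg _) (by norm_num)
      _ ≤ 150 * ε := by linarith
  · have htail : ∀ τ : Bool, ∑ k ∈ Finset.Icc 3 d,
        (d.choose k : ℝ) / 2 ^ k * (esn k (psi η H (β τ) x)) ^ 2 ≤ (600 * η ^ 3) ^ 2 := by
      intro τ
      refine Pool.Agent.H691R3.SL.esn_tail hd (psi η H (β τ) x) η h0 h1 ?_ ?_
      · have hk := (key τ).1
        have hz := hζ τ
        have e : (∑ j, psi η H (β τ) x j) =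
            ((∑ j, psi η H (β τ) x j) / Real.sqrt d) * Real.sqrt d := by field_simp
        rw [e, abs_mul, abs_of_pos hr0]
        refine mul_le_mul_of_nonneg_right ?_ hr0.le
        generalize (∑ j, psi η H (β τ) x j) / Real.sqrt d = X at *
        generalize a + (if τ = true then s else -s) = z at *
        calc |X| = |(X - η * z) + η * z| := by ring_nf
          _ ≤ |X - η * z| + |η * z| := abs_add_le _ _
          _ ≤ 11 / 10 * (η * ε) + η * 1 := by
              refine add_le_add hk ?_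
              rw [abs_mul, abs_of_pos h0]
              exact mul_le_mul_of_nonneg_left hz h0.le
          _ ≤ 4 * η := by nlinarith
      · have hk := (key τ).2
        rw [abs_le] at hk
        have h3 : (∑ j, psi η H (β τ) x j ^ 2) / d ≤ 4 * η ^ 2 := by
          have : η ^ 2 * ε ≤ η ^ 2 * 1 := mul_le_mul_of_nonneg_left hε1 (sq_nonneg η)
          linarith [hk.2, sq_nonneg η]
        rwa [div_le_iff₀ hd0] at h3
    have hconv : ∀ k, (Ak η H β k x) ^ 2 ≤
        ((esn k (psi η H (β false) x)) ^ 2 + (esn k (psi η H (β true) x)) ^ 2) / 2 := by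
      intro k
      unfold Ak
      nlinarith [sq_nonneg (esn k (psi η H (β false) x) - esn k (psi η H (β true) x))]
    calc ∑ k ∈ Finset.Icc 3 d, (d.choose k : ℝ) / 2 ^ k * (Ak η H β k x) ^ 2
        ≤ ∑ k ∈ Finset.Icc 3 d, (d.choose k : ℝ) / 2 ^ k *
            (((esn k (psi η H (β false) x)) ^ 2 + (esn k (psi η H (β true) x)) ^ 2) / 2) :=
          Finset.sum_le_sum fun k _ => mul_le_mul_of_nonneg_left (hconv k) (by positivity)
      _ = (∑ k ∈ Finset.Icc 3 d, (d.choose k : ℝ) / 2 ^ k * (esn k (psi η H (β false) x)) ^ 2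
          + ∑ k ∈ Finset.Icc 3 d, (d.choose k : ℝ) / 2 ^ k * (esn k (psi η H (β true) x)) ^ 2)
            / 2 := by
          rw [← Finset.sum_add_distrib, Finset.sum_div]
          exact Finset.sum_congr rfl fun k _ => by ring
      _ ≤ (600 * η ^ 3) ^ 2 := by
          have := htail false
          have := htail true
          linarith

end

end Pool.Agent.H691R3.SL
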