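import Pool.Agent.H691R3.SL.Defs
import Pool.Agent.H844R2.BU.Multi

namespace Pool.Agent.H691R3.SL

open MeasureTheory Set Filter Topology
open scoped Real BigOperators

noncomputable section

/-- M5 -/
theorem multiset_lemma (ζ : Bool → Bool → ℝ → ℝ) (hc : ∀ c τ, Continuous (ζ c τ))
    (hev : ∀ c τ x, ζ c τ (-x) = ζ c τ x) (hper : ∀ c τ x, ζ c τ (x + 1) = ζ c τ x)
    (hb : ∀ c τ x, |ζ c τ x| ≤ 2) (δ ε : ℝ) (hδ : 0 < δ) (hε : 0 < ε) (M : ℕ) :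
    ∃ d : ℕ, M ≤ d ∧ ∃ β : Bool → Bool → Fin d → ℕ, ∀ c τ, ∀ x ∈ Gd δ,
      |(∑ j, cs (β c τ j : ℤ) x) / Real.sqrt d - ζ c τ x| ≤ ε ∧
      |(∑ j, (cs (β c τ j : ℤ) x) ^ 2) / d - 1 / 2| ≤ ε := by
  obtain ⟨d, hd, -, β, hβ⟩ := H844BU.multi (ι := Bool × Bool) (fun p => ζ p.1 p.2)
    (fun p => hc p.1 p.2) (fun p => hev p.1 p.2) (fun p => hper p.1 p.2) δ ε hδ hε M
  refine ⟨d, hd, fun c τ => β (c, τ), fun c τ x hx => ?_⟩
  have h := hβ (c, τ) x hx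
  have e1 : ∀ j, cs (β (c, τ) j : ℤ) x = Real.cos (2 * π * (β (c, τ) j : ℝ) * x) := by
    intro j; simp [cs]
  simp only [e1]
  constructor
  · have := h.1
    rwa [inv_mul_eq_div] at this
  · have := h.2
    rwa [inv_mul_eq_div] at this

end

end Pool.Agent.H691R3.SL
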