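import Pool.Agent.H691R3.SL.Defs
import Pool.Agent.H691R3.SLF.F_M8
/-!
# Task M9A (helper601)
-/

namespace Pool.Agent.H691R3.SL

open MeasureTheory Set Filter Topology
open scoped Real BigOperators

noncomputable section

theorem M9A_cs_cont (k : ℤ) : Continuous (cs k) := by
  unfold cs
  fun_prop

theorem M9A_cT {d : ℕ} (Λ : ℕ) (T : Finset (Fin d)) (x : ℝ) :
    cT Λ T x = ∏ i, (cs ((LL Λ i : ℕ) : ℤ) x) ^ (if i ∈ T then 1 else 0) := by
  unfold cT
  rw [← Finset.prod_filter_mul_prod_filter_not Finset.univ (fun i => i ∈ T)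
    (fun i => (cs ((LL Λ i : ℕ) : ℤ) x) ^ (if i ∈ T then 1 else 0))]
  have h1 : ∏ i ∈ Finset.univ.filter (fun i => i ∉ T),
      (cs ((LL Λ i : ℕ) : ℤ) x) ^ (if i ∈ T then 1 else 0) = 1 := by
    apply Finset.prod_eq_one
    intro i hi
    rw [if_neg (Finset.mem_filter.1 hi).2, pow_zero]
  rw [h1, mul_one]
  have h2 : Finset.univ.filter (fun i => i ∈ T) = T := by
    ext i
    simp
  rw [h2]
  apply Finset.prod_congr rfl
  intro i hi
  rw [if_pos hi, pow_one]

theorem M9A_mom {d : ℕ} (T T' : Finset (Fin d)) :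
    ∏ i, Pool.Agent.H691R3.SL.mom ((if i ∈ T then 1 else 0) + (if i ∈ T' then 1 else 0))
      = if T = T' then (1 / 2 : ℝ) ^ T.card else 0 := by
  split_ifs with h
  · subst h
    have h1 : ∀ i : Fin d, Pool.Agent.H691R3.SL.mom ((if i ∈ T then 1 else 0) + (if i ∈ T then 1 else 0))
        = if i ∈ T then (1 / 2 : ℝ) else 1 := by
      intro i
      split_ifs
      · rfl
      · rfl
    rw [Finset.prod_congr rfl (fun i _ => h1 i), Finset.prod_ite_mem, Finset.univ_inter,
      Finset.prod_const]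
  · have h2 : ∃ i, ¬ (i ∈ T ↔ i ∈ T') := by
      by_contra hc
      push Not at hc
      exact h (Finset.ext hc)
    obtain ⟨i, hi⟩ := h2
    apply Finset.prod_eq_zero (Finset.mem_univ i)
    by_cases h3 : i ∈ T
    · have h4 : i ∉ T' := fun h5 => hi ⟨fun _ => h5, fun _ => h3⟩
      rw [if_pos h3, if_neg h4]
      rfl
    · have h4 : i ∈ T' := by
        by_contra h5
        exact hi ⟨fun h6 => absurd h6 h3, fun h6 => absurd h6 h5⟩
      rw [if_neg h3, if_pos h4]
      rfl

theorem orth_sq {d : ℕ} (W : ℝ → ℝ) (a : Finset (Fin d) → ℝ → ℝ)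
    (hW : ∀ T T', IntervalIntegrable (fun x => W x * a T x * a T' x) volume 0 1) :
    Tendsto (fun Λ : ℕ => ∫ x in (0:ℝ)..1, W x * (∑ T, a T x * cT Λ T x) ^ 2) atTop
      (𝓝 (∑ T, (1 / 2 : ℝ) ^ T.card * ∫ x in (0:ℝ)..1, W x * (a T x) ^ 2)) := by
  have hexp : ∀ Λ : ℕ, ∀ x, W x * (∑ T, a T x * cT Λ T x) ^ 2
      = ∑ T, ∑ T', (W x * a T x * a T' x) * ∏ i, (cs ((LL Λ i : ℕ) : ℤ) x) ^
        ((if i ∈ T then 1 else 0) + (if i ∈ T' then 1 else 0)) := by
    intro Λ x
    rw [sq, Finset.sum_mul_sum, Finset.mul_sum]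
    apply Finset.sum_congr rfl
    intro T _
    rw [Finset.mul_sum]
    apply Finset.sum_congr rfl
    intro T' _
    simp only [pow_add, Finset.prod_mul_distrib]
    rw [← M9A_cT, ← M9A_cT]
    ring
  have hint : ∀ Λ : ℕ, ∀ T T', IntervalIntegrable (fun x => (W x * a T x * a T' x) *
      ∏ i, (cs ((LL Λ i : ℕ) : ℤ) x) ^
        ((if i ∈ T then 1 else 0) + (if i ∈ T' then 1 else 0))) volume 0 1 := by
    intro Λ T T'
    apply (hW T T').mul_continuousOn
    apply Continuous.continuousOn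
    apply continuous_finsetProd
    intro i _
    exact (M9A_cs_cont _).pow _
  have hlim : ∀ Λ : ℕ, ∫ x in (0:ℝ)..1, W x * (∑ T, a T x * cT Λ T x) ^ 2
      = ∑ T, ∑ T', ∫ x in (0:ℝ)..1, (W x * a T x * a T' x) * ∏ i, (cs ((LL Λ i : ℕ) : ℤ) x) ^
        ((if i ∈ T then 1 else 0) + (if i ∈ T' then 1 else 0)) := by
    intro Λ
    simp only [hexp]
    rw [intervalIntegral.integral_finsetSum]
    · apply Finset.sum_congr rfl
      intro T _
      rw [intervalIntegral.integral_finsetSum]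
      intro T' _
      exact hint Λ T T'
    · intro T _
      have h := IntervalIntegrable.sum Finset.univ (fun T' _ => hint Λ T T')
      have he : (∑ T' : Finset (Fin d), fun x => (W x * a T x * a T' x) *
          ∏ i, (cs ((LL Λ i : ℕ) : ℤ) x) ^
            ((if i ∈ T then 1 else 0) + (if i ∈ T' then 1 else 0)))
          = fun x => ∑ T' : Finset (Fin d), (W x * a T x * a T' x) *
          ∏ i, (cs ((LL Λ i : ℕ) : ℤ) x) ^
            ((if i ∈ T then 1 else 0) + (if i ∈ T' then 1 else 0)) := by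
        funext x
        rw [Finset.sum_apply]
      rw [he] at h
      exact h
  simp only [hlim]
  have hgoal : (∑ T, (1 / 2 : ℝ) ^ T.card * ∫ x in (0:ℝ)..1, W x * (a T x) ^ 2)
      = ∑ T : Finset (Fin d), ∑ T' : Finset (Fin d),
        (∏ i, Pool.Agent.H691R3.SL.mom ((if i ∈ T then 1 else 0) + (if i ∈ T' then 1 else 0))) *
          ∫ x in (0:ℝ)..1, (W x * a T x * a T' x) := by
    apply Finset.sum_congr rfl
    intro T _
    rw [Finset.sum_eq_single T]
    · rw [M9A_mom, if_pos rfl]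
      congr 1
      apply intervalIntegral.integral_congr
      intro x _
      simp only
      ring
    · intro T' _ hne
      rw [M9A_mom, if_neg (fun h => hne h.symm), zero_mul]
    · intro h
      exact absurd (Finset.mem_univ T) h
  rw [hgoal]
  apply tendsto_finsetSum
  intro T _
  apply tendsto_finsetSum
  intro T' _
  apply Pool.Agent.H691R3.SL.orth (fun x => W x * a T x * a T' x) (hW T T')
  intro i
  split_ifs <;> norm_num

end

end Pool.Agent.H691R3.SL
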