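import Pool.Agent.H691R3.SL.Defs
import Pool.Agent.H691R3.SLF.F_M9A
import Pool.Agent.H691R3.SLF.F_M9B
/-!
# M9: one block changes the density by at most `600 η³`
-/

set_option autoImplicit false

namespace Pool.Agent.H691R3.SL

open MeasureTheory Set Filter Topology
open scoped Real BigOperators

noncomputable section

theorem M9_cs_cont (k : ℤ) : Continuous (cs k) := by
  unfold cs
  fun_prop

theorem M9_cT_cont {d : ℕ} (Λ : ℕ) (T : Finset (Fin d)) : Continuous (cT Λ T) := by
  unfold cT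
  exact continuous_finsetProd _ fun i _ => M9_cs_cont _

theorem M9_GA_cont {d : ℕ} (A : ℕ → ℝ → ℝ) (hA : ∀ k, Continuous (A k)) (Λ : ℕ) :
    Continuous (GA (d := d) A Λ) := by
  unfold GA
  exact continuous_finsetSum _ fun T _ => (hA _).mul (M9_cT_cont Λ T)

theorem M9_chi_cont (δ : ℝ) : Continuous (chi δ) := by
  unfold chi
  fun_prop

theorem M9_chi_nonneg (δ x : ℝ) : 0 ≤ chi δ x :=
  le_min zero_le_one (le_max_left _ _)

theorem M9_chi_le (δ x : ℝ) : chi δ x ≤ 1 := min_le_left _ _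

theorem M9_chi_Gd (δ x : ℝ) (h : x ∉ Gd δ) : chi δ x = 0 := by
  have h1 : |Real.sin (2 * π * x)| < δ := not_le.1 h
  have h2 : 0 < δ := (abs_nonneg _).trans_lt h1
  have h3 : |Real.sin (2 * π * x)| / δ - 1 ≤ 0 := by
    have := (div_le_one h2).2 h1.le
    linarith
  unfold chi
  rw [max_eq_left h3]
  exact min_eq_right zero_le_one

theorem M9_sum_card (d : ℕ) (f : ℕ → ℝ) :
    ∑ T : Finset (Fin d), f T.card = ∑ k ∈ Finset.range (d + 1), (d.choose k : ℝ) * f k := by
  have := Finset.sum_powerset_apply_card (x := (Finset.univ : Finset (Fin d))) f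
  rw [Finset.powerset_univ, Finset.card_univ, Fintype.card_fin] at this
  rw [this]
  exact Finset.sum_congr rfl fun k _ => nsmul_eq_mul _ _

/-- coefficient of orders one and two -/
def M9_a (δ : ℝ) (D : Bool → ℝ → ℝ) (A : Bool → ℕ → ℝ → ℝ) (k : ℕ) (x : ℝ) : ℝ :=
  if k = 1 ∨ k = 2 then chi δ x * (D true x * A true k x + D false x * A false k x) else 0

/-- coefficient of the orders at least three -/
def M9_b (δ : ℝ) (A : ℕ → ℝ → ℝ) (k : ℕ) (x : ℝ) : ℝ := if 3 ≤ k then chi δ x * A k x else 0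

theorem M9_a_cont (δ : ℝ) (D : Bool → ℝ → ℝ) (hDc : ∀ c, Continuous (D c))
    (A : Bool → ℕ → ℝ → ℝ) (hAc : ∀ c k, Continuous (A c k)) (k : ℕ) :
    Continuous (M9_a δ D A k) := by
  unfold M9_a
  by_cases h : k = 1 ∨ k = 2
  · simp only [if_pos h]
    exact (M9_chi_cont δ).mul (((hDc _).mul (hAc _ _)).add ((hDc _).mul (hAc _ _)))
  · simp only [if_neg h]
    exact continuous_const

theorem M9_b_cont (δ : ℝ) (A : ℕ → ℝ → ℝ) (hAc : ∀ k, Continuous (A k)) (k : ℕ) :
    Continuous (M9_b δ A k) := by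
  unfold M9_b
  by_cases h : 3 ≤ k
  · simp only [if_pos h]
    exact (M9_chi_cont δ).mul (hAc _)
  · simp only [if_neg h]
    exact continuous_const

/-- a general bound of the limit in `orth_sq` by a pointwise bound -/
theorem M9_lim_le {d : ℕ} (W : ℝ → ℝ) (hW : Continuous W) (f : ℕ → ℝ → ℝ)
    (hf : ∀ k, Continuous (f k)) (c : ℝ)
    (h : ∀ x, ∑ k ∈ Finset.range (d + 1), (d.choose k : ℝ) * ((1 / 2 : ℝ) ^ k * (f k x) ^ 2) ≤ c)
    (hW0 : ∀ x, 0 ≤ W x) :
    ∑ T : Finset (Fin d), (1 / 2 : ℝ) ^ T.card * ∫ x in (0:ℝ)..1, W x * (f T.card x) ^ 2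
      ≤ c * ∫ x in (0:ℝ)..1, W x := by
  have hc : ∀ k, IntervalIntegrable (fun x => W x * (f k x) ^ 2) volume 0 1 := fun k =>
    (hW.mul ((hf k).pow 2)).intervalIntegrable _ _
  have e1 : ∑ T : Finset (Fin d), (1 / 2 : ℝ) ^ T.card * ∫ x in (0:ℝ)..1, W x * (f T.card x) ^ 2
      = ∫ x in (0:ℝ)..1, ∑ T : Finset (Fin d), (1 / 2 : ℝ) ^ T.card * (W x * (f T.card x) ^ 2) := by
    rw [intervalIntegral.integral_finsetSum fun T _ => (hc _).const_mul _]
    exact Finset.sum_congr rfl fun T _ => (intervalIntegral.integral_const_mul _ _).symm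
  rw [e1, ← intervalIntegral.integral_const_mul]
  refine intervalIntegral.integral_mono_on zero_le_one ?_
    ((hW.const_mul _).intervalIntegrable _ _) fun x _ => ?_
  · apply Continuous.intervalIntegrable
    exact continuous_finsetSum _ fun T _ => (hW.mul ((hf _).pow 2)).const_mul _
  · rw [M9_sum_card d (fun k => (1 / 2 : ℝ) ^ k * (W x * (f k x) ^ 2))]
    have e2 : ∑ k ∈ Finset.range (d + 1), (d.choose k : ℝ) * ((1 / 2 : ℝ) ^ k * (W x * (f k x) ^ 2))
        = (∑ k ∈ Finset.range (d + 1), (d.choose k : ℝ) * ((1 / 2 : ℝ) ^ k * (f k x) ^ 2)) * W x := by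
      rw [Finset.sum_mul]
      exact Finset.sum_congr rfl fun k _ => by ring
    rw [e2]
    exact mul_le_mul_of_nonneg_right (h x) (hW0 x)

/-- orders one and two -/
theorem M9_a_le {d : ℕ} (hd : 3 ≤ d) (δ ε' : ℝ) (D : Bool → ℝ → ℝ) (A : Bool → ℕ → ℝ → ℝ)
    (hB1 : ∀ x ∈ Gd δ, |Real.sqrt d * (D true x * A true 1 x + D false x * A false 1 x)| ≤ ε')
    (hB2 : ∀ x ∈ Gd δ, |(d : ℝ) * (D true x * A true 2 x + D false x * A false 2 x)| ≤ ε')
    (x : ℝ) :
    ∑ k ∈ Finset.range (d + 1), (d.choose k : ℝ) * ((1 / 2 : ℝ) ^ k * (M9_a δ D A k x) ^ 2)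
      ≤ ε' ^ 2 := by
  have hsub : ({1, 2} : Finset ℕ) ⊆ Finset.range (d + 1) := by
    intro k hk
    simp only [Finset.mem_insert, Finset.mem_singleton] at hk
    rw [Finset.mem_range]; omega
  rw [← Finset.sum_subset hsub, Finset.sum_pair (by norm_num)]
  · unfold M9_a
    rw [if_pos (Or.inl rfl), if_pos (Or.inr rfl), Nat.choose_one_right, Nat.cast_choose_two]
    by_cases hx : x ∈ Gd δ
    · have h1 := hB1 x hx
      have h2 := hB2 x hx
      generalize D true x * A true 1 x + D false x * A false 1 x = B1 at *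
      generalize D true x * A true 2 x + D false x * A false 2 x = B2 at *
      have c0 := M9_chi_nonneg δ x
      have c1 := M9_chi_le δ x
      have c2 : (chi δ x) ^ 2 ≤ 1 := pow_le_one₀ c0 c1
      have g1 : (d : ℝ) * B1 ^ 2 ≤ ε' ^ 2 := by
        have := pow_le_pow_left₀ (abs_nonneg _) h1 2
        rw [sq_abs, mul_pow, Real.sq_sqrt (Nat.cast_nonneg d)] at this
        exact this
      have g2 : (d : ℝ) ^ 2 * B2 ^ 2 ≤ ε' ^ 2 := by
        have := pow_le_pow_left₀ (abs_nonneg _) h2 2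
        rw [sq_abs, mul_pow] at this
        exact this
      have hd' : (3 : ℝ) ≤ d := by exact_mod_cast hd
      have g3 : (d : ℝ) * ((1 / 2 : ℝ) ^ 1 * (chi δ x * B1) ^ 2) ≤ ε' ^ 2 / 2 := by
        calc (d : ℝ) * ((1 / 2 : ℝ) ^ 1 * (chi δ x * B1) ^ 2)
            = (chi δ x) ^ 2 * ((d : ℝ) * B1 ^ 2) / 2 := by ring
          _ ≤ 1 * ε' ^ 2 / 2 := by
              have := mul_le_mul c2 g1 (by positivity) zero_le_one
              linarith
          _ = _ := by ring
      have g4 : (d : ℝ) * ((d : ℝ) - 1) / 2 * ((1 / 2 : ℝ) ^ 2 * (chi δ x * B2) ^ 2)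
          ≤ ε' ^ 2 / 8 := by
        have g5 : (d : ℝ) * ((d : ℝ) - 1) * B2 ^ 2 ≤ ε' ^ 2 := by
          refine le_trans ?_ g2
          apply mul_le_mul_of_nonneg_right _ (sq_nonneg _)
          nlinarith
        have g6 : 0 ≤ (d : ℝ) * ((d : ℝ) - 1) * B2 ^ 2 := by
          have : (0 : ℝ) ≤ (d : ℝ) - 1 := by linarith
          positivity
        calc (d : ℝ) * ((d : ℝ) - 1) / 2 * ((1 / 2 : ℝ) ^ 2 * (chi δ x * B2) ^ 2)
            = (chi δ x) ^ 2 * ((d : ℝ) * ((d : ℝ) - 1) * B2 ^ 2) / 8 := by ring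
          _ ≤ 1 * ε' ^ 2 / 8 := by
              have := mul_le_mul c2 g5 g6 zero_le_one
              linarith
          _ = _ := by ring
      nlinarith [sq_nonneg ε']
    · rw [M9_chi_Gd δ x hx]
      simp only [zero_mul]
      have h2 := sq_nonneg ε'
      linarith
  · intro k _ hk
    simp only [Finset.mem_insert, Finset.mem_singleton] at hk
    unfold M9_a
    rw [if_neg hk]
    ring

/-- orders at least three -/
theorem M9_b_le {d : ℕ} (δ η : ℝ) (A : ℕ → ℝ → ℝ)
    (hB3 : ∀ x ∈ Gd δ,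
      ∑ k ∈ Finset.Icc 3 d, (d.choose k : ℝ) / 2 ^ k * (A k x) ^ 2 ≤ (600 * η ^ 3) ^ 2)
    (x : ℝ) :
    ∑ k ∈ Finset.range (d + 1), (d.choose k : ℝ) * ((1 / 2 : ℝ) ^ k * (M9_b δ A k x) ^ 2)
      ≤ (600 * η ^ 3) ^ 2 := by
  have hsub : Finset.Icc 3 d ⊆ Finset.range (d + 1) := by
    intro k hk
    rw [Finset.mem_Icc] at hk
    rw [Finset.mem_range]; omega
  rw [← Finset.sum_subset hsub]
  · by_cases hx : x ∈ Gd δ
    · refine le_trans (Finset.sum_le_sum fun k hk => ?_) (hB3 x hx)
      unfold M9_b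
      rw [if_pos (Finset.mem_Icc.1 hk).1]
      have c2 : (chi δ x) ^ 2 ≤ 1 := pow_le_one₀ (M9_chi_nonneg δ x) (M9_chi_le δ x)
      calc (d.choose k : ℝ) * ((1 / 2 : ℝ) ^ k * (chi δ x * A k x) ^ 2)
          = (chi δ x) ^ 2 * ((d.choose k : ℝ) / 2 ^ k * (A k x) ^ 2) := by
            rw [one_div, inv_pow]; ring
        _ ≤ 1 * ((d.choose k : ℝ) / 2 ^ k * (A k x) ^ 2) :=
            mul_le_mul_of_nonneg_right c2 (by positivity)
        _ = _ := one_mul _
    · have : ∑ k ∈ Finset.Icc 3 d, (d.choose k : ℝ) * ((1 / 2 : ℝ) ^ k * (M9_b δ A k x) ^ 2)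
          = 0 := by
        refine Finset.sum_eq_zero fun k hk => ?_
        unfold M9_b
        rw [if_pos (Finset.mem_Icc.1 hk).1, M9_chi_Gd δ x hx]
        ring
      rw [this]
      positivity
  · intro k hk hk'
    rw [Finset.mem_range] at hk
    rw [Finset.mem_Icc] at hk'
    unfold M9_b
    rw [if_neg (by omega)]
    ring

/-- the splitting by orders -/
theorem M9_split {d : ℕ} (δ : ℝ) (D : Bool → ℝ → ℝ) (A : Bool → ℕ → ℝ → ℝ)
    (hA0 : ∀ c x, A c 0 x = 1) (Λ : ℕ) (x : ℝ) :
    chi δ x * ((D true x * GA (d := d) (A true) Λ x + D false x * GA (d := d) (A false) Λ x)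
          - (D true x + D false x)) =
      (∑ T : Finset (Fin d), M9_a δ D A T.card x * cT Λ T x)
        + (D true x * ∑ T : Finset (Fin d), M9_b δ (A true) T.card x * cT Λ T x)
        + D false x * ∑ T : Finset (Fin d), M9_b δ (A false) T.card x * cT Λ T x := by
  have h1 : D true x + D false x = ∑ T : Finset (Fin d),
      (if T.card = 0 then (D true x + D false x) else 0) * cT Λ T x := by
    rw [Finset.sum_eq_single ∅]
    · simp [cT]
    · intro T _ hT
      rw [if_neg (by rwa [Finset.card_eq_zero]), zero_mul]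
    · intro h; exact absurd (Finset.mem_univ _) h
  rw [h1]
  unfold GA
  simp only [Finset.mul_sum]
  rw [← Finset.sum_add_distrib, ← Finset.sum_sub_distrib, Finset.mul_sum,
    ← Finset.sum_add_distrib, ← Finset.sum_add_distrib]
  refine Finset.sum_congr rfl fun T _ => ?_
  unfold M9_a M9_b
  rcases Nat.lt_or_ge T.card 3 with h | h
  · have n3 : ¬ 3 ≤ T.card := by omega
    simp only [if_neg n3]
    rcases Nat.eq_zero_or_pos T.card with h0 | h0
    · have n12 : ¬ (T.card = 1 ∨ T.card = 2) := by omega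
      simp only [if_pos h0, if_neg n12]
      rw [h0, hA0, hA0]
      ring
    · have n0 : ¬ (T.card = 0) := by omega
      have p12 : T.card = 1 ∨ T.card = 2 := by omega
      simp only [if_neg n0, if_pos p12]
      ring
  · have n0 : ¬ (T.card = 0) := by omega
    have n12 : ¬ (T.card = 1 ∨ T.card = 2) := by omega
    simp only [if_neg n0, if_neg n12, if_pos h]
    ring

theorem M9_amgm (s u : ℝ) (hs : 0 < s) : |u| ≤ s / 2 + u ^ 2 / (2 * s) := by
  have h : 0 ≤ (|u| - s) ^ 2 := sq_nonneg _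
  have e : s / 2 + u ^ 2 / (2 * s) - |u| = (|u| - s) ^ 2 / (2 * s) := by
    rw [← sq_abs u]
    field_simp
    ring
  have : 0 ≤ (|u| - s) ^ 2 / (2 * s) := by positivity
  linarith

/-- M9 (uses M9a, M9b): `L¹`-flatness of one block -/
theorem flat_limit {d : ℕ} (hd : 3 ≤ d) (η δ ε' : ℝ) (h0 : 0 < η) (h1 : η ≤ 1 / 11)
    (D : Bool → ℝ → ℝ) (hDc : ∀ c, Continuous (D c)) (hD0 : ∀ c x, 0 ≤ D c x)
    (hD1 : ∫ x in (0:ℝ)..1, (D true x + D false x) = 1)
    (A : Bool → ℕ → ℝ → ℝ) (hAc : ∀ c k, Continuous (A c k)) (hA0 : ∀ c x, A c 0 x = 1)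
    (hpos : ∀ c Λ x, 0 ≤ GA (d := d) (A c) Λ x)
    (hε' : 0 ≤ ε')
    (hB1 : ∀ x ∈ Gd δ, |Real.sqrt d * (D true x * A true 1 x + D false x * A false 1 x)| ≤ ε')
    (hB2 : ∀ x ∈ Gd δ, |(d : ℝ) * (D true x * A true 2 x + D false x * A false 2 x)| ≤ ε')
    (hB3 : ∀ c, ∀ x ∈ Gd δ,
      ∑ k ∈ Finset.Icc 3 d, (d.choose k : ℝ) / 2 ^ k * (A c k x) ^ 2 ≤ (600 * η ^ 3) ^ 2)
    (ε : ℝ) (hε : 0 < ε) :
    ∀ᶠ Λ : ℕ in atTop,
      ∫ x in (0:ℝ)..1, |(D true x * GA (d := d) (A true) Λ x + D false x * GA (d := d) (A false) Λ x)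
          - (D true x + D false x)|
        ≤ 600 * η ^ 3 + ε'
          + 2 * (∫ x in (0:ℝ)..1, (1 - chi δ x) * (D true x + D false x)) + ε := by
  have hχ := M9_chi_cont δ
  have hχ0 := M9_chi_nonneg δ
  have hχ1 := M9_chi_le δ
  have ha := M9_a_cont δ D hDc A hAc
  have hb := fun c => M9_b_cont δ (A c) (hAc c)
  have hG := fun c Λ => M9_GA_cont (d := d) (A c) (hAc c) Λ
  have hT := fun Λ T => M9_cT_cont (d := d) Λ T
  set t : ℝ := 600 * η ^ 3 with ht
  have ht0 : 0 < t := by positivity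
  set s : ℝ := ε' + ε / 2 with hs
  have hs0 : 0 < s := by positivity
  set e := ∫ x in (0:ℝ)..1, (1 - chi δ x) * (D true x + D false x) with he
  -- the limits
  have l1 : ∀ c, Tendsto (fun Λ : ℕ => ∫ x in (0:ℝ)..1, ((1 - chi δ x) * D c x) *
      GA (d := d) (A c) Λ x) atTop (𝓝 (∫ x in (0:ℝ)..1, (1 - chi δ x) * D c x)) := by
    intro c
    have := (Pool.Agent.H691R3.SL.orth_F (d := d) (by omega) (fun x => (1 - chi δ x) * D c x) (A c) (fun k =>
      ((((continuous_const.sub hχ).mul (hDc c)).mul (hAc c k)).intervalIntegrable _ _))).1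
    simp only [hA0, mul_one] at this
    exact this
  have l2 := Pool.Agent.H691R3.SL.orth_sq (d := d) (fun _ => (1 : ℝ)) (fun T x => M9_a δ D A T.card x)
    (fun T T' => ((continuous_const.mul (ha _)).mul (ha _)).intervalIntegrable _ _)
  have l3 : ∀ c, _ := fun c => Pool.Agent.H691R3.SL.orth_sq (d := d) (D c) (fun T x => M9_b δ (A c) T.card x)
    (fun T T' => (((hDc c).mul (hb c _)).mul (hb c _)).intervalIntegrable _ _)
  have b2 := M9_lim_le (d := d) (fun _ => (1 : ℝ)) continuous_const (M9_a δ D A) ha (ε' ^ 2)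
    (M9_a_le hd δ ε' D A hB1 hB2) (fun _ => zero_le_one)
  have b3 := fun c => M9_lim_le (d := d) (D c) (hDc c) (M9_b δ (A c)) (hb c) (t ^ 2)
    (M9_b_le δ η (A c) (hB3 c)) (hD0 c)
  set L2 := ∑ T : Finset (Fin d), (1 / 2 : ℝ) ^ T.card *
    ∫ x in (0:ℝ)..1, (1 : ℝ) * (M9_a δ D A T.card x) ^ 2 with hL2
  set L3 : Bool → ℝ := fun c => ∑ T : Finset (Fin d), (1 / 2 : ℝ) ^ T.card *
    ∫ x in (0:ℝ)..1, D c x * (M9_b δ (A c) T.card x) ^ 2 with hL3
  set mc : Bool → ℝ := fun c => ∫ x in (0:ℝ)..1, D c x with hmc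
  have iD : ∀ c, IntervalIntegrable (D c) volume 0 1 := fun c => (hDc c).intervalIntegrable _ _
  have hm1 : mc true + mc false = 1 := by
    rw [← hD1, intervalIntegral.integral_add (iD _) (iD _)]
  have iχ : ∀ c, IntervalIntegrable (fun x => (1 - chi δ x) * D c x) volume 0 1 := fun c =>
    ((continuous_const.sub hχ).mul (hDc c)).intervalIntegrable _ _
  have hme : (∫ x in (0:ℝ)..1, (1 - chi δ x) * D true x) +
      (∫ x in (0:ℝ)..1, (1 - chi δ x) * D false x) = e := by
    rw [he, ← intervalIntegral.integral_add (iχ _) (iχ _)]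
    refine intervalIntegral.integral_congr fun x _ => ?_
    ring
  -- the bound
  have hub : ∀ Λ : ℕ, (∫ x in (0:ℝ)..1, |(D true x * GA (d := d) (A true) Λ x +
      D false x * GA (d := d) (A false) Λ x) - (D true x + D false x)|) ≤
      (∫ x in (0:ℝ)..1, ((1 - chi δ x) * D true x) * GA (d := d) (A true) Λ x) +
      (∫ x in (0:ℝ)..1, ((1 - chi δ x) * D false x) * GA (d := d) (A false) Λ x) + e +
      (s / 2 + (∫ x in (0:ℝ)..1, (1 : ℝ) * (∑ T : Finset (Fin d), M9_a δ D A T.card x *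
        cT Λ T x) ^ 2) / (2 * s)) +
      (t / 2 * mc true + (∫ x in (0:ℝ)..1, D true x * (∑ T : Finset (Fin d),
        M9_b δ (A true) T.card x * cT Λ T x) ^ 2) / (2 * t)) +
      (t / 2 * mc false + (∫ x in (0:ℝ)..1, D false x * (∑ T : Finset (Fin d),
        M9_b δ (A false) T.card x * cT Λ T x) ^ 2) / (2 * t)) := by
    intro Λ
    have cS : Continuous fun x => ∑ T : Finset (Fin d), M9_a δ D A T.card x * cT Λ T x :=
      continuous_finsetSum _ fun T _ => (ha _).mul (hT _ _)
    have cS3 : ∀ c, Continuous fun x => ∑ T : Finset (Fin d), M9_b δ (A c) T.card x * cT Λ T x :=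
      fun c => continuous_finsetSum _ fun T _ => (hb c _).mul (hT _ _)
    have j1 : ∀ c, IntervalIntegrable (fun x => ((1 - chi δ x) * D c x) *
        GA (d := d) (A c) Λ x) volume 0 1 := fun c =>
      (((continuous_const.sub hχ).mul (hDc c)).mul (hG c Λ)).intervalIntegrable _ _
    have j2 : IntervalIntegrable (fun x => (1 - chi δ x) * (D true x + D false x)) volume 0 1 :=
      ((continuous_const.sub hχ).mul ((hDc _).add (hDc _))).intervalIntegrable _ _
    have j3 : IntervalIntegrable (fun x => (1 : ℝ) * (∑ T : Finset (Fin d), M9_a δ D A T.card x *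
        cT Λ T x) ^ 2) volume 0 1 := (continuous_const.mul (cS.pow 2)).intervalIntegrable _ _
    have j4 : ∀ c, IntervalIntegrable (fun x => D c x * (∑ T : Finset (Fin d),
        M9_b δ (A c) T.card x * cT Λ T x) ^ 2) volume 0 1 := fun c =>
      ((hDc c).mul ((cS3 c).pow 2)).intervalIntegrable _ _
    have e3 : s / 2 + (∫ x in (0:ℝ)..1, (1 : ℝ) * (∑ T : Finset (Fin d), M9_a δ D A T.card x *
        cT Λ T x) ^ 2) / (2 * s) = ∫ x in (0:ℝ)..1, (s / 2 + (1 : ℝ) * (∑ T : Finset (Fin d),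
        M9_a δ D A T.card x * cT Λ T x) ^ 2 / (2 * s)) := by
      rw [intervalIntegral.integral_add (continuous_const.intervalIntegrable _ _)
        (j3.div_const _), intervalIntegral.integral_const, sub_zero, one_smul,
        intervalIntegral.integral_div]
    have e4 : ∀ c, t / 2 * mc c + (∫ x in (0:ℝ)..1, D c x * (∑ T : Finset (Fin d),
        M9_b δ (A c) T.card x * cT Λ T x) ^ 2) / (2 * t) =
        ∫ x in (0:ℝ)..1, (t / 2 * D c x + D c x * (∑ T : Finset (Fin d),
        M9_b δ (A c) T.card x * cT Λ T x) ^ 2 / (2 * t)) := by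
      intro c
      rw [intervalIntegral.integral_add ((iD c).const_mul _) ((j4 c).div_const _),
        intervalIntegral.integral_const_mul, intervalIntegral.integral_div]
    rw [e3, e4, e4, he, ← intervalIntegral.integral_add (j1 _) (j1 _),
      ← intervalIntegral.integral_add ((j1 _).add (j1 _)) j2,
      ← intervalIntegral.integral_add (((j1 _).add (j1 _)).add j2)
        ((continuous_const.intervalIntegrable _ _).add (j3.div_const _)),
      ← intervalIntegral.integral_add ((((j1 _).add (j1 _)).add j2).add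
        ((continuous_const.intervalIntegrable _ _).add (j3.div_const _)))
        (((iD _).const_mul _).add ((j4 _).div_const _)),
      ← intervalIntegral.integral_add (((((j1 _).add (j1 _)).add j2).add
        ((continuous_const.intervalIntegrable _ _).add (j3.div_const _))).add
        (((iD _).const_mul _).add ((j4 _).div_const _)))
        (((iD _).const_mul _).add ((j4 _).div_const _))]
    refine intervalIntegral.integral_mono_on zero_le_one ?_ ((((((j1 _).add (j1 _)).add j2).add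
        ((continuous_const.intervalIntegrable _ _).add (j3.div_const _))).add
        (((iD _).const_mul _).add ((j4 _).div_const _))).add
        (((iD _).const_mul _).add ((j4 _).div_const _))) fun x _ => ?_
    · apply Continuous.intervalIntegrable
      exact ((((hDc _).mul (hG _ Λ)).add ((hDc _).mul (hG _ Λ))).sub
        ((hDc _).add (hDc _))).abs
    · have sp := M9_split (d := d) δ D A hA0 Λ x
      have p1 := hpos true Λ x
      have p0 := hpos false Λ x
      have d1 := hD0 true x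
      have d0 := hD0 false x
      have c0 := hχ0 x
      have c1 := hχ1 x
      have a1 := M9_amgm s (∑ T : Finset (Fin d), M9_a δ D A T.card x * cT Λ T x) hs0
      have a2 := M9_amgm t (∑ T : Finset (Fin d), M9_b δ (A true) T.card x * cT Λ T x) ht0
      have a3 := M9_amgm t (∑ T : Finset (Fin d), M9_b δ (A false) T.card x * cT Λ T x) ht0
      generalize (∑ T : Finset (Fin d), M9_a δ D A T.card x * cT Λ T x) = S at *
      generalize (∑ T : Finset (Fin d), M9_b δ (A true) T.card x * cT Λ T x) = S1 at *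
      generalize (∑ T : Finset (Fin d), M9_b δ (A false) T.card x * cT Λ T x) = S0 at *
      generalize GA (d := d) (A true) Λ x = G1 at *
      generalize GA (d := d) (A false) Λ x = G0 at *
      generalize chi δ x = X at *
      generalize D true x = D1 at *
      generalize D false x = D0 at *
      have q1 : |(D1 * G1 + D0 * G0) - (D1 + D0)| =
          (1 - X) * |(D1 * G1 + D0 * G0) - (D1 + D0)| +
          |X * ((D1 * G1 + D0 * G0) - (D1 + D0))| := by
        rw [abs_mul, abs_of_nonneg c0]; ring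
      have q2 : |(D1 * G1 + D0 * G0) - (D1 + D0)| ≤ (D1 * G1 + D0 * G0) + (D1 + D0) := by
        have g1 : 0 ≤ D1 * G1 := mul_nonneg d1 p1
        have g0 : 0 ≤ D0 * G0 := mul_nonneg d0 p0
        rw [abs_le]; constructor <;> linarith
      have q3 := mul_le_mul_of_nonneg_left q2 (show 0 ≤ 1 - X by linarith)
      have q4 : |X * ((D1 * G1 + D0 * G0) - (D1 + D0))| ≤ |S| + D1 * |S1| + D0 * |S0| := by
        rw [sp]
        refine (abs_add_le _ _).trans (add_le_add ((abs_add_le _ _).trans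
          (add_le_add le_rfl ?_)) ?_)
        · rw [abs_mul, abs_of_nonneg d1]
        · rw [abs_mul, abs_of_nonneg d0]
      have q5 := mul_le_mul_of_nonneg_left a2 d1
      have q6 := mul_le_mul_of_nonneg_left a3 d0
      have q7 : D1 * (t / 2 + S1 ^ 2 / (2 * t)) = t / 2 * D1 + D1 * S1 ^ 2 / (2 * t) := by ring
      have q8 : D0 * (t / 2 + S0 ^ 2 / (2 * t)) = t / 2 * D0 + D0 * S0 ^ 2 / (2 * t) := by ring
      rw [q7] at q5
      rw [q8] at q6
      rw [q1, one_mul]
      have q9 : (1 - X) * ((D1 * G1 + D0 * G0) + (D1 + D0)) = (1 - X) * D1 * G1 +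
        (1 - X) * D0 * G0 + (1 - X) * (D1 + D0) := by ring
      rw [q9] at q3
      linarith
  -- conclusion
  have hlim := ((((((l1 true).add (l1 false)).add (tendsto_const_nhds (x := e))).add
    ((tendsto_const_nhds (x := s / 2)).add (l2.div_const (2 * s)))).add
    ((tendsto_const_nhds (x := t / 2 * mc true)).add ((l3 true).div_const (2 * t)))).add
    ((tendsto_const_nhds (x := t / 2 * mc false)).add ((l3 false).div_const (2 * t))))
  have hlt : (∫ x in (0:ℝ)..1, (1 - chi δ x) * D true x) +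
      (∫ x in (0:ℝ)..1, (1 - chi δ x) * D false x) + e + (s / 2 + L2 / (2 * s)) +
      (t / 2 * mc true + L3 true / (2 * t)) + (t / 2 * mc false + L3 false / (2 * t)) <
      t + ε' + 2 * e + ε := by
    rw [hme]
    have g2 : L2 / (2 * s) ≤ s / 2 := by
      rw [div_le_iff₀ (by positivity)]
      have : ε' ^ 2 ≤ s ^ 2 := pow_le_pow_left₀ hε' (by linarith) 2
      have b2' : L2 ≤ ε' ^ 2 := by
        rw [intervalIntegral.integral_const, sub_zero, one_smul, mul_one] at b2
        exact b2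
      nlinarith
    have g3 : ∀ c, L3 c / (2 * t) ≤ t / 2 * mc c := by
      intro c
      rw [div_le_iff₀ (by positivity)]
      have := b3 c
      calc L3 c ≤ t ^ 2 * mc c := this
        _ = t / 2 * mc c * (2 * t) := by ring
    have g4 := g3 true
    have g5 := g3 false
    have g6 : t / 2 * mc true + t / 2 * mc false = t / 2 := by rw [← mul_add, hm1, mul_one]
    linarith
  filter_upwards [hlim.eventually (gt_mem_nhds hlt)] with Λ hΛ
  exact (hub Λ).trans hΛ.le

end

end Pool.Agent.H691R3.SL
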