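import Pool.Agent.H691R3.SL.Defs
import Pool.Agent.H691R3.SLF.F_M10
import Pool.Agent.H691R3.SLF.F_M11
import Pool.Agent.H691R3.SLF.F_M12A
import Pool.Agent.H691R3.SLF.F_M12C
import Pool.Agent.H691R3.SLF.F_M12D
import Pool.Agent.H691R3.SLF.F_M12E
import Pool.Agent.H691R3.SLF.F_M12F
import Pool.Agent.H691R3.SLF.F_M12G
import Pool.Agent.H691R3.SLF.F_M15
import Pool.Agent.H691R3.SLF.F_M3
import Pool.Agent.H691R3.SLF.F_M5
import Pool.Agent.H691R3.SLF.F_M6
import Pool.Agent.H691R3.SLF.F_M7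
import Pool.Agent.H691R3.SLF.F_M9
/-!
# M12: the block lemma (assembly)
-/

namespace Pool.Agent.H691R3.SL

open MeasureTheory Set Filter Topology
open scoped Real BigOperators

noncomputable section

/-! ### continuity -/

theorem M12_cs_cont (k : ℤ) : Continuous (cs k) := by
  unfold cs
  fun_prop

theorem M12_DD_cont {Θ : Type} [Fintype Θ] (fr : Θ → List ℕ) (S : Finset Θ) :
    Continuous (DD fr S) := by
  unfold DD
  exact (continuous_finsetSum _ fun h _ => (Pool.Agent.H691R3.SL.RP_basic (fr h)).1).div_const _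

theorem M12_DD_nonneg {Θ : Type} [Fintype Θ] (fr : Θ → List ℕ) (S : Finset Θ) (x : ℝ) :
    0 ≤ DD fr S x := by
  unfold DD
  exact div_nonneg (Finset.sum_nonneg fun h _ => (Pool.Agent.H691R3.SL.RP_basic (fr h)).2.1 x) (Nat.cast_nonneg _)

theorem M12_DD_even {Θ : Type} [Fintype Θ] (fr : Θ → List ℕ) (S : Finset Θ) (x : ℝ) :
    DD fr S (-x) = DD fr S x := by
  unfold DD
  rw [Finset.sum_congr rfl fun h _ => (Pool.Agent.H691R3.SL.RP_basic (fr h)).2.2.1 x]

theorem M12_DD_per {Θ : Type} [Fintype Θ] (fr : Θ → List ℕ) (S : Finset Θ) (x : ℝ) :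
    DD fr S (x + 1) = DD fr S x := by
  unfold DD
  rw [Finset.sum_congr rfl fun h _ => (Pool.Agent.H691R3.SL.RP_basic (fr h)).2.2.2.1 x]

theorem M12_RP_le (l : List ℕ) (x : ℝ) : RP l x ≤ 2 ^ l.length := by
  induction l with
  | nil => simp [RP]
  | cons n l ih =>
    have h1 : RP (n :: l) x = (1 + cs (n : ℤ) x) * RP l x := by
      simp [RP]
    have h2 : 0 ≤ RP l x := (Pool.Agent.H691R3.SL.RP_basic l).2.1 x
    have h3 : cs (n : ℤ) x ≤ 1 := Real.cos_le_one _
    rw [h1, List.length_cons, pow_succ]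
    nlinarith

theorem M12_DD_bound {Θ : Type} [Fintype Θ] [Nonempty Θ] (fr : Θ → List ℕ) :
    ∃ R : ℝ, 1 ≤ R ∧ ∀ (S : Finset Θ) (x : ℝ), DD fr S x ≤ R := by
  refine ⟨∑ h, (2 : ℝ) ^ (fr h).length, ?_, fun S x => ?_⟩
  · obtain ⟨h0⟩ := ‹Nonempty Θ›
    refine le_trans (one_le_pow₀ (by norm_num : (1 : ℝ) ≤ 2) (n := (fr h0).length)) ?_
    exact Finset.single_le_sum (f := fun h => (2 : ℝ) ^ (fr h).length)
      (fun h _ => by positivity) (Finset.mem_univ h0)
  · unfold DD
    have hc : (1 : ℝ) ≤ Fintype.card Θ := by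
      have : 0 < Fintype.card Θ := Fintype.card_pos
      exact_mod_cast this
    have h0 : 0 ≤ ∑ h ∈ S, RP (fr h) x :=
      Finset.sum_nonneg fun h _ => (Pool.Agent.H691R3.SL.RP_basic (fr h)).2.1 x
    refine (div_le_self h0 hc).trans ?_
    refine (Finset.sum_le_sum fun h _ => M12_RP_le (fr h) x).trans ?_
    exact Finset.sum_le_sum_of_subset_of_nonneg (Finset.subset_univ _)
      fun h _ _ => by positivity

theorem M12_DD_add {Θ : Type} [Fintype Θ] [DecidableEq Θ] (fr : Θ → List ℕ) (S : Finset Θ)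
    (x : ℝ) : DD fr S x + DD fr Sᶜ x = DD fr Finset.univ x := by
  unfold DD
  rw [← add_div, Finset.sum_add_sum_compl]

theorem M12_DD_empty {Θ : Type} [Fintype Θ] (fr : Θ → List ℕ) (x : ℝ) :
    DD fr (∅ : Finset Θ) x = 0 := by
  unfold DD
  rw [Finset.sum_empty, zero_div]

theorem M12_DD_int {Θ : Type} [Fintype Θ] [Nonempty Θ] [DecidableEq Θ] (fr : Θ → List ℕ)
    (hfr : ∀ h, Gr 0 0 (fr h)) (S : Finset Θ) :
    ∫ x in (0:ℝ)..1, (DD fr S x + DD fr Sᶜ x) = 1 := by
  simp only [M12_DD_add]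
  unfold DD
  rw [intervalIntegral.integral_div, intervalIntegral.integral_finsetSum]
  · rw [Finset.sum_congr rfl fun h _ => (Pool.Agent.H691R3.SL.RP_basic (fr h)).2.2.2.2 (hfr h)]
    rw [Finset.sum_const, Finset.card_univ, nsmul_eq_mul, mul_one]
    have : (Fintype.card Θ : ℝ) ≠ 0 := by
      have : 0 < Fintype.card Θ := Fintype.card_pos
      positivity
    exact div_self this
  · intro h _
    exact (Pool.Agent.H691R3.SL.RP_basic (fr h)).1.intervalIntegrable _ _

theorem M12_tp_cont (m : ℕ) (a : ℕ → ℝ) : Continuous (tp m a) := by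
  unfold tp
  exact continuous_finsetSum _ fun j _ => continuous_const.mul (M12_cs_cont _)

theorem M12_kap_cont (H : ℕ) : Continuous (kap H) := by
  unfold kap
  exact (continuous_finsetSum _ fun u _ => continuous_finsetSum _ fun w _ =>
    M12_cs_cont _).div_const _

theorem M12_Ak_cont {d : ℕ} (η : ℝ) (H : ℕ) (β : Bool → Fin d → ℕ) (k : ℕ) :
    Continuous (Ak η H β k) := by
  have h1 : ∀ τ : Bool, Continuous (fun x => esn k (psi η H (β τ) x)) := by
    intro τ
    unfold esn psi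
    refine (continuous_finsetSum _ fun S _ => continuous_finsetProd _ fun j _ => ?_).div_const _
    exact (continuous_const.mul (M12_cs_cont _)).add (continuous_const.mul (M12_kap_cont H))
  unfold Ak
  exact ((h1 false).add (h1 true)).div_const _

theorem M12_cT_cont {d : ℕ} (Λ : ℕ) (T : Finset (Fin d)) : Continuous (cT Λ T) := by
  unfold cT
  exact continuous_finsetProd _ fun j _ => M12_cs_cont _

theorem M12_GA_cont {d : ℕ} (A : ℕ → ℝ → ℝ) (hA : ∀ k, Continuous (A k)) (Λ : ℕ) :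
    Continuous (GA (d := d) A Λ) := by
  unfold GA
  exact continuous_finsetSum _ fun T _ => (hA _).mul (M12_cT_cont Λ T)

theorem M12_Fs_cont (d Λ : ℕ) : Continuous (Fs d Λ) := by
  unfold Fs
  exact (continuous_finsetSum _ fun i _ => M12_cs_cont _).div_const _

theorem M12_chi_cont (δ : ℝ) : Continuous (chi δ) := by
  unfold chi
  fun_prop

theorem M12_chi_nonneg (δ x : ℝ) : 0 ≤ chi δ x := le_min zero_le_one (le_max_left _ _)

theorem M12_chi_le (δ x : ℝ) : chi δ x ≤ 1 := min_le_left _ _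

theorem M12_chi_zero {δ x : ℝ} (hδ : 0 < δ) (hx : x ∉ Gd δ) : chi δ x = 0 := by
  have h1 : |Real.sin (2 * π * x)| < δ := not_le.1 hx
  have h2 : |Real.sin (2 * π * x)| / δ - 1 ≤ 0 := by
    rw [sub_nonpos, div_le_one hδ]
    exact h1.le
  unfold chi
  rw [max_eq_left h2]
  exact min_eq_right zero_le_one

/-! ### the integral of `hm` -/

theorem M12_hm_nonneg {a b : ℝ} (ha : 0 ≤ a) (hb : 0 ≤ b) : 0 ≤ hm a b := by
  unfold hm
  positivity

theorem M12_hm_int {f g : ℝ → ℝ} (hf : Continuous f) (hg : Continuous g) (hf0 : ∀ x, 0 ≤ f x)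
    (hg0 : ∀ x, 0 ≤ g x) : IntervalIntegrable (fun x => hm (f x) (g x)) volume 0 1 := by
  have h1 : IntervalIntegrable f volume 0 1 := hf.intervalIntegrable _ _
  refine h1.mono_fun ?_ ?_
  · unfold hm
    exact ((hf.measurable.mul hg.measurable).div
      (hf.measurable.add hg.measurable)).aestronglyMeasurable
  · refine Filter.Eventually.of_forall fun x => ?_
    show ‖hm (f x) (g x)‖ ≤ ‖f x‖
    rw [Real.norm_eq_abs, Real.norm_eq_abs, abs_of_nonneg (M12_hm_nonneg (hf0 x) (hg0 x)),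
      abs_of_nonneg (hf0 x)]
    have := Pool.Agent.H691R3.SL.hm_le (f x) (g x) 1 (hf0 x) (hg0 x)
    simpa using this

theorem M12_hm_le_int {f g F : ℝ → ℝ} (hf : Continuous f) (hg : Continuous g)
    (hf0 : ∀ x, 0 ≤ f x) (hg0 : ∀ x, 0 ≤ g x) (hF : Continuous F)
    (h : ∀ x, hm (f x) (g x) ≤ F x) :
    ∫ x in (0:ℝ)..1, hm (f x) (g x) ≤ ∫ x in (0:ℝ)..1, F x :=
  intervalIntegral.integral_mono (by norm_num) (M12_hm_int hf hg hf0 hg0)
    (hF.intervalIntegrable _ _) h

/-! ### trigonometric polynomials -/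

theorem M12_cs_neg (k : ℤ) (x : ℝ) : cs (-k) x = cs k x := by
  unfold cs
  rw [← Real.cos_neg]
  congr 1
  push_cast
  ring

theorem M12_cs_zero (x : ℝ) : cs 0 x = 1 := by
  unfold cs
  simp

theorem M12_cs_mul (j k : ℤ) (x : ℝ) : cs j x * cs k x = (cs (j + k) x + cs (j - k) x) / 2 := by
  unfold cs
  have h1 := Real.cos_add (2 * π * (j : ℝ) * x) (2 * π * (k : ℝ) * x)
  have h2 := Real.cos_sub (2 * π * (j : ℝ) * x) (2 * π * (k : ℝ) * x)
  have e1 : 2 * π * ((j + k : ℤ) : ℝ) * x = 2 * π * (j : ℝ) * x + 2 * π * (k : ℝ) * x := by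
    push_cast; ring
  have e2 : 2 * π * ((j - k : ℤ) : ℝ) * x = 2 * π * (j : ℝ) * x - 2 * π * (k : ℝ) * x := by
    push_cast; ring
  rw [e1, e2, h1, h2]
  ring

/-- the space of the cosine polynomials of degree less than `m` -/
def M12_T (m : ℕ) : Submodule ℝ (ℝ → ℝ) :=
  Submodule.span ℝ ((fun j : ℕ => (fun x : ℝ => cs (j : ℤ) x)) '' (Set.Iio m))

theorem M12_mem_tp (m : ℕ) (a : ℕ → ℝ) : tp m a ∈ M12_T m := by
  have h : tp m a = ∑ j ∈ Finset.range m, a j • (fun x : ℝ => cs (j : ℤ) x) := by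
    funext x
    unfold tp
    rw [Finset.sum_apply]
    rfl
  rw [h]
  refine Submodule.sum_mem _ fun j hj => Submodule.smul_mem _ _ (Submodule.subset_span ?_)
  exact ⟨j, Finset.mem_range.1 hj, rfl⟩

theorem M12_exists_tp {m : ℕ} {f : ℝ → ℝ} (hf : f ∈ M12_T m) : ∃ a : ℕ → ℝ, f = tp m a := by
  induction hf using Submodule.span_induction with
  | mem f hf =>
    obtain ⟨j, hj, rfl⟩ := hf
    refine ⟨fun i => if i = j then 1 else 0, ?_⟩
    funext x
    unfold tp
    simp only [ite_mul, one_mul, zero_mul]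
    rw [Finset.sum_ite_eq' (Finset.range m) j (fun i => cs (i : ℤ) x), if_pos (Finset.mem_range.2 hj)]
  | zero => exact ⟨fun _ => 0, by funext x; simp [tp]⟩
  | add f g _ _ hf hg =>
    obtain ⟨a, rfl⟩ := hf
    obtain ⟨b, rfl⟩ := hg
    refine ⟨fun j => a j + b j, ?_⟩
    funext x
    unfold tp
    rw [Pi.add_apply, ← Finset.sum_add_distrib]
    exact Finset.sum_congr rfl fun j _ => by ring
  | smul c f _ hf =>
    obtain ⟨a, rfl⟩ := hf
    refine ⟨fun j => c * a j, ?_⟩
    funext x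
    unfold tp
    rw [Pi.smul_apply, smul_eq_mul, Finset.mul_sum]
    exact Finset.sum_congr rfl fun j _ => by ring

theorem M12_T_cs {m : ℕ} (j : ℤ) (hj : j.natAbs < m) : (fun x : ℝ => cs j x) ∈ M12_T m := by
  have h : (fun x : ℝ => cs j x) = fun x : ℝ => cs ((j.natAbs : ℕ) : ℤ) x := by
    funext x
    rcases Int.natAbs_eq j with h | h
    · rw [← h]
    · conv_lhs => rw [h]
      rw [M12_cs_neg]
  rw [h]
  exact Submodule.subset_span ⟨j.natAbs, hj, rfl⟩

theorem M12_T_sq {m : ℕ} (a : ℕ → ℝ) : (fun x => tp m a x ^ 2) ∈ M12_T (2 * m + 1) := by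
  have h : (fun x => tp m a x ^ 2) = ∑ j ∈ Finset.range m, ∑ k ∈ Finset.range m,
      (a j * a k / 2) • ((fun x : ℝ => cs ((j : ℤ) + (k : ℤ)) x) +
        (fun x : ℝ => cs ((j : ℤ) - (k : ℤ)) x)) := by
    funext x
    unfold tp
    rw [pow_two, Finset.sum_mul_sum, Finset.sum_apply]
    refine Finset.sum_congr rfl fun j _ => ?_
    rw [Finset.sum_apply]
    refine Finset.sum_congr rfl fun k _ => ?_
    rw [Pi.smul_apply, Pi.add_apply, smul_eq_mul]
    have := M12_cs_mul (j : ℤ) (k : ℤ) x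
    calc a j * cs (j : ℤ) x * (a k * cs (k : ℤ) x) = a j * a k * (cs (j : ℤ) x * cs (k : ℤ) x) := by
          ring
      _ = _ := by rw [this]; ring
  rw [h]
  refine Submodule.sum_mem _ fun j hj => Submodule.sum_mem _ fun k hk =>
    Submodule.smul_mem _ _ (Submodule.add_mem _ ?_ ?_)
  · rw [Finset.mem_range] at hj hk
    exact M12_T_cs _ (by omega)
  · rw [Finset.mem_range] at hj hk
    exact M12_T_cs _ (by omega)

theorem M12_T_mono {m m' : ℕ} (h : m ≤ m') : M12_T m ≤ M12_T m' := by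
  refine Submodule.span_mono (Set.image_mono ?_)
  intro j hj
  exact lt_of_lt_of_le hj h

theorem M12_T_sq' {m : ℕ} (a : ℕ → ℝ) : (fun x => (1 - tp m a x) ^ 2) ∈ M12_T (2 * m + 1) := by
  have h : (fun x => (1 - tp m a x) ^ 2) =
      (fun x : ℝ => cs 0 x) + ((-2 : ℝ) • tp m a + fun x => tp m a x ^ 2) := by
    funext x
    rw [Pi.add_apply, Pi.add_apply, Pi.smul_apply, smul_eq_mul]
    rw [M12_cs_zero]
    ring
  rw [h]
  refine Submodule.add_mem _ (M12_T_cs 0 (by simp)) (Submodule.add_mem _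
    (Submodule.smul_mem _ _ (M12_T_mono (by omega) (M12_mem_tp m a))) (M12_T_sq a))

/-! ### pointwise estimates -/

theorem M12_pt {D1 D0 κ : ℝ} (h1 : 0 ≤ D1) (h0 : 0 ≤ D0) (hκ : 0 < κ) :
    0 ≤ 1 / (D1 + D0 + κ) ∧ 0 ≤ D1 * (1 / (D1 + D0 + κ)) ∧ 0 ≤ D0 * (1 / (D1 + D0 + κ)) ∧
      D1 * (1 / (D1 + D0 + κ)) + D0 * (1 / (D1 + D0 + κ)) ≤ 1 := by
  have hp : 0 < D1 + D0 + κ := by linarith
  refine ⟨by positivity, by positivity, by positivity, ?_⟩
  rw [← add_mul, mul_one_div, div_le_one hp]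
  linarith

/-- the slow coefficient of order one -/
def M12_a (D : Bool → ℝ → ℝ) (κ : ℝ) (c : Bool) (x : ℝ) : ℝ :=
  if c then D false x * (1 / (D true x + D false x + κ)) / 2
  else -(D true x * (1 / (D true x + D false x + κ)) / 2)

theorem M12_w_cont {D : Bool → ℝ → ℝ} (hDc : ∀ c, Continuous (D c)) (hD0 : ∀ c x, 0 ≤ D c x)
    {κ : ℝ} (hκ : 0 < κ) : Continuous (fun x => 1 / (D true x + D false x + κ)) := by
  refine continuous_const.div (((hDc true).add (hDc false)).add continuous_const) fun x => ?_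
  have h1 := hD0 true x
  have h2 := hD0 false x
  positivity

theorem M12_a_cont {D : Bool → ℝ → ℝ} (hDc : ∀ c, Continuous (D c)) (hD0 : ∀ c x, 0 ≤ D c x)
    {κ : ℝ} (hκ : 0 < κ) (c : Bool) : Continuous (M12_a D κ c) := by
  have hw := M12_w_cont hDc hD0 hκ
  cases c with
  | true =>
    have : M12_a D κ true = fun x => D false x * (1 / (D true x + D false x + κ)) / 2 := rfl
    rw [this]
    exact ((hDc false).mul hw).div_const _
  | false =>
    have : M12_a D κ false = fun x => -(D true x * (1 / (D true x + D false x + κ)) / 2) := rfl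
    rw [this]
    exact (((hDc true).mul hw).div_const _).neg

theorem M12_a_bd {D : Bool → ℝ → ℝ} (hD0 : ∀ c x, 0 ≤ D c x) {κ : ℝ} (hκ : 0 < κ) (c : Bool)
    (x : ℝ) : |M12_a D κ c x| ≤ 1 / 2 := by
  obtain ⟨_, h1, h2, h3⟩ := M12_pt (hD0 true x) (hD0 false x) hκ
  cases c with
  | true =>
    have : M12_a D κ true x = D false x * (1 / (D true x + D false x + κ)) / 2 := rfl
    rw [this, abs_of_nonneg (by linarith)]
    linarith
  | false =>
    have : M12_a D κ false x = -(D true x * (1 / (D true x + D false x + κ)) / 2) := rfl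
    rw [this, abs_neg, abs_of_nonneg (by linarith)]
    linarith

/-- the targets -/
def M12_z (D : Bool → ℝ → ℝ) (κ : ℝ) (c τ : Bool) (x : ℝ) : ℝ :=
  M12_a D κ c x + (if τ then Real.sqrt (1 / 2 - M12_a D κ c x ^ 2)
    else -Real.sqrt (1 / 2 - M12_a D κ c x ^ 2))

theorem M12_gadget (D : Bool → ℝ → ℝ) (hDc : ∀ c, Continuous (D c)) (hD0 : ∀ c x, 0 ≤ D c x)
    (hDe : ∀ c x, D c (-x) = D c x) (hDp : ∀ c x, D c (x + 1) = D c x) {κ δ ε : ℝ} (hκ : 0 < κ)
    (hδ : 0 < δ) (q : ℕ) (hq : 11 ≤ q) (hε : 0 < ε) (hε1 : ε ≤ 1) :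
    ∃ (d H K M : ℕ) (β : Bool → Bool → Fin d → ℕ) (b : Bool → Fin (K + 1) → Fin d → ℤ),
      3 ≤ d ∧ (∀ c a i, |b c a i| ≤ M) ∧
      (∀ (c : Bool) (L : Fin d → ℕ) (x : ℝ),
        (∑ a, ∏ i, (1 + cs ((L i : ℤ) + b c a i) x)) / ((K : ℝ) + 1)
          = ∑ T : Finset (Fin d), Ak (1 / (q : ℝ)) H (β c) T.card x * ∏ i ∈ T, cs (L i : ℤ) x) ∧
      ∀ c, ∀ x ∈ Gd δ,
        |Real.sqrt d * Ak (1 / (q : ℝ)) H (β c) 1 x - 1 / (q : ℝ) * M12_a D κ c x| ≤ 2 * ε ∧
        |((d : ℝ) - 1) * Ak (1 / (q : ℝ)) H (β c) 2 x| ≤ 100 * ε ∧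
        |(d : ℝ) * Ak (1 / (q : ℝ)) H (β c) 2 x| ≤ 150 * ε ∧
        ∑ k ∈ Finset.Icc 3 d, (d.choose k : ℝ) / 2 ^ k * (Ak (1 / (q : ℝ)) H (β c) k x) ^ 2 ≤
          (600 * (1 / (q : ℝ)) ^ 3) ^ 2 := by
  have hq0 : (0 : ℝ) < q := by
    have : 0 < q := by omega
    exact_mod_cast this
  have hq11 : (11 : ℝ) ≤ q := by exact_mod_cast hq
  have hη0 : (0 : ℝ) < 1 / q := by positivity
  have hη1 : 1 / (q : ℝ) ≤ 1 / 11 := one_div_le_one_div_of_le (by norm_num) hq11
  have hae : ∀ c x, M12_a D κ c (-x) = M12_a D κ c x := by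
    intro c x
    unfold M12_a
    rw [hDe, hDe]
  have hap : ∀ c x, M12_a D κ c (x + 1) = M12_a D κ c x := by
    intro c x
    unfold M12_a
    rw [hDp, hDp]
  have ha2 : ∀ c x, M12_a D κ c x ^ 2 ≤ 1 / 4 := by
    intro c x
    have h1 := M12_a_bd hD0 hκ c x
    rw [← sq_abs]
    have h2 := abs_nonneg (M12_a D κ c x)
    nlinarith
  obtain ⟨d, hd, β, hβ⟩ := Pool.Agent.H691R3.SL.multiset_lemma (M12_z D κ)
    (by
      intro c τ
      have h1 := M12_a_cont hDc hD0 hκ c
      have h2 : Continuous (fun x => Real.sqrt (1 / 2 - M12_a D κ c x ^ 2)) :=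
        Real.continuous_sqrt.comp (continuous_const.sub (h1.pow 2))
      cases τ with
      | true => exact h1.add h2
      | false => exact h1.add h2.neg)
    (by
      intro c τ x
      unfold M12_z
      rw [hae])
    (by
      intro c τ x
      unfold M12_z
      rw [hap])
    (by
      intro c τ x
      have h1 := M12_a_bd hD0 hκ c x
      have h2 : Real.sqrt (1 / 2 - M12_a D κ c x ^ 2) ≤ 1 := by
        rw [Real.sqrt_le_iff]
        exact ⟨zero_le_one, by nlinarith [sq_nonneg (M12_a D κ c x)]⟩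
      have h3 := Real.sqrt_nonneg (1 / 2 - M12_a D κ c x ^ 2)
      rw [abs_le] at h1 ⊢
      unfold M12_z
      cases τ with
      | true =>
        rw [if_pos rfl]
        constructor <;> linarith [h1.1, h1.2]
      | false =>
        rw [if_neg (by simp)]
        constructor <;> linarith [h1.1, h1.2])
    δ ε hδ hε 3
  have hd0 : (0 : ℝ) < d := by
    have : 0 < d := by omega
    exact_mod_cast this
  obtain ⟨H, hH, hk, hkG⟩ := Pool.Agent.H691R3.SL.noise_kernel δ ((1 / (q : ℝ)) ^ 2 * ε / (10 * d)) hδ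
    (by positivity)
  obtain ⟨K, b, M, hb, hlaw⟩ := Pool.Agent.H691R3.SL.law d q H (by omega) hH β
  refine ⟨d, H, K, M, β, b, hd, hb, hlaw, fun c x hx => ?_⟩
  have hs : Real.sqrt (1 / 2 - M12_a D κ c x ^ 2) ^ 2 = 1 / 2 - M12_a D κ c x ^ 2 := by
    apply Real.sq_sqrt
    linarith [ha2 c x]
  exact Pool.Agent.H691R3.SL.A_bounds hd (1 / (q : ℝ)) hη0 hη1 H (β c) x (M12_a D κ c x)
    (Real.sqrt (1 / 2 - M12_a D κ c x ^ 2)) ε (by rw [hs]; ring) hε.le hε1
    (fun τ => (hβ c τ x hx).1) (fun τ => (hβ c τ x hx).2) (hk x).1 (hkG x hx)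

/-- the comparison of the two integrands -/
theorem M12_compare {D : Bool → ℝ → ℝ} (hD0 : ∀ c x, 0 ≤ D c x) {κ δ ε η R : ℝ} (hκ : 0 < κ)
    (hδ : 0 < δ) (hε : 0 ≤ ε) (hη0 : 0 ≤ η) (hη1 : η ≤ 1) (hR : ∀ x, D true x + D false x ≤ R)
    (A1 A2 : Bool → ℝ → ℝ)
    (hA : ∀ c, ∀ x ∈ Gd δ, |A1 c x - η * M12_a D κ c x| ≤ 2 * ε ∧ |A2 c x| ≤ 100 * ε) (x : ℝ) :
    (D true x * ((D false x * (1 / (D true x + D false x + κ))) ^ 2 -
        η * (D false x * (1 / (D true x + D false x + κ))) *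
        (chi δ x * (D true x * D false x * (1 / (D true x + D false x + κ)) ^ 2 / 2)) * A1 true x +
        η ^ 2 * (chi δ x * (D true x * D false x * (1 / (D true x + D false x + κ)) ^ 2 / 2)) ^ 2 *
          (1 / 2 + A2 true x / 4)) +
      D false x * ((1 - D false x * (1 / (D true x + D false x + κ))) ^ 2 +
        η * (1 - D false x * (1 / (D true x + D false x + κ))) *
        (chi δ x * (D true x * D false x * (1 / (D true x + D false x + κ)) ^ 2 / 2)) * A1 false x +
        η ^ 2 * (chi δ x * (D true x * D false x * (1 / (D true x + D false x + κ)) ^ 2 / 2)) ^ 2 *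
          (1 / 2 + A2 false x / 4))) ≤
    (D true x * ((D false x * (1 / (D true x + D false x + κ))) ^ 2 -
        η * (D false x * (1 / (D true x + D false x + κ))) *
        (chi δ x * (D true x * D false x * (1 / (D true x + D false x + κ)) ^ 2 / 2)) *
          (η * (D false x * (1 / (D true x + D false x + κ)) / 2)) +
        η ^ 2 * (chi δ x * (D true x * D false x * (1 / (D true x + D false x + κ)) ^ 2 / 2)) ^ 2 /
          2) +
      D false x * ((1 - D false x * (1 / (D true x + D false x + κ))) ^ 2 +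
        η * (1 - D false x * (1 / (D true x + D false x + κ))) *
        (chi δ x * (D true x * D false x * (1 / (D true x + D false x + κ)) ^ 2 / 2)) *
          (η * (-(D true x * (1 / (D true x + D false x + κ)) / 2))) +
        η ^ 2 * (chi δ x * (D true x * D false x * (1 / (D true x + D false x + κ)) ^ 2 / 2)) ^ 2 /
          2)) + R * ε := by
  have hRx := hR x
  obtain ⟨h1, h2, h3, h4⟩ := M12_pt (hD0 true x) (hD0 false x) hκ
  have hD1 := hD0 true x
  have hD2 := hD0 false x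
  have hA' := fun c => hA c x
  have ht : M12_a D κ true x = D false x * (1 / (D true x + D false x + κ)) / 2 := rfl
  have hf : M12_a D κ false x = -(D true x * (1 / (D true x + D false x + κ)) / 2) := rfl
  generalize hw : 1 / (D true x + D false x + κ) = w at *
  by_cases hx : x ∈ Gd δ
  · obtain ⟨g1, g2⟩ := hA' true hx
    obtain ⟨g3, g4⟩ := hA' false hx
    rw [ht] at g1
    rw [hf] at g3
    have hc0 := M12_chi_nonneg δ x
    have hc1 := M12_chi_le δ x
    generalize chi δ x = y at *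
    generalize D true x = a at *
    generalize D false x = e at *
    generalize A1 true x = s1 at *
    generalize A1 false x = s0 at *
    generalize A2 true x = r1 at *
    generalize A2 false x = r0 at *
    -- the cut-off
    have hv0 : 0 ≤ y * (a * e * w ^ 2 / 2) := by positivity
    have hv1 : y * (a * e * w ^ 2 / 2) ≤ 1 / 8 := by
      have h5 : a * e * w ^ 2 ≤ 1 / 4 := by
        have : a * e * w ^ 2 = (a * w) * (e * w) := by ring
        rw [this]
        nlinarith [sq_nonneg (a * w - e * w)]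
      calc y * (a * e * w ^ 2 / 2) ≤ 1 * (a * e * w ^ 2 / 2) :=
            mul_le_mul_of_nonneg_right hc1 (by positivity)
        _ ≤ 1 / 8 := by linarith
    generalize y * (a * e * w ^ 2 / 2) = v at *
    have hew : e * w ≤ 1 := by linarith
    generalize hp : e * w = p at *
    -- bounds for the four error terms
    have b1 : -(η * p * v * s1) + η * p * v * (η * (p / 2)) ≤ ε / 4 := by
      have : -(η * p * v * s1) + η * p * v * (η * (p / 2)) = (η * p * v) * (-(s1 - η * (p / 2))) := by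
        ring
      rw [this]
      have g5 : -(s1 - η * (p / 2)) ≤ 2 * ε := by linarith [(abs_le.1 g1).1]
      have g6 : η * p * v ≤ 1 / 8 := by
        have : η * p ≤ 1 := by nlinarith
        nlinarith [mul_nonneg hη0 h3]
      have g7 : 0 ≤ η * p * v := by positivity
      nlinarith
    have b2 : η * (1 - p) * v * s0 - η * (1 - p) * v * (η * (-(a * w / 2))) ≤ ε / 4 := by
      have : η * (1 - p) * v * s0 - η * (1 - p) * v * (η * (-(a * w / 2))) =
          (η * (1 - p) * v) * (s0 - η * (-(a * w / 2))) := by ring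
      rw [this]
      have g5 : s0 - η * (-(a * w / 2)) ≤ 2 * ε := (abs_le.1 g3).2
      have g8 : 0 ≤ 1 - p := by linarith
      have g6 : η * (1 - p) * v ≤ 1 / 8 := by
        have : η * (1 - p) ≤ 1 := by nlinarith
        nlinarith [mul_nonneg hη0 g8]
      have g7 : 0 ≤ η * (1 - p) * v := by positivity
      nlinarith
    have g9 : 0 ≤ η ^ 2 * v ^ 2 := by positivity
    have g10 : η ^ 2 * v ^ 2 ≤ 1 / 64 := by
      have e1 : η * v ≤ 1 / 8 := by nlinarith
      have e2 : 0 ≤ η * v := by positivity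
      nlinarith
    have b3 : η ^ 2 * v ^ 2 * (r1 / 4) ≤ 25 / 64 * ε := by
      have := (abs_le.1 g2).2
      nlinarith
    have b4 : η ^ 2 * v ^ 2 * (r0 / 4) ≤ 25 / 64 * ε := by
      have := (abs_le.1 g4).2
      nlinarith
    have key1 : a * (p ^ 2 - η * p * v * s1 + η ^ 2 * v ^ 2 * (1 / 2 + r1 / 4)) ≤
        a * (p ^ 2 - η * p * v * (η * (p / 2)) + η ^ 2 * v ^ 2 / 2) + a * ε := by
      rw [← mul_add]
      refine mul_le_mul_of_nonneg_left ?_ hD1
      linarith
    have key2 : e * ((1 - p) ^ 2 + η * (1 - p) * v * s0 + η ^ 2 * v ^ 2 * (1 / 2 + r0 / 4)) ≤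
        e * ((1 - p) ^ 2 + η * (1 - p) * v * (η * (-(a * w / 2))) + η ^ 2 * v ^ 2 / 2) +
          e * ε := by
      rw [← mul_add]
      refine mul_le_mul_of_nonneg_left ?_ hD2
      linarith
    have key3 : a * ε + e * ε ≤ R * ε := by
      rw [← add_mul]
      exact mul_le_mul_of_nonneg_right hRx hε
    linarith
  · rw [M12_chi_zero hδ hx]
    have hR0 : 0 ≤ R * ε := mul_nonneg (by linarith) hε
    simp only [zero_mul, mul_zero, sub_zero, add_zero, ne_eq, OfNat.ofNat_ne_zero,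
      not_false_eq_true, zero_pow, zero_div]
    linarith

theorem M12_int_add {f g : ℝ → ℝ} (hf : Continuous f) (hg : Continuous g) :
    ∫ x in (0:ℝ)..1, (f x + g x) = (∫ x in (0:ℝ)..1, f x) + ∫ x in (0:ℝ)..1, g x :=
  intervalIntegral.integral_add (hf.intervalIntegrable _ _) (hg.intervalIntegrable _ _)

theorem M12_int_split (m : ℕ) (a1 a2 : ℕ → ℝ) {F G : ℝ → ℝ} (hF : Continuous F)
    (hG : Continuous G) : ∫ x in (0:ℝ)..1, (tp m a1 x * F x + tp m a2 x * G x) =
      (∫ x in (0:ℝ)..1, tp m a1 x * F x) + ∫ x in (0:ℝ)..1, tp m a2 x * G x :=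
  M12_int_add ((M12_tp_cont m a1).mul hF) ((M12_tp_cont m a2).mul hG)

theorem M12_P_cont {D1 D0 p v s1 s0 r1 r0 : ℝ → ℝ} (η : ℝ) (h1 : Continuous D1)
    (h2 : Continuous D0) (h3 : Continuous p) (h4 : Continuous v) (h5 : Continuous s1)
    (h6 : Continuous s0) (h7 : Continuous r1) (h8 : Continuous r0) :
    Continuous (fun x => D1 x * (p x ^ 2 - η * p x * v x * s1 x + η ^ 2 * v x ^ 2 * r1 x) +
      D0 x * ((1 - p x) ^ 2 + η * (1 - p x) * v x * s0 x + η ^ 2 * v x ^ 2 * r0 x)) := by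
  fun_prop

theorem M12_Q_cont {D1 D0 p v s1 s0 : ℝ → ℝ} (η : ℝ) (h1 : Continuous D1)
    (h2 : Continuous D0) (h3 : Continuous p) (h4 : Continuous v) (h5 : Continuous s1)
    (h6 : Continuous s0) :
    Continuous (fun x => D1 x * (p x ^ 2 - η * p x * v x * s1 x + η ^ 2 * v x ^ 2 / 2) +
      D0 x * ((1 - p x) ^ 2 + η * (1 - p x) * v x * s0 x + η ^ 2 * v x ^ 2 / 2)) := by
  fun_prop

/-- the potential of a further set of classes -/
theorem M12_other {Θ : Type} [Fintype Θ] [Nonempty Θ] [DecidableEq Θ] (fr : Θ → List ℕ)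
    (hfr : ∀ h, Gr 0 0 (fr h)) {K B d : ℕ} (nl : Θ → Fin (K + 1) → List ℕ)
    (he : IsExt fr nl B d) (S : Finset Θ) (m : ℕ) (hm : 2 * m + 1 ≤ B) (a : ℕ → ℝ) (E : ℝ)
    (h : ∫ x in (0:ℝ)..1, ((tp m a x) ^ 2 * DD fr S x + (1 - tp m a x) ^ 2 * DD fr Sᶜ x) ≤ E) :
    Phi (ext fr nl) (lift K S) ≤ E := by
  obtain ⟨a1, ha1⟩ := M12_exists_tp (M12_T_sq (m := m) a)
  obtain ⟨a2, ha2⟩ := M12_exists_tp (M12_T_sq' (m := m) a)
  have h1 : ∀ x, tp m a x ^ 2 = tp (2 * m + 1) a1 x := fun x => congrFun ha1 x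
  have h2 : ∀ x, (1 - tp m a x) ^ 2 = tp (2 * m + 1) a2 x := fun x => congrFun ha2 x
  have hl : (lift K S)ᶜ = lift K Sᶜ := (Pool.Agent.H691R3.SL.lift_facts K S).1
  have h3 : Phi (ext fr nl) (lift K S) ≤ ∫ x in (0:ℝ)..1,
      (tp (2 * m + 1) a1 x * DD (ext fr nl) (lift K S) x +
        tp (2 * m + 1) a2 x * DD (ext fr nl) (lift K Sᶜ) x) := by
    unfold Phi
    rw [hl]
    refine M12_hm_le_int (M12_DD_cont _ _) (M12_DD_cont _ _) (M12_DD_nonneg _ _)
      (M12_DD_nonneg _ _) (((M12_tp_cont _ _).mul (M12_DD_cont _ _)).add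
        ((M12_tp_cont _ _).mul (M12_DD_cont _ _))) fun x => ?_
    rw [← h1, ← h2]
    exact Pool.Agent.H691R3.SL.hm_le _ _ _ (M12_DD_nonneg _ _ x) (M12_DD_nonneg _ _ x)
  refine h3.trans (le_trans (le_of_eq ?_) h)
  simp only [h1, h2]
  rw [M12_int_split (2 * m + 1) a1 a2 (M12_DD_cont (ext fr nl) (lift K S))
      (M12_DD_cont (ext fr nl) (lift K Sᶜ)),
    M12_int_split (2 * m + 1) a1 a2 (M12_DD_cont fr S) (M12_DD_cont fr Sᶜ),
    Pool.Agent.H691R3.SL.ext_preserve fr hfr nl B d he (2 * m + 1) hm a1 S,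
    Pool.Agent.H691R3.SL.ext_preserve fr hfr nl B d he (2 * m + 1) hm a2 Sᶜ]

theorem M12_IsExt_mono {Θ : Type} {K : ℕ} {fr : Θ → List ℕ} {nl : Θ → Fin (K + 1) → List ℕ}
    {B B' d : ℕ} (h : B ≤ B') (he : IsExt fr nl B' d) : IsExt fr nl B d :=
  ⟨he.len, fun h' a => Pool.Agent.H691R3.SL.Gr_mono B' B _ h _ (he.gr h' a)⟩

/-- M12: THE BLOCK LEMMA -/
theorem block {Θ : Type} [Fintype Θ] [Nonempty Θ] [DecidableEq Θ] (fr : Θ → List ℕ)
    (hfr : ∀ h, Gr 0 0 (fr h)) (C : Finset Θ) (q : ℕ) (hq : 11 ≤ q) (ε : ℝ) (hε : 0 < ε) (B : ℕ) :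
    ∃ (K d : ℕ) (nl : Θ → Fin (K + 1) → List ℕ), 0 < d ∧ IsExt fr nl B d ∧
      L1d fr (ext fr nl) ≤ 600 / (q : ℝ) ^ 3 + ε ∧
      Phi (ext fr nl) (lift K C) ≤ Phi fr C - 1 / (8 * (q : ℝ) ^ 2) * (Phi fr C) ^ 2 + ε ∧
      ∀ S : Finset Θ, Phi (ext fr nl) (lift K S) ≤ Phi fr S + ε := by
  classical
  have hq0 : (0 : ℝ) < q := by
    have : 0 < q := by omega
    exact_mod_cast this
  have hq11 : (11 : ℝ) ≤ q := by exact_mod_cast hq
  have hη0 : (0 : ℝ) < 1 / q := by positivity
  have hη11 : 1 / (q : ℝ) ≤ 1 / 11 := one_div_le_one_div_of_le (by norm_num) hq11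
  have hη1 : 1 / (q : ℝ) ≤ 1 := hη11.trans (by norm_num)
  -- the densities
  obtain ⟨D, hDt, hDf⟩ : ∃ D : Bool → ℝ → ℝ, D true = DD fr C ∧ D false = DD fr Cᶜ :=
    ⟨fun c => if c then DD fr C else DD fr Cᶜ, rfl, rfl⟩
  have hDc : ∀ c, Continuous (D c) := by
    intro c
    cases c with
    | true => rw [hDt]; exact M12_DD_cont _ _
    | false => rw [hDf]; exact M12_DD_cont _ _
  have hD0 : ∀ c x, 0 ≤ D c x := by
    intro c x
    cases c with
    | true => rw [hDt]; exact M12_DD_nonneg _ _ _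
    | false => rw [hDf]; exact M12_DD_nonneg _ _ _
  have hDe : ∀ c x, D c (-x) = D c x := by
    intro c x
    cases c with
    | true => rw [hDt]; exact M12_DD_even _ _ _
    | false => rw [hDf]; exact M12_DD_even _ _ _
  have hDp : ∀ c x, D c (x + 1) = D c x := by
    intro c x
    cases c with
    | true => rw [hDt]; exact M12_DD_per _ _ _
    | false => rw [hDf]; exact M12_DD_per _ _ _
  have hD1 : ∫ x in (0:ℝ)..1, (D true x + D false x) = 1 := by
    rw [hDt, hDf]
    exact M12_DD_int fr hfr C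
  obtain ⟨R, hR1, hR⟩ := M12_DD_bound fr
  have hR0 : 0 < R := by linarith
  have hRx : ∀ x, D true x + D false x ≤ R := by
    intro x
    rw [hDt, hDf, M12_DD_add]
    exact hR _ _
  -- the cut-offs
  obtain ⟨κ, δ, hκ, hδ, hδ1, hχ, hpc⟩ := Pool.Agent.H691R3.SL.potential_choice D hDc hD0 hD1 (ε / 8)
    (by positivity)
  have hpc' := hpc (1 / (q : ℝ)) hη0.le hη1
  -- the gadget
  obtain ⟨ε2, hε2, hε21, hε2R⟩ : ∃ ε2 : ℝ, 0 < ε2 ∧ ε2 ≤ 1 ∧ 150 * ε2 * R ≤ ε / 4 := by
    refine ⟨min 1 (ε / (600 * R)), lt_min one_pos (by positivity), min_le_left _ _, ?_⟩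
    have h1 : min 1 (ε / (600 * R)) ≤ ε / (600 * R) := min_le_right _ _
    calc 150 * min 1 (ε / (600 * R)) * R ≤ 150 * (ε / (600 * R)) * R := by
          gcongr
      _ = ε / 4 := by
          field_simp
          norm_num
  obtain ⟨d, H, K, M, β, b, hd, hb, hlaw, hbd⟩ := M12_gadget D hDc hD0 hDe hDp hκ hδ q hq hε2 hε21
  -- the witnesses of the other sets
  choose mS hmS using fun S : Finset Θ => Pool.Agent.H691R3.SL.witness fr S (Phi fr S + ε) (by linarith)
  obtain ⟨m, hmm⟩ : ∃ m : ℕ, ∀ S, mS S ≤ m :=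
    ⟨Finset.univ.sup mS, fun S => Finset.le_sup (Finset.mem_univ S)⟩
  obtain ⟨B', hB', hmB⟩ : ∃ B' : ℕ, B ≤ B' ∧ 2 * m + 1 ≤ B' :=
    ⟨max B (2 * m + 1), le_max_left _ _, le_max_right _ _⟩
  -- the slow coefficients
  have hAc : ∀ (c : Bool) (k : ℕ), Continuous (Ak (1 / (q : ℝ)) H (β c) k) :=
    fun c k => M12_Ak_cont _ _ _ _
  have hA0 : ∀ (c : Bool) (x : ℝ), Ak (1 / (q : ℝ)) H (β c) 0 x = 1 := by
    intro c x
    unfold Ak
    rw [(Pool.Agent.H691R3.SL.esn_one_two (show 2 ≤ d by omega) _).1, (Pool.Agent.H691R3.SL.esn_one_two (show 2 ≤ d by omega) _).1]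
    norm_num
  have hpos : ∀ (c : Bool) (Λ : ℕ) (x : ℝ), 0 ≤ GA (d := d) (Ak (1 / (q : ℝ)) H (β c)) Λ x := by
    intro c Λ x
    have h1 : GA (d := d) (Ak (1 / (q : ℝ)) H (β c)) Λ x =
        (∑ a, ∏ i, (1 + cs ((LL Λ i : ℤ) + b c a i) x)) / ((K : ℝ) + 1) :=
      (hlaw c (fun i => LL Λ i) x).symm
    rw [h1]
    refine div_nonneg (Finset.sum_nonneg fun a _ => Finset.prod_nonneg fun i _ => ?_)
      (by positivity)
    have : -1 ≤ cs ((LL Λ i : ℤ) + b c a i) x := Real.neg_one_le_cos _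
    linarith
  -- the flatness
  have hw0 : ∀ x, 0 < D true x + D false x + κ := by
    intro x
    have h1 := hD0 true x
    have h2 := hD0 false x
    linarith
  have hflat := Pool.Agent.H691R3.SL.flat_limit hd (1 / (q : ℝ)) δ (150 * ε2 * R) hη0 hη11 D hDc hD0 hD1
    (fun c => Ak (1 / (q : ℝ)) H (β c)) hAc hA0 hpos (by positivity)
    (by
      intro x hx
      have g1 := (hbd true x hx).1
      have g0 := (hbd false x hx).1
      have ht : M12_a D κ true x = D false x * (1 / (D true x + D false x + κ)) / 2 := rfl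
      have hf : M12_a D κ false x = -(D true x * (1 / (D true x + D false x + κ)) / 2) := rfl
      have e1 : D true x * M12_a D κ true x + D false x * M12_a D κ false x = 0 := by
        rw [ht, hf]; ring
      have e2 : Real.sqrt d * (D true x * Ak (1 / (q : ℝ)) H (β true) 1 x +
          D false x * Ak (1 / (q : ℝ)) H (β false) 1 x) =
          D true x * (Real.sqrt d * Ak (1 / (q : ℝ)) H (β true) 1 x -
            1 / (q : ℝ) * M12_a D κ true x) +
          D false x * (Real.sqrt d * Ak (1 / (q : ℝ)) H (β false) 1 x -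
            1 / (q : ℝ) * M12_a D κ false x) := by
        linear_combination (1 / (q : ℝ)) * e1
      show |Real.sqrt d * (D true x * Ak (1 / (q : ℝ)) H (β true) 1 x +
          D false x * Ak (1 / (q : ℝ)) H (β false) 1 x)| ≤ 150 * ε2 * R
      rw [e2]
      have hD1 := hD0 true x
      have hD2 := hD0 false x
      have hRx' := hRx x
      calc _ ≤ D true x * (2 * ε2) + D false x * (2 * ε2) := by
            refine (abs_add_le _ _).trans (add_le_add ?_ ?_)
            · rw [abs_mul, abs_of_nonneg hD1]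
              exact mul_le_mul_of_nonneg_left g1 hD1
            · rw [abs_mul, abs_of_nonneg hD2]
              exact mul_le_mul_of_nonneg_left g0 hD2
        _ ≤ R * (2 * ε2) := by
            rw [← add_mul]
            exact mul_le_mul_of_nonneg_right hRx' (by positivity)
        _ ≤ 150 * ε2 * R := by nlinarith [mul_pos hR0 hε2])
    (by
      intro x hx
      have g1 := (hbd true x hx).2.2.1
      have g0 := (hbd false x hx).2.2.1
      have e2 : (d : ℝ) * (D true x * Ak (1 / (q : ℝ)) H (β true) 2 x +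
          D false x * Ak (1 / (q : ℝ)) H (β false) 2 x) =
          D true x * ((d : ℝ) * Ak (1 / (q : ℝ)) H (β true) 2 x) +
          D false x * ((d : ℝ) * Ak (1 / (q : ℝ)) H (β false) 2 x) := by ring
      show |(d : ℝ) * (D true x * Ak (1 / (q : ℝ)) H (β true) 2 x +
          D false x * Ak (1 / (q : ℝ)) H (β false) 2 x)| ≤ 150 * ε2 * R
      rw [e2]
      have hD1 := hD0 true x
      have hD2 := hD0 false x
      have hRx' := hRx x
      calc _ ≤ D true x * (150 * ε2) + D false x * (150 * ε2) := by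
            refine (abs_add_le _ _).trans (add_le_add ?_ ?_)
            · rw [abs_mul, abs_of_nonneg hD1]
              exact mul_le_mul_of_nonneg_left g1 hD1
            · rw [abs_mul, abs_of_nonneg hD2]
              exact mul_le_mul_of_nonneg_left g0 hD2
        _ ≤ R * (150 * ε2) := by
            rw [← add_mul]
            exact mul_le_mul_of_nonneg_right hRx' (by positivity)
        _ = 150 * ε2 * R := by ring)
    (fun c x hx => (hbd c x hx).2.2.2) (ε / 4) (by positivity)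
  -- the potential
  have hwc := M12_w_cont hDc hD0 hκ
  have hpcont : Continuous (fun x => D false x * (1 / (D true x + D false x + κ))) :=
    (hDc false).mul hwc
  have hvcont : Continuous (fun x => chi δ x *
      (D true x * D false x * (1 / (D true x + D false x + κ)) ^ 2 / 2)) :=
    (M12_chi_cont δ).mul ((((hDc true).mul (hDc false)).mul (hwc.pow 2)).div_const _)
  have hpot := Pool.Agent.H691R3.SL.pot_limit (show 2 ≤ d by omega) (1 / (q : ℝ)) D hDc
    (fun c => Ak (1 / (q : ℝ)) H (β c)) hAc hA0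
    (fun x => D false x * (1 / (D true x + D false x + κ)))
    (fun x => chi δ x * (D true x * D false x * (1 / (D true x + D false x + κ)) ^ 2 / 2))
    hpcont hvcont (ε / 4) (by positivity)
  -- the choice of the large parameter
  have hgr : ∀ᶠ Λ : ℕ in atTop, ∀ h : Θ, ∀ b' : Fin d → ℤ, (∀ i, |b' i| ≤ M) →
      Gr B' (fr h).sum (List.ofFn fun i => ((LL Λ i : ℤ) + b' i).toNat) ∧
        ∀ i, (((LL Λ i : ℤ) + b' i).toNat : ℤ) = (LL Λ i : ℤ) + b' i :=
    eventually_all.2 fun h => Pool.Agent.H691R3.SL.Gr_block d B' (fr h).sum M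
  obtain ⟨Λ, ⟨hflatΛ, hpotΛ⟩, hgrΛ⟩ := ((hflat.and hpot).and hgr).exists
  obtain ⟨nl, hnl⟩ : ∃ nl : Θ → Fin (K + 1) → List ℕ, nl = (fun h a =>
      List.ofFn fun i => ((LL Λ i : ℤ) + b (decide (h ∈ C)) a i).toNat) := ⟨_, rfl⟩
  have hext : IsExt fr nl B' d := by
    refine ⟨fun h a => ?_, fun h a => ?_⟩
    · rw [hnl]
      exact List.length_ofFn
    · rw [hnl]
      exact (hgrΛ h (b (decide (h ∈ C)) a) (hb _ a)).1
  obtain ⟨h0⟩ := ‹Nonempty Θ›
  haveI : Nonempty Θ := ⟨h0⟩
  have hblk : ∀ (S : Finset Θ) (x : ℝ), DD (ext fr nl) (lift K S) x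
      = DD fr (S ∩ C) x * GA (d := d) (Ak (1 / (q : ℝ)) H (β true)) Λ x
        + DD fr (S \ C) x * GA (d := d) (Ak (1 / (q : ℝ)) H (β false)) Λ x := by
    intro S x
    rw [hnl]
    exact (Pool.Agent.H691R3.SL.DD_block fr C d q H K β b hlaw Λ
      (fun c a i => (hgrΛ h0 (b c a) (hb c a)).2 i) S x).1
  have hGc : ∀ c, Continuous (GA (d := d) (Ak (1 / (q : ℝ)) H (β c)) Λ) :=
    fun c => M12_GA_cont _ (hAc c) Λ
  refine ⟨K, d, nl, by omega, M12_IsExt_mono hB' hext, ?_, ?_, ?_⟩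
  · -- flatness
    have e1 : ∀ x, DD (ext fr nl) Finset.univ x - DD fr Finset.univ x =
        (D true x * GA (d := d) (Ak (1 / (q : ℝ)) H (β true)) Λ x +
          D false x * GA (d := d) (Ak (1 / (q : ℝ)) H (β false)) Λ x) -
          (D true x + D false x) := by
      intro x
      rw [← (Pool.Agent.H691R3.SL.lift_facts K (Finset.univ : Finset Θ)).2, hblk, hDt, hDf, ← M12_DD_add fr C x,
        Finset.univ_inter, ← Finset.compl_eq_univ_sdiff]
    unfold L1d
    simp only [e1]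
    have h1 : 600 * (1 / (q : ℝ)) ^ 3 = 600 / (q : ℝ) ^ 3 := by
      rw [one_div, inv_pow]; rfl
    rw [← h1]
    refine hflatΛ.trans ?_
    linarith
  · -- the potential of `C`
    have hl : (lift K C)ᶜ = lift K Cᶜ := (Pool.Agent.H691R3.SL.lift_facts K C).1
    have e1 : ∀ x, DD (ext fr nl) (lift K C) x =
        D true x * GA (d := d) (Ak (1 / (q : ℝ)) H (β true)) Λ x := by
      intro x
      rw [hblk, Finset.inter_self, Finset.sdiff_self, M12_DD_empty, hDt]
      ring
    have e2 : ∀ x, DD (ext fr nl) (lift K Cᶜ) x =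
        D false x * GA (d := d) (Ak (1 / (q : ℝ)) H (β false)) Λ x := by
      intro x
      have h1 : Cᶜ ∩ C = ∅ := by
        rw [Finset.inter_comm]
        exact Finset.inter_compl C
      have h2 : Cᶜ \ C = Cᶜ := by
        ext y
        simp
      rw [hblk, h1, h2, M12_DD_empty, hDf]
      ring
    have hPhi : Phi fr C = ∫ x in (0:ℝ)..1, hm (D true x) (D false x) := by
      unfold Phi
      rw [hDt, hDf]
    have s1 : Phi (ext fr nl) (lift K C) ≤ ∫ x in (0:ℝ)..1,
        ((D false x * (1 / (D true x + D false x + κ)) - 1 / (q : ℝ) *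
            (chi δ x * (D true x * D false x * (1 / (D true x + D false x + κ)) ^ 2 / 2)) *
            Fs d Λ x) ^ 2 * (D true x * GA (d := d) (Ak (1 / (q : ℝ)) H (β true)) Λ x) +
          (1 - (D false x * (1 / (D true x + D false x + κ)) - 1 / (q : ℝ) *
            (chi δ x * (D true x * D false x * (1 / (D true x + D false x + κ)) ^ 2 / 2)) *
            Fs d Λ x)) ^ 2 *
            (D false x * GA (d := d) (Ak (1 / (q : ℝ)) H (β false)) Λ x)) := by
      unfold Phi
      rw [hl]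
      simp only [e1, e2]
      have hpp : Continuous (fun x => D false x * (1 / (D true x + D false x + κ)) -
          1 / (q : ℝ) * (chi δ x *
            (D true x * D false x * (1 / (D true x + D false x + κ)) ^ 2 / 2)) * Fs d Λ x) :=
        hpcont.sub ((continuous_const.mul hvcont).mul (M12_Fs_cont d Λ))
      refine M12_hm_le_int ((hDc true).mul (hGc true)) ((hDc false).mul (hGc false))
        (fun x => mul_nonneg (hD0 true x) (hpos true Λ x))
        (fun x => mul_nonneg (hD0 false x) (hpos false Λ x))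
        (((hpp.pow 2).mul ((hDc true).mul (hGc true))).add
          (((continuous_const.sub hpp).pow 2).mul ((hDc false).mul (hGc false)))) fun x => ?_
      exact Pool.Agent.H691R3.SL.hm_le _ _ _ (mul_nonneg (hD0 true x) (hpos true Λ x))
        (mul_nonneg (hD0 false x) (hpos false Λ x))
    have s2 := s1.trans hpotΛ
    -- comparison of the integrands
    have hcomp := M12_compare hD0 hκ hδ hε2.le hη0.le hη1 hRx
      (fun c x => Real.sqrt d * Ak (1 / (q : ℝ)) H (β c) 1 x)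
      (fun c x => ((d : ℝ) - 1) * Ak (1 / (q : ℝ)) H (β c) 2 x)
      (fun c x hx => ⟨(hbd c x hx).1, (hbd c x hx).2.1⟩)
    have c1 := M12_P_cont (s1 := fun x => Real.sqrt d * Ak (1 / (q : ℝ)) H (β true) 1 x)
      (s0 := fun x => Real.sqrt d * Ak (1 / (q : ℝ)) H (β false) 1 x)
      (r1 := fun x => (1 / 2 : ℝ) + ((d : ℝ) - 1) / 4 * Ak (1 / (q : ℝ)) H (β true) 2 x)
      (r0 := fun x => (1 / 2 : ℝ) + ((d : ℝ) - 1) / 4 * Ak (1 / (q : ℝ)) H (β false) 2 x)
      (1 / (q : ℝ)) (hDc true) (hDc false) hpcont hvcont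
      (continuous_const.mul (hAc true 1)) (continuous_const.mul (hAc false 1))
      (continuous_const.add (continuous_const.mul (hAc true 2)))
      (continuous_const.add (continuous_const.mul (hAc false 2)))
    have c2 := M12_Q_cont
      (s1 := fun x => 1 / (q : ℝ) * (D false x * (1 / (D true x + D false x + κ)) / 2))
      (s0 := fun x => 1 / (q : ℝ) * (-(D true x * (1 / (D true x + D false x + κ)) / 2)))
      (1 / (q : ℝ)) (hDc true) (hDc false) hpcont hvcont
      (continuous_const.mul (((hDc false).mul hwc).div_const 2))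
      (continuous_const.mul (((hDc true).mul hwc).div_const 2).neg)
    have s3 := intervalIntegral.integral_mono (μ := volume) (show (0:ℝ) ≤ 1 by norm_num)
      (c1.intervalIntegrable 0 1)
      ((c2.add (continuous_const : Continuous fun _ : ℝ => R * ε2)).intervalIntegrable 0 1)
      (fun x => by
        refine le_trans (le_of_eq ?_) (hcomp x)
        beta_reduce
        ring)
    have s4 : ∫ x in (0:ℝ)..1, (R * ε2) = R * ε2 := by
      rw [intervalIntegral.integral_const]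
      simp
    have s5 := M12_int_add c2 (continuous_const : Continuous fun _ : ℝ => R * ε2)
    rw [s4] at s5
    have s6 := s3.trans (le_of_eq s5)
    have s7 := hpc'
    rw [hPhi]
    have e3 : 1 / (8 * (q : ℝ) ^ 2) = (1 / (q : ℝ)) ^ 2 / 8 := by
      field_simp
    rw [e3]
    rw [hPhi] at *
    linarith
  · -- the other sets
    intro S
    obtain ⟨a, ha⟩ := hmS S m (hmm S)
    exact M12_other fr hfr nl hext S m hmB a _ ha

end

end Pool.Agent.H691R3.SL
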