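import Pool.Agent.H691R3.SL.Defs
import Pool.Agent.H691R3.SLF.F_M12
import Pool.Agent.H691R3.SLF.F_M12A
import Pool.Agent.H691R3.SLF.F_M12E
/-!
# M13: one class is decoded
-/

namespace Pool.Agent.H691R3.SL

open MeasureTheory Set Filter Topology
open scoped Real BigOperators

noncomputable section

theorem M13_cont {Θ : Type} [Fintype Θ] (fr : Θ → List ℕ) (S : Finset Θ) :
    Continuous (DD fr S) := by
  unfold DD
  apply Continuous.div_const
  apply continuous_finsetSum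
  intro h _
  exact (Pool.Agent.H691R3.SL.RP_basic (fr h)).1

theorem M13_gr {Θ : Type} {K : ℕ} (fr : Θ → List ℕ) (hfr : ∀ h, Gr 0 0 (fr h))
    (nl : Θ → Fin (K + 1) → List ℕ) (B d : ℕ) (h : IsExt fr nl B d) : ∀ p, Gr 0 0 (ext fr nl p) := by
  intro p
  unfold ext
  rw [Pool.Agent.H691R3.SL.Gr_append]
  refine ⟨hfr p.1, ?_⟩
  rw [zero_add]
  exact Pool.Agent.H691R3.SL.Gr_mono B 0 _ (Nat.zero_le _) _ (h.gr p.1 p.2)

theorem M13_Phi {Θ : Type} [Fintype Θ] [Nonempty Θ] [DecidableEq Θ] {K₁ K₂ K : ℕ}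
    (fr : Θ → List ℕ) (nl₁ : Θ → Fin (K₁ + 1) → List ℕ)
    (nl₂ : Θ × Fin (K₁ + 1) → Fin (K₂ + 1) → List ℕ) (nl : Θ → Fin (K + 1) → List ℕ)
    (h : ∀ (S : Finset Θ) (x : ℝ),
        DD (ext fr nl) (lift K S) x = DD (ext (ext fr nl₁) nl₂) (lift K₂ (lift K₁ S)) x)
    (S : Finset Θ) :
    Phi (ext fr nl) (lift K S) = Phi (ext (ext fr nl₁) nl₂) (lift K₂ (lift K₁ S)) := by
  unfold Phi
  rw [(Pool.Agent.H691R3.SL.lift_facts K S).1, (Pool.Agent.H691R3.SL.lift_facts K₂ (lift K₁ S)).1, (Pool.Agent.H691R3.SL.lift_facts K₁ S).1]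
  simp only [h]

theorem M13_L1d {Θ : Type} [Fintype Θ] [Nonempty Θ] [DecidableEq Θ] {K₁ K₂ K : ℕ}
    (fr : Θ → List ℕ) (nl₁ : Θ → Fin (K₁ + 1) → List ℕ)
    (nl₂ : Θ × Fin (K₁ + 1) → Fin (K₂ + 1) → List ℕ) (nl : Θ → Fin (K + 1) → List ℕ)
    (h : ∀ (S : Finset Θ) (x : ℝ),
        DD (ext fr nl) (lift K S) x = DD (ext (ext fr nl₁) nl₂) (lift K₂ (lift K₁ S)) x) :
    L1d fr (ext fr nl) ≤ L1d fr (ext fr nl₁) + L1d (ext fr nl₁) (ext (ext fr nl₁) nl₂) := by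
  have hu : ∀ x, DD (ext fr nl) Finset.univ x = DD (ext (ext fr nl₁) nl₂) Finset.univ x := by
    intro x
    have := h Finset.univ x
    rwa [(Pool.Agent.H691R3.SL.lift_facts K (Finset.univ : Finset Θ)).2, (Pool.Agent.H691R3.SL.lift_facts K₁ (Finset.univ : Finset Θ)).2,
      (Pool.Agent.H691R3.SL.lift_facts K₂ (Finset.univ : Finset (Θ × Fin (K₁ + 1)))).2] at this
  unfold L1d
  have c0 := M13_cont fr Finset.univ
  have c1 := M13_cont (ext fr nl₁) Finset.univ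
  have c2 := M13_cont (ext (ext fr nl₁) nl₂) Finset.univ
  have i1 : IntervalIntegrable (fun x => |DD (ext fr nl₁) Finset.univ x - DD fr Finset.univ x|) volume 0 1 :=
    (c1.sub c0).abs.intervalIntegrable _ _
  have i2 : IntervalIntegrable (fun x => |DD (ext (ext fr nl₁) nl₂) Finset.univ x - DD (ext fr nl₁) Finset.univ x|)
      volume 0 1 := (c2.sub c1).abs.intervalIntegrable _ _
  have i3 : IntervalIntegrable (fun x => |DD (ext fr nl) Finset.univ x - DD fr Finset.univ x|) volume 0 1 := by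
    simp only [hu]
    exact (c2.sub c0).abs.intervalIntegrable _ _
  rw [← intervalIntegral.integral_add i1 i2]
  apply intervalIntegral.integral_mono_on (by norm_num) i3 (i1.add i2)
  intro x _
  rw [hu]
  have := abs_sub_le (DD (ext (ext fr nl₁) nl₂) Finset.univ x) (DD (ext fr nl₁) Finset.univ x)
    (DD fr Finset.univ x)
  linarith

/-- one step of the recursion for the potential -/
theorem M13_rec (P P' P0 c q ε ε' : ℝ) (J : ℕ) (hq : 0 < q) (hε : 0 < ε) (hε' : 0 < ε')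
    (hc : c = ε ^ 2 / (64 * q ^ 2)) (hc' : ε' ≤ c)
    (h1 : P' ≤ P - 1 / (8 * q ^ 2) * P ^ 2 + ε') (h2 : P ≤ max (P0 - J * c) (ε / 2 + ε')) :
    P' ≤ max (P0 - (J + 1 : ℝ) * c) (ε / 2 + ε') := by
  rcases le_or_gt (ε / 2) P with h | h
  · have h3 : (ε / 2) ^ 2 ≤ P ^ 2 := pow_le_pow_left₀ (by positivity) h 2
    have h4 : 2 * c ≤ 1 / (8 * q ^ 2) * P ^ 2 := by
      have e : 2 * c = 1 / (8 * q ^ 2) * (ε / 2) ^ 2 := by rw [hc]; field_simp; ring
      rw [e]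
      exact mul_le_mul_of_nonneg_left h3 (by positivity)
    have h5 : P' ≤ P - c := by linarith
    have hcpos : 0 < c := lt_of_lt_of_le hε' hc'
    rcases le_max_iff.mp h2 with h6 | h6
    · exact le_max_of_le_left (by linarith)
    · exact le_max_of_le_right (by linarith)
  · apply le_max_of_le_right
    have : 0 ≤ 1 / (8 * q ^ 2) * P ^ 2 := by positivity
    linarith

theorem M13_iter {Θ : Type} [Fintype Θ] [Nonempty Θ] [DecidableEq Θ] (fr : Θ → List ℕ)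
    (hfr : ∀ h, Gr 0 0 (fr h)) (C : Finset Θ) (q : ℕ) (hq : 11 ≤ q) (ε ε' c : ℝ) (hε : 0 < ε) (hε' : 0 < ε')
    (hc : c = ε ^ 2 / (64 * (q : ℝ) ^ 2)) (hc' : ε' ≤ c) (B : ℕ) (J : ℕ) :
    ∃ (K d : ℕ) (nl : Θ → Fin (K + 1) → List ℕ), 0 < d ∧ IsExt fr nl B d ∧
      L1d fr (ext fr nl) ≤ ((J : ℝ) + 1) * (600 / (q : ℝ) ^ 3 + ε') ∧
      Phi (ext fr nl) (lift K C) ≤ max (Phi fr C - ((J : ℝ) + 1) * c) (ε / 2 + ε') ∧
      ∀ S : Finset Θ, Phi (ext fr nl) (lift K S) ≤ Phi fr S + ((J : ℝ) + 1) * ε' := by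
  have hq0 : (0 : ℝ) < q := by
    have : 0 < q := by omega
    exact_mod_cast this
  induction J with
  | zero =>
    obtain ⟨K, d, nl, hd, hI, hL, hP, hS⟩ := Pool.Agent.H691R3.SL.block fr hfr C q hq ε' hε' B
    refine ⟨K, d, nl, hd, hI, ?_, ?_, ?_⟩
    · simpa using hL
    · have := M13_rec (Phi fr C) _ (Phi fr C) c q ε ε' 0 hq0 hε hε' hc hc' hP (by simp)
      simpa using this
    · intro S; simpa using hS S
  | succ J ih =>
    obtain ⟨K₁, d₁, nl₁, hd₁, hI₁, hL₁, hP₁, hS₁⟩ := ih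
    obtain ⟨K₂, d₂, nl₂, hd₂, hI₂, hL₂, hP₂, hS₂⟩ :=
      Pool.Agent.H691R3.SL.block (ext fr nl₁) (M13_gr fr hfr nl₁ B d₁ hI₁) (lift K₁ C) q hq ε' hε' B
    obtain ⟨K, nl, hI, hDD⟩ := Pool.Agent.H691R3.SL.ext_comp fr nl₁ nl₂ B d₁ d₂ hI₁ hI₂
    refine ⟨K, d₁ + d₂, nl, by omega, hI, ?_, ?_, ?_⟩
    · refine (M13_L1d fr nl₁ nl₂ nl hDD).trans ?_
      push_cast
      linarith
    · rw [M13_Phi fr nl₁ nl₂ nl hDD]
      have := M13_rec _ _ (Phi fr C) c q ε ε' (J + 1) hq0 hε hε' hc hc' hP₂ (by push_cast; exact hP₁)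
      simpa using this
    · intro S
      rw [M13_Phi fr nl₁ nl₂ nl hDD]
      have h1 := hS₂ (lift K₁ S)
      have h2 := hS₁ S
      push_cast
      linarith

/-- M13 (uses M12): one class is decoded -/
theorem decode_one {Θ : Type} [Fintype Θ] [Nonempty Θ] [DecidableEq Θ] (fr : Θ → List ℕ)
    (hfr : ∀ h, Gr 0 0 (fr h)) (C : Finset Θ) (ε : ℝ) (hε : 0 < ε) (B : ℕ) :
    ∃ (K d : ℕ) (nl : Θ → Fin (K + 1) → List ℕ), 0 < d ∧ IsExt fr nl B d ∧
      L1d fr (ext fr nl) ≤ ε ∧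
      Phi (ext fr nl) (lift K C) ≤ ε ∧
      ∀ S : Finset Θ, Phi (ext fr nl) (lift K S) ≤ Phi fr S + ε := by
  set P0 := |Phi fr C| with hP0
  have hP0n : 0 ≤ P0 := abs_nonneg _
  have hP0l : Phi fr C ≤ P0 := le_abs_self _
  -- choice of q
  obtain ⟨q, hq1⟩ := exists_nat_ge (max 11 ((64 * P0 / ε ^ 2 + 2) * 600 * 2 / ε))
  have hq11 : 11 ≤ q := by
    have : ((11 : ℕ) : ℝ) ≤ q := by
      push_cast; exact (le_max_left _ _).trans hq1
    exact_mod_cast this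
  have hq2 : (64 * P0 / ε ^ 2 + 2) * 600 * 2 / ε ≤ q := (le_max_right _ _).trans hq1
  have hq0 : (0 : ℝ) < q := by
    have : 0 < q := by omega
    exact_mod_cast this
  have hq1' : (1 : ℝ) ≤ q := by
    have : 1 ≤ q := by omega
    exact_mod_cast this
  -- choice of J
  set J := ⌈P0 * (64 * (q : ℝ) ^ 2) / ε ^ 2⌉₊ with hJ
  have hJ1 : P0 * (64 * (q : ℝ) ^ 2) / ε ^ 2 ≤ J := Nat.le_ceil _
  have hJ2 : (J : ℝ) < P0 * (64 * (q : ℝ) ^ 2) / ε ^ 2 + 1 := Nat.ceil_lt_add_one (by positivity)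
  have hJ3 : (0 : ℝ) ≤ J := Nat.cast_nonneg _
  set c := ε ^ 2 / (64 * (q : ℝ) ^ 2) with hc
  have hcpos : 0 < c := by positivity
  set ε' := min (min c (ε / 2)) (ε / (2 * (J + 1))) with hε'
  have hε'pos : 0 < ε' := by
    apply lt_min
    · exact lt_min hcpos (by positivity)
    · positivity
  have hε'1 : ε' ≤ c := (min_le_left _ _).trans (min_le_left _ _)
  have hε'2 : ε' ≤ ε / 2 := (min_le_left _ _).trans (min_le_right _ _)
  have hε'3 : ((J : ℝ) + 1) * ε' ≤ ε / 2 := by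
    have : ε' ≤ ε / (2 * (J + 1)) := min_le_right _ _
    calc ((J : ℝ) + 1) * ε' ≤ (J + 1) * (ε / (2 * (J + 1))) := mul_le_mul_of_nonneg_left this (by positivity)
      _ = ε / 2 := by field_simp
  obtain ⟨K, d, nl, hd, hI, hL, hP, hS⟩ := M13_iter fr hfr C q hq11 ε ε' c hε hε'pos hc hε'1 B J
  refine ⟨K, d, nl, hd, hI, hL.trans ?_, hP.trans ?_, fun S => (hS S).trans (by linarith)⟩
  · -- L1 bound
    have h1 : ((J : ℝ) + 1) * (600 / (q : ℝ) ^ 3) ≤ ε / 2 := by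
      have h2 : (J : ℝ) + 1 ≤ (64 * P0 / ε ^ 2 + 2) * (q : ℝ) ^ 2 := by
        have h3 : (1 : ℝ) ≤ (q : ℝ) ^ 2 := one_le_pow₀ hq1'
        have e : P0 * (64 * (q : ℝ) ^ 2) / ε ^ 2 = 64 * P0 / ε ^ 2 * (q : ℝ) ^ 2 := by ring
        rw [e] at hJ2
        nlinarith
      calc ((J : ℝ) + 1) * (600 / (q : ℝ) ^ 3)
          ≤ ((64 * P0 / ε ^ 2 + 2) * (q : ℝ) ^ 2) * (600 / (q : ℝ) ^ 3) :=
            mul_le_mul_of_nonneg_right h2 (by positivity)
        _ = ((64 * P0 / ε ^ 2 + 2) * 600) / q := by field_simp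
        _ ≤ ε / 2 := by
            rw [div_le_iff₀ hq0]
            rw [div_le_iff₀ hε] at hq2
            linarith
    rw [mul_add]
    linarith
  · apply max_le
    · have h1 : P0 ≤ (J : ℝ) * c := by
        rw [hc]
        rw [div_le_iff₀ (by positivity)] at hJ1
        rw [mul_div_assoc', le_div_iff₀ (by positivity)]
        linarith
      nlinarith
    · linarith

end

end Pool.Agent.H691R3.SL
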