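import Pool.Agent.H691R3.SL.Defs
import Pool.Agent.H691R3.SLF.F_M12A
import Pool.Agent.H691R3.SLF.F_M12E
import Pool.Agent.H691R3.SLF.F_M13
/-!
# M14: all classes are decoded
-/

namespace Pool.Agent.H691R3.SL

open MeasureTheory Set Filter Topology
open scoped Real BigOperators

noncomputable section

theorem M14_DD_cont {Θ : Type} [Fintype Θ] (fr : Θ → List ℕ) (S : Finset Θ) :
    Continuous (DD fr S) := by
  unfold DD
  exact (continuous_finsetSum _ fun h _ => (Pool.Agent.H691R3.SL.RP_basic (fr h)).1).div_const _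

theorem M14_gr {Θ : Type} {K : ℕ} (fr : Θ → List ℕ) (hfr : ∀ h, Gr 0 0 (fr h))
    (nl : Θ → Fin (K + 1) → List ℕ) {B d : ℕ} (he : IsExt fr nl B d) (h : Θ × Fin (K + 1)) :
    Gr 0 0 (ext fr nl h) := by
  unfold ext
  rw [Pool.Agent.H691R3.SL.Gr_append, Nat.zero_add]
  exact ⟨hfr h.1, Pool.Agent.H691R3.SL.Gr_mono B 0 _ (Nat.zero_le _) _ (he.gr h.1 h.2)⟩

theorem M14_L1 {Θ Θ' Θ'' : Type} [Fintype Θ] [Fintype Θ'] [Fintype Θ''] (fr : Θ → List ℕ)
    (fr' : Θ' → List ℕ) (fr'' : Θ'' → List ℕ) : L1d fr fr'' ≤ L1d fr fr' + L1d fr' fr'' := by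
  unfold L1d
  have c1 := M14_DD_cont fr Finset.univ
  have c2 := M14_DD_cont fr' Finset.univ
  have c3 := M14_DD_cont fr'' Finset.univ
  have i1 : IntervalIntegrable (fun x => |DD fr' Finset.univ x - DD fr Finset.univ x|)
      volume 0 1 := (c2.sub c1).abs.intervalIntegrable 0 1
  have i2 : IntervalIntegrable (fun x => |DD fr'' Finset.univ x - DD fr' Finset.univ x|)
      volume 0 1 := (c3.sub c2).abs.intervalIntegrable 0 1
  have i3 : IntervalIntegrable (fun x => |DD fr'' Finset.univ x - DD fr Finset.univ x|)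
      volume 0 1 := (c3.sub c1).abs.intervalIntegrable 0 1
  rw [← intervalIntegral.integral_add i1 i2]
  refine intervalIntegral.integral_mono_on zero_le_one i3 (i1.add i2) fun x _ => ?_
  have h : DD fr'' Finset.univ x - DD fr Finset.univ x =
      (DD fr' Finset.univ x - DD fr Finset.univ x) +
      (DD fr'' Finset.univ x - DD fr' Finset.univ x) := by ring
  simp only [h]
  exact abs_add_le _ _

theorem M14_aux {Θ : Type} [Fintype Θ] [Nonempty Θ] [DecidableEq Θ] (fr : Θ → List ℕ)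
    (hfr : ∀ h, Gr 0 0 (fr h)) (ε : ℝ) (hε : 0 < ε) (B : ℕ) (F : Finset (Finset Θ))
    (hF : F.Nonempty) :
    ∃ (K d : ℕ) (nl : Θ → Fin (K + 1) → List ℕ), 0 < d ∧ IsExt fr nl B d ∧
      L1d fr (ext fr nl) ≤ F.card * ε ∧ ∀ S ∈ F, Phi (ext fr nl) (lift K S) ≤ F.card * ε := by
  induction hF using Finset.Nonempty.cons_induction with
  | singleton C =>
    obtain ⟨K, d, nl, h1, h2, h3, h4, _⟩ := Pool.Agent.H691R3.SL.decode_one fr hfr C ε hε B
    refine ⟨K, d, nl, h1, h2, by simpa using h3, fun S hS => ?_⟩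
    rw [Finset.mem_singleton] at hS
    subst hS
    simpa using h4
  | cons C F hC hF ih =>
    obtain ⟨K₁, d₁, nl₁, h1, h2, h3, h4⟩ := ih
    obtain ⟨K₂, d₂, nl₂, g1, g2, g3, g4, g5⟩ := Pool.Agent.H691R3.SL.decode_one (ext fr nl₁)
      (M14_gr fr hfr nl₁ h2) (lift K₁ C) ε hε B
    obtain ⟨K, nl, e1, e2⟩ := Pool.Agent.H691R3.SL.ext_comp fr nl₁ nl₂ B d₁ d₂ h2 g2
    have hcard : ((Finset.cons C F hC).card : ℝ) = F.card + 1 := by
      rw [Finset.card_cons]; push_cast; ring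
    have hlift : ∀ S : Finset Θ, (lift K₂ (lift K₁ S))ᶜ = lift K₂ (lift K₁ Sᶜ) := fun S => by
      rw [(Pool.Agent.H691R3.SL.lift_facts K₂ (lift K₁ S)).1, (Pool.Agent.H691R3.SL.lift_facts K₁ S).1]
    have hPhi : ∀ S : Finset Θ, Phi (ext fr nl) (lift K S) =
        Phi (ext (ext fr nl₁) nl₂) (lift K₂ (lift K₁ S)) := fun S => by
      unfold Phi
      refine intervalIntegral.integral_congr fun x _ => ?_
      simp only [(Pool.Agent.H691R3.SL.lift_facts K S).1, e2, hlift S]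
    have hL : L1d fr (ext fr nl) = L1d fr (ext (ext fr nl₁) nl₂) := by
      unfold L1d
      refine intervalIntegral.integral_congr fun x _ => ?_
      have h5 : DD (ext fr nl) Finset.univ x = DD (ext (ext fr nl₁) nl₂) Finset.univ x := by
        rw [← (Pool.Agent.H691R3.SL.lift_facts K (Finset.univ : Finset Θ)).2, e2,
          (Pool.Agent.H691R3.SL.lift_facts K₁ (Finset.univ : Finset Θ)).2,
          (Pool.Agent.H691R3.SL.lift_facts K₂ (Finset.univ : Finset (Θ × Fin (K₁ + 1)))).2]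
      simp only [h5]
    have hFε : 0 ≤ (F.card : ℝ) * ε := by positivity
    refine ⟨K, d₁ + d₂, nl, by omega, e1, ?_, fun S hS => ?_⟩
    · rw [hL, hcard]
      have := M14_L1 fr (ext fr nl₁) (ext (ext fr nl₁) nl₂)
      linarith
    · rw [hPhi S, hcard]
      rw [Finset.mem_cons] at hS
      rcases hS with rfl | hS
      · linarith
      · have h6 := g5 (lift K₁ S)
        have h7 := h4 S hS
        linarith

/-- M14 (uses M13): all classes are decoded -/
theorem macro_step {Θ : Type} [Fintype Θ] [Nonempty Θ] [DecidableEq Θ] (fr : Θ → List ℕ)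
    (hfr : ∀ h, Gr 0 0 (fr h)) (ε : ℝ) (hε : 0 < ε) (B : ℕ) :
    ∃ (K d : ℕ) (nl : Θ → Fin (K + 1) → List ℕ), 0 < d ∧ IsExt fr nl B d ∧
      L1d fr (ext fr nl) ≤ ε ∧ ∀ S : Finset Θ, Phi (ext fr nl) (lift K S) ≤ ε := by
  set N : ℕ := (Finset.univ : Finset (Finset Θ)).card with hN
  have hN0 : (0 : ℝ) < N := by
    have : 0 < N := Finset.card_pos.2 Finset.univ_nonempty
    exact_mod_cast this
  obtain ⟨K, d, nl, h1, h2, h3, h4⟩ := M14_aux fr hfr (ε / N) (div_pos hε hN0) B Finset.univ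
    Finset.univ_nonempty
  rw [← hN, mul_div_cancel₀ _ hN0.ne'] at h3 h4
  exact ⟨K, d, nl, h1, h2, h3, fun S => h4 S (Finset.mem_univ S)⟩

end

end Pool.Agent.H691R3.SL
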