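import Pool.Agent.H691R3.SL.Defs
import Pool.Agent.H691R3.SLF.F_M12A
import Pool.Agent.H691R3.SLF.F_M14
import Pool.Agent.H691R3.SLF.F_M15
/-!
# M16: the data exist
-/

namespace Pool.Agent.H691R3.SL

open MeasureTheory Set Filter Topology
open scoped Real BigOperators

noncomputable section

theorem M16_cont {Θ : Type} [Fintype Θ] (fr : Θ → List ℕ) (S : Finset Θ) :
    Continuous (DD fr S) := by
  unfold DD
  apply Continuous.div_const
  apply continuous_finsetSum
  intro h _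
  exact (Pool.Agent.H691R3.SL.RP_basic (fr h)).1

theorem M16_gr {Θ : Type} {K : ℕ} (fr : Θ → List ℕ) (hfr : ∀ h, Gr 0 0 (fr h))
    (nl : Θ → Fin (K + 1) → List ℕ) (B d : ℕ) (h : IsExt fr nl B d) : ∀ p, Gr 0 0 (ext fr nl p) := by
  intro p
  unfold ext
  rw [Pool.Agent.H691R3.SL.Gr_append]
  refine ⟨hfr p.1, ?_⟩
  rw [zero_add]
  exact Pool.Agent.H691R3.SL.Gr_mono B 0 _ (Nat.zero_le _) _ (h.gr p.1 p.2)

/-! ### positivity of the densities -/

theorem M16_null (n : ℕ) : volume {x : ℝ | 1 + cs (n : ℤ) x = 0} = 0 := by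
  have hsub : {x : ℝ | 1 + cs (n : ℤ) x = 0} ⊆ Set.range (fun k : ℤ => (π + k * (2 * π)) / (2 * π * n)) := by
    intro x hx
    have hx' : Real.cos (2 * π * ((n : ℤ) : ℝ) * x) = -1 := by
      have : 1 + Real.cos (2 * π * ((n : ℤ) : ℝ) * x) = 0 := hx
      linarith
    rw [Real.cos_eq_neg_one_iff] at hx'
    obtain ⟨k, hk⟩ := hx'
    have hn : (n : ℝ) ≠ 0 := by
      rintro h0
      have : ((n : ℤ) : ℝ) = 0 := by push_cast; exact h0
      rw [this] at hk
      have h1 : π * (1 + 2 * (k : ℝ)) = 0 := by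
        have : π + (k : ℝ) * (2 * π) = 0 := by rw [hk]; ring
        linarith
      rcases mul_eq_zero.mp h1 with h2 | h2
      · exact Real.pi_ne_zero h2
      · have h3 : (1 + 2 * k : ℤ) = 0 := by exact_mod_cast h2
        omega
    refine ⟨k, ?_⟩
    have h2 : (2 * π * (n : ℝ)) ≠ 0 := by
      have := Real.pi_ne_zero
      positivity
    show (π + (k : ℝ) * (2 * π)) / (2 * π * n) = x
    rw [div_eq_iff h2, hk]
    push_cast; ring
  exact measure_mono_null hsub ((Set.countable_range _).measure_zero volume)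

theorem M16_RP_pos (l : List ℕ) : ∀ᵐ x : ℝ, 0 < RP l x := by
  induction l with
  | nil =>
    filter_upwards with x
    simp [RP]
  | cons n l ih =>
    have h1 : ∀ᵐ x : ℝ, 1 + cs (n : ℤ) x ≠ 0 := by
      rw [ae_iff]
      simpa using M16_null n
    filter_upwards [ih, h1] with x hx h2
    have e : RP (n :: l) x = (1 + cs (n : ℤ) x) * RP l x := by simp [RP]
    rw [e]
    have h3 : 0 ≤ 1 + cs (n : ℤ) x := by
      have : -1 ≤ cs (n : ℤ) x := Real.neg_one_le_cos _
      linarith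
    exact mul_pos (lt_of_le_of_ne h3 (Ne.symm h2)) hx

theorem M16_DD_pos {Θ : Type} [Fintype Θ] [Nonempty Θ] (fr : Θ → List ℕ) :
    ∀ᵐ x : ℝ, 0 < DD fr Finset.univ x := by
  have h1 : ∀ᵐ x : ℝ, ∀ h : Θ, 0 < RP (fr h) x := by
    rw [ae_all_iff]
    intro h
    exact M16_RP_pos (fr h)
  filter_upwards [h1] with x hx
  unfold DD
  apply div_pos
  · exact Finset.sum_pos (fun h _ => hx h) Finset.univ_nonempty
  · exact_mod_cast Fintype.card_pos

theorem M16_tau {Θ : Type} [Fintype Θ] [Nonempty Θ] (fr : Θ → List ℕ) (τ ε : ℝ) (hτ : 0 < τ)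
    (hε : 0 < ε) : ∃ τ' : ℝ, 0 < τ' ∧ τ' ≤ τ ∧
      volume {x : ℝ | x ∈ Icc (0:ℝ) 1 ∧ DD fr Finset.univ x < τ'} ≤ ENNReal.ofReal ε := by
  set A : ℕ → Set ℝ := fun n => {x : ℝ | x ∈ Icc (0:ℝ) 1 ∧ DD fr Finset.univ x < 1 / ((n : ℝ) + 1)} with hA
  have hcont := M16_cont fr Finset.univ
  have hmeas : ∀ n, MeasurableSet (A n) := by
    intro n
    have : A n = Icc (0:ℝ) 1 ∩ (DD fr Finset.univ) ⁻¹' (Iio (1 / ((n : ℝ) + 1))) := rfl
    rw [this]
    exact measurableSet_Icc.inter (hcont.measurable measurableSet_Iio)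
  have hanti : Antitone A := by
    intro n m hnm x hx
    refine ⟨hx.1, hx.2.trans_le ?_⟩
    apply one_div_le_one_div_of_le (by positivity)
    have : (n : ℝ) ≤ m := by exact_mod_cast hnm
    linarith
  have hfin : ∃ i, volume (A i) ≠ ⊤ := by
    refine ⟨0, ?_⟩
    have : volume (A 0) ≤ volume (Icc (0:ℝ) 1) := measure_mono fun x hx => hx.1
    refine ne_top_of_le_ne_top ?_ this
    simp
  have hlim := tendsto_measure_iInter_atTop (μ := volume) (fun i => (hmeas i).nullMeasurableSet) hanti hfin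
  have hzero : volume (⋂ n, A n) = 0 := by
    have h1 := M16_DD_pos fr
    rw [ae_iff] at h1
    refine measure_mono_null ?_ h1
    intro x hx
    simp only [mem_iInter] at hx
    show ¬ (0 < DD fr Finset.univ x)
    intro hpos
    obtain ⟨n, hn⟩ := exists_nat_one_div_lt hpos
    have := (hx n).2
    linarith
  rw [hzero] at hlim
  have hε' : (0 : ENNReal) < ENNReal.ofReal ε := by simpa using hε
  have hev := hlim.eventually (gt_mem_nhds hε')
  obtain ⟨n, hn⟩ := hev.exists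
  refine ⟨min τ (1 / ((n : ℝ) + 1)), lt_min hτ (by positivity), min_le_left _ _, ?_⟩
  refine le_trans (measure_mono ?_) (le_of_lt hn)
  intro x hx
  exact ⟨hx.1, hx.2.trans_le (min_le_right _ _)⟩

/-! ### the recursion -/

/-- state of the recursion -/
structure M16St : Type 1 where
  Θ : Type
  ft : Fintype Θ
  de : DecidableEq Θ
  ne : Nonempty Θ
  fr : Θ → List ℕ
  hfr : ∀ h, Gr 0 0 (fr h)
  m : ℕ
  τ : ℝ
  hτ : 0 < τ

attribute [instance] M16St.ft M16St.de M16St.ne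

/-- one step of the recursion -/
structure M16Stp (k : ℕ) (s : M16St) : Type where
  K : ℕ
  d : ℕ
  nl : s.Θ → Fin (K + 1) → List ℕ
  d_pos : 0 < d
  isExt : IsExt s.fr nl (2 * s.m) d
  L1 : L1d s.fr (ext s.fr nl) ≤ (1 / 2 : ℝ) ^ (k + 1) * min 1 s.τ
  m' : ℕ
  m'_ge : k + 1 < m'
  wit : ∀ c : s.Θ, ∃ a : ℕ → ℝ,
    ∫ x in (0:ℝ)..1, ((tp m' a x) ^ 2 * DD (ext s.fr nl) (lift K {c}) x
        + (1 - tp m' a x) ^ 2 * DD (ext s.fr nl) (lift K {c})ᶜ x)
      ≤ ((1 / 2 : ℝ) ^ k / (Fintype.card s.Θ : ℝ)) ^ 2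
  τ' : ℝ
  τ'_pos : 0 < τ'
  τ'_le : τ' ≤ s.τ
  τ'_vol : volume {x : ℝ | x ∈ Icc (0:ℝ) 1 ∧ DD (ext s.fr nl) Finset.univ x < τ'}
    ≤ ENNReal.ofReal ((1 / 2 : ℝ) ^ (k + 1))

theorem M16_step (k : ℕ) (s : M16St) : Nonempty (M16Stp k s) := by
  have hcard : (0 : ℝ) < Fintype.card s.Θ := by exact_mod_cast Fintype.card_pos
  have hmin : 0 < min 1 s.τ := lt_min one_pos s.hτ
  set target : ℝ := ((1 / 2 : ℝ) ^ k / (Fintype.card s.Θ : ℝ)) ^ 2 with htarget
  have htpos : 0 < target := by positivity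
  set ε : ℝ := min ((1 / 2 : ℝ) ^ (k + 1) * min 1 s.τ) (target / 2) with hεdef
  have hε : 0 < ε := lt_min (by positivity) (by positivity)
  obtain ⟨K, d, nl, hd, hI, hL, hP⟩ := Pool.Agent.H691R3.SL.macro_step s.fr s.hfr ε hε (2 * s.m)
  have hw : ∀ c : s.Θ, ∃ m : ℕ, ∀ M, m ≤ M → ∃ a : ℕ → ℝ,
      ∫ x in (0:ℝ)..1, ((tp M a x) ^ 2 * DD (ext s.fr nl) (lift K {c}) x
        + (1 - tp M a x) ^ 2 * DD (ext s.fr nl) (lift K {c})ᶜ x) ≤ target := by
    intro c
    apply Pool.Agent.H691R3.SL.witness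
    refine lt_of_le_of_lt (hP {c}) ?_
    refine lt_of_le_of_lt (min_le_right _ _) ?_
    linarith
  choose m0 hm0 using hw
  obtain ⟨τ', hτ'1, hτ'2, hτ'3⟩ := M16_tau (ext s.fr nl) s.τ ((1 / 2 : ℝ) ^ (k + 1)) s.hτ (by positivity)
  exact ⟨{ K := K, d := d, nl := nl, d_pos := hd, isExt := hI, L1 := hL.trans (min_le_left _ _),
           m' := max (k + 2) (Finset.univ.sup m0), m'_ge := lt_of_lt_of_le (by omega) (le_max_left _ _),
           wit := fun c => hm0 c _ (le_trans (Finset.le_sup (Finset.mem_univ c)) (le_max_right _ _)),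
           τ' := τ', τ'_pos := hτ'1, τ'_le := hτ'2, τ'_vol := hτ'3 }⟩

/-- the chosen step -/
def M16ch (k : ℕ) (s : M16St) : M16Stp k s := Classical.choice (M16_step k s)

/-- the next state -/
def M16next (k : ℕ) (s : M16St) : M16St where
  Θ := s.Θ × Fin ((M16ch k s).K + 1)
  ft := inferInstance
  de := inferInstance
  ne := inferInstance
  fr := ext s.fr (M16ch k s).nl
  hfr := M16_gr s.fr s.hfr _ _ _ (M16ch k s).isExt
  m := (M16ch k s).m'
  τ := (M16ch k s).τ'
  hτ := (M16ch k s).τ'_pos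

/-- the initial state -/
def M16init : M16St where
  Θ := Unit
  ft := inferInstance
  de := inferInstance
  ne := inferInstance
  fr := fun _ => []
  hfr := fun _ => trivial
  m := 1
  τ := 1
  hτ := one_pos

/-- the sequence of states -/
def M16seq : ℕ → M16St
  | 0 => M16init
  | k + 1 => M16next k (M16seq k)

/-- the sequence of the numbers of parameters -/
def M16K (k : ℕ) : ℕ := (M16ch k (M16seq k)).K

/-- identification of the classes -/
def M16e : (k : ℕ) → Th M16K k ≃ (M16seq k).Θ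
  | 0 => Equiv.refl Unit
  | k + 1 => Equiv.prodCongr (M16e k) (Equiv.refl (Fin (M16K k + 1)))

/-- frequencies -/
def M16fr (k : ℕ) (c : Th M16K k) : List ℕ := (M16seq k).fr (M16e k c)

/-- new frequencies -/
def M16nl (k : ℕ) (c : Th M16K k) (a : Fin (M16K k + 1)) : List ℕ :=
  (M16ch k (M16seq k)).nl (M16e k c) a

theorem M16_DD_equiv {Θ Θ' : Type} [Fintype Θ] [Fintype Θ'] (e : Θ ≃ Θ') (fr : Θ → List ℕ)
    (fr' : Θ' → List ℕ) (h : ∀ p, fr p = fr' (e p)) (S : Finset Θ) (S' : Finset Θ')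
    (hS : ∀ p, p ∈ S ↔ e p ∈ S') (x : ℝ) : DD fr S x = DD fr' S' x := by
  unfold DD
  rw [Fintype.card_congr e]
  congr 1
  apply Finset.sum_bij (fun p _ => e p)
  · intro p hp; exact (hS p).1 hp
  · intro p _ q _ hpq; exact e.injective hpq
  · intro q hq
    refine ⟨e.symm q, ?_, by simp⟩
    rw [hS]; simpa using hq
  · intro p _; rw [h]

theorem M16_lift_mem {Θ Θ' : Type} [DecidableEq Θ] [DecidableEq Θ'] (e : Θ ≃ Θ') (K : ℕ) (c : Θ)
    (p : Θ × Fin (K + 1)) : p ∈ lift K ({c} : Finset Θ) ↔ (e p.1, p.2) ∈ lift K ({e c} : Finset Θ') := by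
  obtain ⟨p1, p2⟩ := p
  simp only [lift, Finset.mem_product, Finset.mem_singleton, Finset.mem_univ, and_true]
  exact e.injective.eq_iff.symm

/-- the densities -/
def M16rho (k : ℕ) (x : ℝ) : ℝ := DD (M16seq k).fr Finset.univ x

theorem M16rho_cont (k : ℕ) : Continuous (M16rho k) := M16_cont _ _

theorem M16rho_eq (k : ℕ) (x : ℝ) : DD (M16fr k) Finset.univ x = M16rho k x :=
  M16_DD_equiv (M16e k) _ _ (fun _ => rfl) _ _ (fun p => by simp) x

theorem M16rho_step (k : ℕ) : ∫ x in (0:ℝ)..1, |M16rho (k + 1) x - M16rho k x|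
    ≤ (1 / 2 : ℝ) ^ (k + 1) * min 1 (M16seq k).τ := (M16ch k (M16seq k)).L1

theorem M16tau_step (k : ℕ) : (M16seq (k + 1)).τ ≤ (M16seq k).τ := (M16ch k (M16seq k)).τ'_le

theorem M16tau_anti {i j : ℕ} (h : i ≤ j) : (M16seq j).τ ≤ (M16seq i).τ := by
  have := antitone_nat_of_succ_le (f := fun k => (M16seq k).τ) M16tau_step
  exact this h

theorem M16vol (k : ℕ) : volume {x : ℝ | x ∈ Icc (0:ℝ) 1 ∧ M16rho k x < (M16seq k).τ}
    ≤ ENNReal.ofReal ((1 / 2 : ℝ) ^ k) := by
  cases k with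
  | zero =>
    have : {x : ℝ | x ∈ Icc (0:ℝ) 1 ∧ M16rho 0 x < (M16seq 0).τ} = ∅ := by
      ext x
      simp only [mem_ofPred_eq, mem_empty_iff_false, iff_false, not_and, not_lt]
      intro _
      have e1 : (M16seq 0).τ = 1 := rfl
      have e2 : M16rho 0 x = DD (fun _ : Unit => ([] : List ℕ)) Finset.univ x := rfl
      rw [e1, e2]
      simp [DD, RP]
    rw [this]
    simp
  | succ k => exact (M16ch k (M16seq k)).τ'_vol

/-! ### the limit density -/

/-- Lebesgue measure on `(0,1]` -/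
abbrev M16μ : Measure ℝ := volume.restrict (Ioc (0:ℝ) 1)

theorem M16_int {f : ℝ → ℝ} (hf : Continuous f) : Integrable f M16μ :=
  (intervalIntegrable_iff_integrableOn_Ioc_of_le zero_le_one).1 (hf.intervalIntegrable 0 1)

/-- the densities in `L¹` -/
def M16F (k : ℕ) : Lp ℝ 1 M16μ := (M16_int (M16rho_cont k)).toL1 (M16rho k)

theorem M16_norm_sub (k : ℕ) (G : Lp ℝ 1 M16μ) :
    dist (M16F k) G = ∫ x, |M16rho k x - G x| ∂M16μ := by
  rw [dist_eq_norm, L1.norm_eq_integral_norm]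
  apply integral_congr_ae
  have h1 := Lp.coeFn_sub (M16F k) G
  have h2 : (M16F k : ℝ → ℝ) =ᵐ[M16μ] M16rho k := (M16_int (M16rho_cont k)).coeFn_toL1
  filter_upwards [h1, h2] with x hx1 hx2
  rw [hx1, Pi.sub_apply, hx2, Real.norm_eq_abs]

theorem M16_dist_succ (k : ℕ) : dist (M16F k) (M16F (k + 1)) ≤ (1 / 2 : ℝ) ^ (k + 1) * min 1 (M16seq k).τ := by
  rw [M16_norm_sub]
  have h2 : (M16F (k + 1) : ℝ → ℝ) =ᵐ[M16μ] M16rho (k + 1) := (M16_int (M16rho_cont (k + 1))).coeFn_toL1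
  have e : ∫ x, |M16rho k x - M16F (k + 1) x| ∂M16μ = ∫ x in (0:ℝ)..1, |M16rho (k + 1) x - M16rho k x| := by
    rw [intervalIntegral.integral_of_le zero_le_one]
    apply integral_congr_ae
    filter_upwards [h2] with x hx
    rw [hx, abs_sub_comm]
  rw [e]
  exact M16rho_step k

theorem M16_exists_lim : ∃ G : Lp ℝ 1 M16μ, ∀ k, dist (M16F k) G ≤ (1 / 2 : ℝ) ^ k * min 1 (M16seq k).τ := by
  have hmin : ∀ k, 0 < min 1 (M16seq k).τ := fun k => lt_min one_pos (M16seq k).hτ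
  have hstep : ∀ k n, dist (M16F (k + n)) (M16F (k + n + 1)) ≤
      ((1 / 2 : ℝ) ^ (k + 1) * min 1 (M16seq k).τ) * (1 / 2 : ℝ) ^ n := by
    intro k n
    refine (M16_dist_succ (k + n)).trans ?_
    have h1 : min 1 (M16seq (k + n)).τ ≤ min 1 (M16seq k).τ :=
      min_le_min le_rfl (M16tau_anti (Nat.le_add_right k n))
    calc (1 / 2 : ℝ) ^ (k + n + 1) * min 1 (M16seq (k + n)).τ
        ≤ (1 / 2 : ℝ) ^ (k + n + 1) * min 1 (M16seq k).τ := mul_le_mul_of_nonneg_left h1 (by positivity)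
      _ = ((1 / 2 : ℝ) ^ (k + 1) * min 1 (M16seq k).τ) * (1 / 2 : ℝ) ^ n := by ring
  have hcs : CauchySeq M16F := by
    apply cauchySeq_of_le_geometric (1 / 2 : ℝ) ((1 / 2 : ℝ) ^ (0 + 1) * min 1 (M16seq 0).τ) (by norm_num)
    intro n
    have := hstep 0 n
    rwa [zero_add] at this
  obtain ⟨G, hG⟩ := cauchySeq_tendsto_of_complete hcs
  refine ⟨G, fun k => ?_⟩
  have hG' : Tendsto (fun n => M16F (k + n)) atTop (𝓝 G) := by
    have h := hG.comp (tendsto_add_atTop_nat k)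
    refine h.congr fun n => ?_
    simp [Function.comp, add_comm]
  have := dist_le_of_le_geometric_of_tendsto₀ (1 / 2 : ℝ) ((1 / 2 : ℝ) ^ (k + 1) * min 1 (M16seq k).τ)
    (by norm_num) (fun n => by simpa [add_assoc] using hstep k n) hG'
  simp only [add_zero] at this
  refine this.trans (le_of_eq ?_)
  rw [pow_succ]; ring

theorem M16_pos (G : Lp ℝ 1 M16μ)
    (hG : ∀ k, dist (M16F k) G ≤ (1 / 2 : ℝ) ^ k * min 1 (M16seq k).τ) : ∀ᵐ x ∂M16μ, 0 < G x := by
  rw [ae_iff]
  have key : ∀ k : ℕ, M16μ.real {x | ¬ 0 < G x} ≤ 2 * (1 / 2 : ℝ) ^ k := by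
    intro k
    set A := {x : ℝ | M16rho k x < (M16seq k).τ} with hA
    set Bs := {x : ℝ | (M16seq k).τ ≤ |M16rho k x - G x|} with hB
    have hsub : {x | ¬ 0 < G x} ⊆ A ∪ Bs := by
      intro x hx
      have hx' : G x ≤ 0 := not_lt.mp hx
      rcases lt_or_ge (M16rho k x) (M16seq k).τ with h | h
      · exact Or.inl h
      · refine Or.inr ?_
        show (M16seq k).τ ≤ |M16rho k x - G x|
        refine le_trans ?_ (le_abs_self _)
        linarith
    have hτ := (M16seq k).hτ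
    have h1 : M16μ.real A ≤ (1 / 2 : ℝ) ^ k := by
      rw [Measure.real]
      apply ENNReal.toReal_le_of_le_ofReal (by positivity)
      refine le_trans ?_ (M16vol k)
      have hmeas : MeasurableSet A := (M16rho_cont k).measurable measurableSet_Iio
      rw [Measure.restrict_apply hmeas]
      apply measure_mono
      intro x hx
      exact ⟨⟨hx.2.1.le, hx.2.2⟩, hx.1⟩
    have h2 : M16μ.real Bs ≤ (1 / 2 : ℝ) ^ k := by
      have hint : Integrable (fun x => |M16rho k x - G x|) M16μ :=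
        ((M16_int (M16rho_cont k)).sub (L1.integrable_coeFn G)).abs
      have h3 := mul_meas_ge_le_integral_of_nonneg (μ := M16μ) (f := fun x => |M16rho k x - G x|)
        (Eventually.of_forall fun x => abs_nonneg _) hint (M16seq k).τ
      have h4 := hG k
      rw [M16_norm_sub] at h4
      have h5 : (1 / 2 : ℝ) ^ k * min 1 (M16seq k).τ ≤ (1 / 2 : ℝ) ^ k * (M16seq k).τ :=
        mul_le_mul_of_nonneg_left (min_le_right _ _) (by positivity)
      have h6 : (M16seq k).τ * M16μ.real Bs ≤ (M16seq k).τ * (1 / 2 : ℝ) ^ k := by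
        have : (M16seq k).τ * M16μ.real Bs ≤ ∫ x, |M16rho k x - G x| ∂M16μ := h3
        linarith
      exact le_of_mul_le_mul_left h6 hτ
    calc M16μ.real {x | ¬ 0 < G x} ≤ M16μ.real (A ∪ Bs) := measureReal_mono hsub
      _ ≤ M16μ.real A + M16μ.real Bs := measureReal_union_le _ _
      _ ≤ 2 * (1 / 2 : ℝ) ^ k := by linarith
  have hlim : Tendsto (fun k : ℕ => 2 * (1 / 2 : ℝ) ^ k) atTop (𝓝 0) := by
    have := (tendsto_pow_atTop_nhds_zero_of_lt_one (r := (1 / 2 : ℝ)) (by norm_num) (by norm_num)).const_mul 2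
    simpa using this
  have h0 : M16μ.real {x | ¬ 0 < G x} ≤ 0 := ge_of_tendsto' hlim key
  have h1 : M16μ.real {x | ¬ 0 < G x} = 0 := le_antisymm h0 measureReal_nonneg
  rwa [measureReal_eq_zero_iff] at h1

/-- M16 (uses M14, M15): the data exist -/
theorem exists_data : Nonempty Data := by
  obtain ⟨G, hG⟩ := M16_exists_lim
  have hpos := M16_pos G hG
  have hGint : Integrable G M16μ := L1.integrable_coeFn G
  refine ⟨{
    K := M16K
    fr := M16fr
    nl := M16nl
    mm := fun k => (M16seq k).m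
    mm_ge := ?_
    d := fun k => (M16ch k (M16seq k)).d
    fr_zero := fun c => rfl
    fr_succ := fun k c a => rfl
    d_pos := fun k => (M16ch k (M16seq k)).d_pos
    len := fun k c a => (M16ch k (M16seq k)).isExt.len (M16e k c) a
    gr := fun k c a => (M16ch k (M16seq k)).isExt.gr (M16e k c) a
    rho := G
    rho_int := ?_
    rho_pos := ?_
    rho_lim := ?_
    wit := ?_ }⟩
  · intro k
    cases k with
    | zero => exact Nat.one_pos
    | succ k => exact (M16ch k (M16seq k)).m'_ge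
  · rw [intervalIntegrable_iff_integrableOn_Ioc_of_le zero_le_one]
    exact hGint
  · rw [← Measure.restrict_congr_set (Ioc_ae_eq_Icc (a := (0:ℝ)) (b := 1))]
    exact hpos
  · have hle : ∀ k, ∫ x in (0:ℝ)..1, |DD (M16fr k) Finset.univ x - G x| ≤ (1 / 2 : ℝ) ^ k := by
      intro k
      have h1 := hG k
      rw [M16_norm_sub] at h1
      have e : ∫ x in (0:ℝ)..1, |DD (M16fr k) Finset.univ x - G x| = ∫ x, |M16rho k x - G x| ∂M16μ := by
        rw [intervalIntegral.integral_of_le zero_le_one]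
        simp only [M16rho_eq]
      rw [e]
      refine h1.trans ?_
      calc (1 / 2 : ℝ) ^ k * min 1 (M16seq k).τ ≤ (1 / 2 : ℝ) ^ k * 1 :=
            mul_le_mul_of_nonneg_left (min_le_left _ _) (by positivity)
        _ = (1 / 2 : ℝ) ^ k := mul_one _
    refine squeeze_zero (fun k => ?_) hle
      (tendsto_pow_atTop_nhds_zero_of_lt_one (by norm_num) (by norm_num))
    exact intervalIntegral.integral_nonneg zero_le_one fun x _ => abs_nonneg _
  · intro k c
    obtain ⟨a, ha⟩ := (M16ch k (M16seq k)).wit (M16e k c)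
    refine ⟨a, ?_⟩
    have hcard : Fintype.card (Th M16K k) = Fintype.card (M16seq k).Θ := Fintype.card_congr (M16e k)
    rw [hcard]
    refine le_trans (le_of_eq ?_) ha
    apply intervalIntegral.integral_congr
    intro x _
    have h1 : DD (M16fr (k + 1)) (lift (M16K k) {c}) x =
        DD (ext (M16seq k).fr (M16ch k (M16seq k)).nl) (lift (M16ch k (M16seq k)).K {M16e k c}) x :=
      M16_DD_equiv (M16e (k + 1)) _ _ (fun _ => rfl) _ _ (fun p => M16_lift_mem (M16e k) (M16K k) c p) x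
    have h2 : DD (M16fr (k + 1)) (lift (M16K k) {c})ᶜ x =
        DD (ext (M16seq k).fr (M16ch k (M16seq k)).nl) (lift (M16ch k (M16seq k)).K {M16e k c})ᶜ x := by
      refine M16_DD_equiv (M16e (k + 1)) _ _ (fun _ => rfl) _ _ (fun p => ?_) x
      have := M16_lift_mem (M16e k) (M16K k) c p
      exact (Finset.mem_compl.trans (not_congr this)).trans Finset.mem_compl.symm
    show (tp (M16seq (k + 1)).m a x) ^ 2 * DD (M16fr (k + 1)) (lift (M16K k) {c}) x
        + (1 - tp (M16seq (k + 1)).m a x) ^ 2 * DD (M16fr (k + 1)) (lift (M16K k) {c})ᶜ x = _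
    rw [h1, h2]
    rfl

end

end Pool.Agent.H691R3.SL
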