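import Pool.Agent.H691R3.SL.Defs
import Pool.Agent.H691R3.SLF.F_M1
/-!
# M7: the law of the random frequencies
-/

namespace Pool.Agent.H691R3.SL

open MeasureTheory Set Filter Topology
open scoped Real BigOperators

noncomputable section

/-- value of one coordinate -/
def M7_val {q H : ℕ} (m : ℕ) (s : Fin q × Bool × Fin H × Fin H) : ℤ :=
  if (s.1 : ℕ) = 0 then (if s.2.1 then (m : ℤ) else -(m : ℤ))
  else ((s.2.2.1 : ℕ) : ℤ) - ((s.2.2.2 : ℕ) : ℤ)

theorem M7_aux_cs (a b : ℤ) (x : ℝ) : cs (a + b) x + cs (a - b) x = 2 * (cs a x * cs b x) := by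
  have h1 : 2 * π * ((a + b : ℤ) : ℝ) * x = 2 * π * (a : ℝ) * x + 2 * π * (b : ℝ) * x := by
    push_cast; ring
  have h2 : 2 * π * ((a - b : ℤ) : ℝ) * x = 2 * π * (a : ℝ) * x - 2 * π * (b : ℝ) * x := by
    push_cast; ring
  rw [cs, cs, cs, cs, h1, h2, Real.cos_add, Real.cos_sub]
  ring

/-- the symmetrised noise -/
theorem M7_aux_noise (H : ℕ) (L : ℤ) (x : ℝ) :
    (∑ u : Fin H, ∑ w : Fin H, cs (L + (((u : ℕ) : ℤ) - ((w : ℕ) : ℤ))) x)
      = cs L x * (kap H x * (H : ℝ) ^ 2) := by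
  rcases Nat.eq_zero_or_pos H with rfl | hH
  · simp
  have hH' : (H : ℝ) ^ 2 ≠ 0 := by positivity
  rw [kap, div_mul_cancel₀ _ hH']
  have h0 : (∑ u ∈ Finset.range H, ∑ w ∈ Finset.range H, cs ((u : ℤ) - (w : ℤ)) x)
      = ∑ u : Fin H, ∑ w : Fin H, cs (((u : ℕ) : ℤ) - ((w : ℕ) : ℤ)) x := by
    rw [← Fin.sum_univ_eq_sum_range (fun u => ∑ w ∈ Finset.range H, cs ((u : ℤ) - (w : ℤ)) x) H]
    refine Finset.sum_congr rfl fun u _ => ?_
    rw [← Fin.sum_univ_eq_sum_range (fun w => cs (((u : ℕ) : ℤ) - (w : ℤ)) x) H]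
  rw [h0]
  have h1 : (∑ u : Fin H, ∑ w : Fin H, cs (L + (((u : ℕ) : ℤ) - ((w : ℕ) : ℤ))) x)
      = ∑ u : Fin H, ∑ w : Fin H, cs (L - (((u : ℕ) : ℤ) - ((w : ℕ) : ℤ))) x := by
    rw [Finset.sum_comm]
    refine Finset.sum_congr rfl fun u _ => Finset.sum_congr rfl fun w _ => ?_
    congr 1
    ring
  have h2 : (∑ u : Fin H, ∑ w : Fin H, cs (L + (((u : ℕ) : ℤ) - ((w : ℕ) : ℤ))) x)
      + (∑ u : Fin H, ∑ w : Fin H, cs (L - (((u : ℕ) : ℤ) - ((w : ℕ) : ℤ))) x)
      = 2 * (cs L x * ∑ u : Fin H, ∑ w : Fin H, cs (((u : ℕ) : ℤ) - ((w : ℕ) : ℤ)) x) := by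
    rw [← Finset.sum_add_distrib, Finset.mul_sum, Finset.mul_sum]
    refine Finset.sum_congr rfl fun u _ => ?_
    rw [← Finset.sum_add_distrib, Finset.mul_sum, Finset.mul_sum]
    refine Finset.sum_congr rfl fun w _ => ?_
    exact M7_aux_cs _ _ _
  linarith

/-- the average over one coordinate -/
theorem M7_aux_coord (q H : ℕ) (hq : 0 < q) (L : ℤ) (m : ℕ) (x : ℝ) :
    (∑ s : Fin q × Bool × Fin H × Fin H, (1 + cs (L + M7_val m s) x))
      = (2 * (q : ℝ) * (H : ℝ) ^ 2) *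
        (1 + cs L x * (1 / (q : ℝ) * cs (m : ℤ) x + (1 - 1 / (q : ℝ)) * kap H x)) := by
  obtain ⟨r, rfl⟩ : ∃ r, q = r + 1 := ⟨q - 1, by omega⟩
  rw [Finset.sum_add_distrib]
  have hcard : (∑ _s : Fin (r + 1) × Bool × Fin H × Fin H, (1 : ℝ))
      = 2 * ((r : ℝ) + 1) * (H : ℝ) ^ 2 := by
    simp only [Finset.sum_const, Finset.card_univ, Fintype.card_prod, Fintype.card_fin,
      Fintype.card_bool, nsmul_eq_mul, mul_one]
    push_cast
    ring
  rw [hcard, Fintype.sum_prod_type, Fin.sum_univ_succ]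
  have h0 : (∑ y : Bool × Fin H × Fin H, cs (L + M7_val m ((0 : Fin (r + 1)), y)) x)
      = 2 * (cs L x * cs (m : ℤ) x) * (H : ℝ) ^ 2 := by
    rw [Fintype.sum_prod_type, Fintype.sum_bool]
    have e1 : ∀ y : Fin H × Fin H, cs (L + M7_val m ((0 : Fin (r + 1)), (true, y))) x
        = cs (L + m) x := fun y => by simp [M7_val]
    have e2 : ∀ y : Fin H × Fin H, cs (L + M7_val m ((0 : Fin (r + 1)), (false, y))) x
        = cs (L - m) x := fun y => by simp [M7_val, sub_eq_add_neg]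
    simp only [e1, e2]
    simp only [Finset.sum_const, Finset.card_univ, Fintype.card_prod, Fintype.card_fin,
      nsmul_eq_mul]
    rw [← mul_add, M7_aux_cs]
    push_cast
    ring
  have h1 : ∀ i : Fin r, (∑ y : Bool × Fin H × Fin H, cs (L + M7_val m (i.succ, y)) x)
      = 2 * (cs L x * (kap H x * (H : ℝ) ^ 2)) := by
    intro i
    rw [Fintype.sum_prod_type, Fintype.sum_bool]
    have e1 : ∀ (g : Bool) (y : Fin H × Fin H), cs (L + M7_val m (i.succ, (g, y))) x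
        = cs (L + (((y.1 : ℕ) : ℤ) - ((y.2 : ℕ) : ℤ))) x := fun g y => by simp [M7_val]
    simp only [e1]
    rw [Fintype.sum_prod_type, M7_aux_noise]
    ring
  rw [h0]
  simp only [h1]
  simp only [Finset.sum_const, Finset.card_univ, Fintype.card_fin, nsmul_eq_mul]
  have hr : ((r : ℝ) + 1) ≠ 0 := by positivity
  push_cast
  field_simp
  ring

/-- M7 (uses M1) -/
theorem law (d q H : ℕ) (hq : 0 < q) (hH : 0 < H) (β : Bool → Bool → Fin d → ℕ) :
    ∃ (K : ℕ) (b : Bool → Fin (K + 1) → Fin d → ℤ) (M : ℕ), (∀ c a i, |b c a i| ≤ M) ∧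
      ∀ (c : Bool) (L : Fin d → ℕ) (x : ℝ),
        (∑ a, ∏ i, (1 + cs ((L i : ℤ) + b c a i) x)) / ((K : ℝ) + 1)
          = ∑ T : Finset (Fin d), Ak (1 / (q : ℝ)) H (β c) T.card x * ∏ i ∈ T, cs (L i : ℤ) x := by
  have : NeZero q := ⟨hq.ne'⟩
  have : NeZero H := ⟨hH.ne'⟩
  let Om := Bool × Equiv.Perm (Fin d) × (Fin d → (Fin q × Bool × Fin H × Fin H))
  have hne : Nonempty Om := inferInstance
  obtain ⟨K, hK⟩ : ∃ K, Fintype.card Om = K + 1 :=
    ⟨Fintype.card Om - 1, by have := Fintype.card_pos (α := Om); omega⟩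
  let e : Om ≃ Fin (K + 1) := Fintype.equivFinOfCardEq hK
  let b : Bool → Fin (K + 1) → Fin d → ℤ := fun c a i =>
    M7_val (β c (e.symm a).1 ((e.symm a).2.1 i)) ((e.symm a).2.2 i)
  refine ⟨K, b, ∑ p : Bool × Fin (K + 1) × Fin d, (b p.1 p.2.1 p.2.2).natAbs, ?_, ?_⟩
  · intro c a i
    have h := Finset.single_le_sum (f := fun p : Bool × Fin (K + 1) × Fin d =>
      (b p.1 p.2.1 p.2.2).natAbs) (fun _ _ => Nat.zero_le _) (Finset.mem_univ (c, a, i))
    rw [Int.abs_eq_natAbs]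
    exact_mod_cast h
  · intro c L x
    have hcardR : (K : ℝ) + 1 = 2 * (d.factorial : ℝ) * (2 * (q : ℝ) * (H : ℝ) ^ 2) ^ d := by
      have h1 : ((Fintype.card Om : ℕ) : ℝ) = (K : ℝ) + 1 := by rw [hK]; push_cast; ring
      rw [← h1]
      have h2 : Fintype.card Om = 2 * (d.factorial * (q * (2 * (H * H))) ^ d) := by
        simp only [Om, Fintype.card_prod, Fintype.card_bool, Fintype.card_perm, Fintype.card_fin,
          Fintype.card_fun]
      rw [h2]
      push_cast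
      ring
    have hsum : (∑ a, ∏ i, (1 + cs ((L i : ℤ) + b c a i) x))
        = ∑ ω : Om, ∏ i, (1 + cs ((L i : ℤ) + M7_val (β c ω.1 (ω.2.1 i)) (ω.2.2 i)) x) := by
      rw [← Equiv.sum_comp e]
      refine Finset.sum_congr rfl fun ω _ => ?_
      simp only [b, Equiv.symm_apply_apply]
    rw [hsum]
    set Z : ℝ := 2 * (q : ℝ) * (H : ℝ) ^ 2 with hZ
    have hZ0 : Z ≠ 0 := by
      have : (0 : ℝ) < q := by exact_mod_cast hq
      have : (0 : ℝ) < H := by exact_mod_cast hH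
      positivity
    have hτ : ∀ τ : Bool, (∑ y : Equiv.Perm (Fin d) × (Fin d → (Fin q × Bool × Fin H × Fin H)),
        ∏ i, (1 + cs ((L i : ℤ) + M7_val (β c τ (y.1 i)) (y.2 i)) x))
        = Z ^ d * ((d.factorial : ℝ) * ∑ T : Finset (Fin d), (∏ i ∈ T, cs (L i : ℤ) x)
            * esn T.card (psi (1 / (q : ℝ)) H (β c τ) x)) := by
      intro τ
      have hp := Pool.Agent.H691R3.SL.perm_average (fun i => cs (L i : ℤ) x) (psi (1 / (q : ℝ)) H (β c τ) x)
      have hf : (d.factorial : ℝ) ≠ 0 := by exact_mod_cast d.factorial_ne_zero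
      rw [div_eq_iff hf] at hp
      rw [mul_comm (d.factorial : ℝ), ← hp, Fintype.sum_prod_type, Finset.mul_sum]
      refine Finset.sum_congr rfl fun σ _ => ?_
      have hpi := Finset.prod_univ_sum (fun _ : Fin d =>
        (Finset.univ : Finset (Fin q × Bool × Fin H × Fin H)))
        (fun i s => (1 + cs ((L i : ℤ) + M7_val (β c τ (σ i)) s) x))
      rw [Fintype.piFinset_univ] at hpi
      rw [← hpi]
      simp only [M7_aux_coord q H hq]
      rw [Finset.prod_mul_distrib]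
      simp only [Finset.prod_const, Finset.card_univ, Fintype.card_fin]
      rfl
    have hOm : (∑ ω : Om, ∏ i, (1 + cs ((L i : ℤ) + M7_val (β c ω.1 (ω.2.1 i)) (ω.2.2 i)) x))
        = ∑ τ : Bool, ∑ y : Equiv.Perm (Fin d) × (Fin d → (Fin q × Bool × Fin H × Fin H)),
        ∏ i, (1 + cs ((L i : ℤ) + M7_val (β c τ (y.1 i)) (y.2 i)) x) :=
      Fintype.sum_prod_type _
    rw [hOm, Fintype.sum_bool, hτ, hτ, hcardR, ← mul_add, ← mul_add, ← Finset.sum_add_distrib]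
    have hf : (d.factorial : ℝ) ≠ 0 := by exact_mod_cast d.factorial_ne_zero
    have hZd : Z ^ d ≠ 0 := pow_ne_zero _ hZ0
    rw [div_eq_iff (by positivity), Finset.mul_sum, Finset.mul_sum, Finset.sum_mul]
    refine Finset.sum_congr rfl fun T _ => ?_
    rw [Ak]
    ring

end

end Pool.Agent.H691R3.SL
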