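import Pool.Agent.H691R3.SL.Defs
import Pool.Agent.H691R3.SLF.F_D4
import Pool.Agent.H691R3.SLF.F_D5
/-!
# Task X8: levels of the tower are cylinders
-/

namespace Pool.Agent.H691R3.SL

open MeasureTheory Set Filter Topology
open scoped Real BigOperators

noncomputable section

theorem X8_pow {𝒟 : Data} (M : Model 𝒟) (m : ℕ) (p : M.X) :
    ((M.T.toEquiv : Equiv.Perm M.X) ^ (m : ℤ)) p = (M.T : M.X → M.X)^[m] p := by
  rw [zpow_natCast]
  induction m generalizing p with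
  | zero => rfl
  | succ m ih =>
    rw [pow_succ, Equiv.Perm.mul_apply, ih, Function.iterate_succ_apply]
    rfl

theorem X8_const {𝒟 : Data} (M : Model 𝒟) (k : ℕ) (ω ω' : M.Ω) (h : M.cl k ω = M.cl k ω')
    (l : ℕ) (hl : l < 𝒟.NN k) : M.n l ω = M.n l ω' := by
  have h1 := M.fr_eq k ω
  have h2 := M.fr_eq k ω'
  rw [h, h2] at h1
  have h3 := List.map_inj_left.1 h1 l (by simpa using hl)
  exact h3.symm

/-- X8 (uses D4, D4b, D5): levels of the tower are cylinders -/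
theorem level_eq {𝒟 : Data} (M : Model 𝒟) (k : ℕ) (c : Th 𝒟.K k) (w : Cn)
    (hw : ∃ l < 𝒟.NN k, w l = false) (j : ℕ)
    (hj : ∀ (ω : M.Ω) (e : Cn), M.cl k ω = c → (∀ l < 𝒟.NN k, e l = w l) → j < ret M.n (ω, e)) :
    ∃ m : ℤ, ((M.T.toEquiv : Equiv.Perm M.X) ^ m) '' EE M.n (𝒟.NN k) {ω | M.cl k ω = c}
      = {p : M.X | p.1.1 ∈ {y : M.Ω × Cn | M.cl k y.1 = c ∧ ∀ l < 𝒟.NN k, y.2 l = w l} ∧
          p.1.2 = j} := by
  by_cases hne : ∃ ω0, M.cl k ω0 = c
  swap
  · refine ⟨0, ?_⟩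
    ext q
    simp only [zpow_zero, Equiv.Perm.coe_one, Set.image_id]
    constructor
    · intro hq
      exact absurd ⟨_, hq.1⟩ hne
    · intro hq
      exact absurd ⟨_, hq.1.1⟩ hne
  obtain ⟨ω0, hω0⟩ := hne
  set N := 𝒟.NN k with hN
  set m : ℕ := (∑ l ∈ Finset.range N, if w l then M.n l ω0 else 0) + j with hm
  have hsum : ∀ (ω : M.Ω) (e : Cn), M.cl k ω = c → (∀ l < N, e l = w l) →
      (∑ l ∈ Finset.range N, if e l then M.n l ω else 0) + j = m := by
    intro ω e hω he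
    rw [hm]
    congr 1
    refine Finset.sum_congr rfl fun l hl => ?_
    rw [he l (Finset.mem_range.1 hl),
      X8_const M k ω ω0 (hω.trans hω0.symm) l (Finset.mem_range.1 hl)]
  refine ⟨(m : ℤ), ?_⟩
  ext q
  constructor
  · rintro ⟨p, hp, rfl⟩
    obtain ⟨hp1, hp2, hp3⟩ := hp
    rw [X8_pow]
    -- the target point
    let e : Cn := fun l => if l < N then w l else p.1.1.2 l
    have he : ∀ l < N, e l = w l := fun l hl => by simp only [e, if_pos hl]
    let q' : M.X := ⟨((p.1.1.1, e), j), hj _ _ hp1 he⟩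
    have hq'in : InT M.n N q' := by
      obtain ⟨l, hl, hwl⟩ := hw
      refine Or.inl ⟨l, hl, ?_⟩
      change e l = false
      rw [he l hl, hwl]
    have hq'pos : pos M.n N q' = m := hsum p.1.1.1 e hp1 he
    have hle := Pool.Agent.H691R3.SL.pos_le M.n M.grow N q' hq'in
    rw [hq'pos] at hle
    obtain ⟨h1, h2, h3, h4⟩ := Pool.Agent.H691R3.SL.tower_iter M.n M.grow M.T M.T1 M.T2 N p hp2 hp3 m hle
    have heq : (M.T : M.X → M.X)^[m] p = q' := by
      refine Pool.Agent.H691R3.SL.pos_inj M.n M.grow N _ q' h1 hq'in h3 ?_ (h2.trans hq'pos.symm)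
      intro l hl
      rw [h4 l hl]
      change _ = e l
      simp only [e, if_neg (not_lt.2 hl)]
    rw [heq]
    exact ⟨⟨hp1, he⟩, rfl⟩
  · rintro ⟨⟨hq1, hq2⟩, hq3⟩
    have hqin : InT M.n N q := by
      obtain ⟨l, hl, hwl⟩ := hw
      exact Or.inl ⟨l, hl, by rw [hq2 l hl, hwl]⟩
    obtain ⟨p, h1, h2, h3, h4, h5⟩ := Pool.Agent.H691R3.SL.reach_level M.n M.grow M.T M.T1 M.T2 N q hqin
    have hqpos : pos M.n N q = m := by
      have := hsum q.1.1.1 q.1.1.2 hq1 hq2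
      unfold pos
      rw [hq3]
      exact this
    rw [hqpos] at h5
    refine ⟨p, ⟨?_, h1, h2⟩, ?_⟩
    · change M.cl k p.1.1.1 = c
      rw [h3]; exact hq1
    · rw [X8_pow]; exact h5

end

end Pool.Agent.H691R3.SL
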