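import Pool.Agent.H691R3.SL.Defs
import Pool.Agent.H691R3.SLF.F_D1B
/-!
# Task X9: a function with vanishing integrals over cylinders with a digit `0` vanishes
-/

namespace Pool.Agent.H691R3.SL

open MeasureTheory Set Filter Topology
open scoped Real BigOperators

noncomputable section

/-- the finite quotient of level `k` -/
def X9_q {𝒟 : Data} (b : Base 𝒟) (k : ℕ) (y : b.Ω × Cn) : Th 𝒟.K k × (Fin (𝒟.NN k) → Bool) :=
  (b.cl k y.1, fun l => y.2 l)

theorem X9_digit_meas {𝒟 : Data} (b : Base 𝒟) (l : ℕ) :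
    Measurable (fun y : b.Ω × Cn => y.2 l) := (measurable_pi_apply l).comp measurable_snd

theorem X9_fib_meas {𝒟 : Data} (b : Base 𝒟) (k : ℕ) (s : Th 𝒟.K k × (Fin (𝒟.NN k) → Bool)) :
    MeasurableSet (X9_q b k ⁻¹' {s}) := by
  have : X9_q b k ⁻¹' {s} = (Prod.fst ⁻¹' {ω | b.cl k ω = s.1}) ∩
      ⋂ l : Fin (𝒟.NN k), {y : b.Ω × Cn | y.2 l = s.2 l} := by
    ext y
    simp only [Set.mem_preimage, Set.mem_singleton_iff, X9_q, Set.mem_inter_iff, Set.mem_iInter,
      Prod.ext_iff, funext_iff]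
    exact Iff.rfl
  rw [this]
  refine (measurable_fst (b.cl_meas k s.1)).inter ?_
  refine MeasurableSet.iInter fun l => ?_
  exact (X9_digit_meas b l) (MeasurableSet.singleton (s.2 l))

theorem X9_q_meas {𝒟 : Data} (b : Base 𝒟) (k : ℕ) (S : Set (Th 𝒟.K k × (Fin (𝒟.NN k) → Bool))) :
    MeasurableSet (X9_q b k ⁻¹' S) := by
  have : X9_q b k ⁻¹' S = ⋃ s ∈ S, X9_q b k ⁻¹' {s} := by
    ext y; simp
  rw [this]
  exact MeasurableSet.biUnion (Set.to_countable S) fun s _ => X9_fib_meas b k s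

theorem X9_NN_succ (𝒟 : Data) (k : ℕ) : 𝒟.NN (k + 1) = 𝒟.NN k + 𝒟.d k := by
  unfold Data.NN; rw [Finset.sum_range_succ]

theorem X9_NN_mono (𝒟 : Data) {k k' : ℕ} (h : k ≤ k') : 𝒟.NN k ≤ 𝒟.NN k' := by
  induction h with
  | refl => exact le_rfl
  | step _ ih => rw [X9_NN_succ]; omega

theorem X9_le_NN (𝒟 : Data) (k : ℕ) : k ≤ 𝒟.NN k := by
  induction k with
  | zero => exact Nat.zero_le _
  | succ k ih =>
    rw [X9_NN_succ]
    have := 𝒟.d_pos k
    omega

theorem X9_cl_factor {𝒟 : Data} (b : Base 𝒟) {k k' : ℕ} (h : k ≤ k') (ω ω' : b.Ω)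
    (he : b.cl k' ω = b.cl k' ω') : b.cl k ω = b.cl k ω' := by
  induction h with
  | refl => exact he
  | step hk ih =>
    rename_i m
    apply ih
    obtain ⟨a, ha⟩ := b.cl_succ m ω
    obtain ⟨a', ha'⟩ := b.cl_succ m ω'
    have he2 : b.cl (m + 1) ω = b.cl (m + 1) ω' := he
    rw [ha, ha'] at he2
    exact congrArg Prod.fst he2

theorem X9_q_factor {𝒟 : Data} (b : Base 𝒟) {k k' : ℕ} (h : k ≤ k') (y y' : b.Ω × Cn)
    (he : X9_q b k' y = X9_q b k' y') : X9_q b k y = X9_q b k y' := by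
  unfold X9_q at he ⊢
  rw [Prod.ext_iff] at he ⊢
  refine ⟨X9_cl_factor b h _ _ he.1, ?_⟩
  funext l
  have hl : (l : ℕ) < 𝒟.NN k' := lt_of_lt_of_le l.2 (X9_NN_mono 𝒟 h)
  exact congrFun he.2 ⟨l, hl⟩

theorem X9_lift {𝒟 : Data} (b : Base 𝒟) {k k' : ℕ} (h : k ≤ k')
    (S : Set (Th 𝒟.K k × (Fin (𝒟.NN k) → Bool))) :
    ∃ S' : Set (Th 𝒟.K k' × (Fin (𝒟.NN k') → Bool)), X9_q b k ⁻¹' S = X9_q b k' ⁻¹' S' := by
  refine ⟨X9_q b k' '' (X9_q b k ⁻¹' S), ?_⟩
  apply Set.Subset.antisymm (Set.subset_preimage_image _ _)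
  rintro y ⟨y', hy', he⟩
  have := X9_q_factor b h y' y he
  simp only [Set.mem_preimage] at hy' ⊢
  rw [← this]; exact hy'

/-- the family of sets of finite level -/
def X9_C {𝒟 : Data} (b : Base 𝒟) : Set (Set (b.Ω × Cn)) :=
  {A | ∃ k S, A = X9_q b k ⁻¹' S}

theorem X9_pi {𝒟 : Data} (b : Base 𝒟) : IsPiSystem (X9_C b) := by
  rintro A ⟨k, S, rfl⟩ B ⟨k', S', rfl⟩ _
  obtain ⟨S1, h1⟩ := X9_lift b (le_max_left k k') S
  obtain ⟨S2, h2⟩ := X9_lift b (le_max_right k k') S'
  exact ⟨max k k', S1 ∩ S2, by rw [h1, h2, Set.preimage_inter]⟩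

theorem X9_gen {𝒟 : Data} (b : Base 𝒟) :
    (inferInstance : MeasurableSpace (b.Ω × Cn)) = MeasurableSpace.generateFrom (X9_C b) := by
  apply le_antisymm
  · have e : (inferInstance : MeasurableSpace (b.Ω × Cn)) =
      (MeasurableSpace.comap Prod.fst b.mΩ) ⊔ (MeasurableSpace.comap Prod.snd
        (MeasurableSpace.pi : MeasurableSpace Cn)) := rfl
    rw [e]
    apply sup_le
    · conv_lhs => rw [← b.gen]
      rw [MeasurableSpace.comap_generateFrom]
      apply MeasurableSpace.generateFrom_le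
      rintro _ ⟨A, ⟨k, c, rfl⟩, rfl⟩
      apply MeasurableSpace.measurableSet_generateFrom
      refine ⟨k, {s | s.1 = c}, ?_⟩
      rfl
    · rw [MeasurableSpace.comap_le_iff_le_map]
      show (⨆ l : ℕ, MeasurableSpace.comap (fun e : Cn => e l) ⊤) ≤ _
      refine iSup_le fun l => ?_
      rintro _ ⟨B, _, rfl⟩
      show MeasurableSet[MeasurableSpace.generateFrom (X9_C b)] _
      apply MeasurableSpace.measurableSet_generateFrom
      have hl : l < 𝒟.NN (l + 1) := lt_of_lt_of_le (Nat.lt_succ_self l) (X9_le_NN 𝒟 (l + 1))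
      refine ⟨l + 1, {s | s.2 ⟨l, hl⟩ ∈ B}, ?_⟩
      rfl
  · apply MeasurableSpace.generateFrom_le
    rintro A ⟨k, S, rfl⟩
    exact X9_q_meas b k S

theorem X9_sum {𝒟 : Data} (b : Base 𝒟) (g : b.Ω × Cn → ℝ)
    (hg : Integrable g (b.P.prod coin)) (k : ℕ) (S : Set (Th 𝒟.K k × (Fin (𝒟.NN k) → Bool)))
    (h0 : ∀ s ∈ S, ∫ y in X9_q b k ⁻¹' {s}, g y ∂(b.P.prod coin) = 0) :
    ∫ y in X9_q b k ⁻¹' S, g y ∂(b.P.prod coin) = 0 := by
  classical
  have e : X9_q b k ⁻¹' S = ⋃ s ∈ (Finset.univ.filter (fun s => s ∈ S)), X9_q b k ⁻¹' {s} := by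
    ext y; simp
  rw [e, integral_biUnion_finset]
  · apply Finset.sum_eq_zero
    intro s hs
    exact h0 s (by simpa using hs)
  · intro s _
    exact X9_fib_meas b k s
  · intro s _ s' _ hne
    rw [Function.onFun, Set.disjoint_left]
    intro y hy hy'
    simp only [Set.mem_preimage, Set.mem_singleton_iff] at hy hy'
    exact hne (hy.symm.trans hy')
  · intro s _
    exact hg.integrableOn

/-- X9: a function with vanishing integrals over cylinders with a digit `0` vanishes -/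
theorem cyl_total {𝒟 : Data} (b : Base 𝒟) (g : b.Ω × Cn → ℝ)
    (hg : Integrable g (b.P.prod coin))
    (h : ∀ k (c : Th 𝒟.K k) (w : Cn), (∃ l < 𝒟.NN k, w l = false) →
      ∫ y in {y : b.Ω × Cn | b.cl k y.1 = c ∧ ∀ l < 𝒟.NN k, y.2 l = w l}, g y ∂(b.P.prod coin)
        = 0) :
    g =ᵐ[b.P.prod coin] 0 := by
  have : IsProbabilityMeasure coin := Pool.Agent.H691R3.SL.coin_cyl.1
  have hfib : ∀ k (s : Th 𝒟.K k × (Fin (𝒟.NN k) → Bool)), (∃ l, s.2 l = false) →
      ∫ y in X9_q b k ⁻¹' {s}, g y ∂(b.P.prod coin) = 0 := by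
    rintro k ⟨c, w⟩ ⟨l, hl⟩
    have h1 := h k c (fun j => if hj : j < 𝒟.NN k then w ⟨j, hj⟩ else false)
      ⟨l, l.2, by simpa using hl⟩
    have e : X9_q b k ⁻¹' {(c, w)} = {y : b.Ω × Cn | b.cl k y.1 = c ∧ ∀ l < 𝒟.NN k, y.2 l =
        (fun j => if hj : j < 𝒟.NN k then w ⟨j, hj⟩ else false) l} := by
      ext y
      simp only [Set.mem_preimage, Set.mem_singleton_iff, X9_q, Prod.ext_iff, funext_iff]
      constructor
      · rintro ⟨h1, h2⟩
        refine ⟨h1, fun l hl => ?_⟩
        simp only [hl, dif_pos]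
        exact h2 ⟨l, hl⟩
      · rintro ⟨h1, h2⟩
        refine ⟨h1, fun l => ?_⟩
        have := h2 l l.2
        simpa using this
    rw [e]; exact h1
  -- all sets of finite level
  have hC : ∀ k (S : Set (Th 𝒟.K k × (Fin (𝒟.NN k) → Bool))),
      ∫ y in X9_q b k ⁻¹' S, g y ∂(b.P.prod coin) = 0 := by
    intro k S
    set A := X9_q b k ⁻¹' S with hA
    have hAm : MeasurableSet A := X9_q_meas b k S
    let O : ℕ → Set (b.Ω × Cn) := fun k' => {y | ∀ l < 𝒟.NN k', y.2 l = true}
    have hOm : ∀ k', MeasurableSet (O k') := by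
      intro k'
      have : O k' = X9_q b k' ⁻¹' {s | ∀ l, s.2 l = true} := by
        ext y
        constructor
        · intro hy l; exact hy l l.2
        · intro hy l hl; exact hy ⟨l, hl⟩
      rw [this]
      exact X9_q_meas b k' _
    have hstep : ∀ k', k ≤ k' → ∫ y in A ∩ O k', g y ∂(b.P.prod coin) =
        ∫ y in A, g y ∂(b.P.prod coin) := by
      intro k' hk'
      obtain ⟨S', hS'⟩ := X9_lift b hk' S
      have e1 : A \ O k' = X9_q b k' ⁻¹' (S' ∩ {s | ∃ l, s.2 l = false}) := by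
        ext y
        rw [Set.mem_sdiff, hA, hS', Set.preimage_inter, Set.mem_inter_iff]
        apply and_congr_right
        intro _
        constructor
        · intro hy
          by_contra hcon
          apply hy
          intro l hl
          by_contra hne
          apply hcon
          have hne2 : y.2 l = false := by simpa using hne
          exact ⟨⟨l, hl⟩, hne2⟩
        · rintro ⟨l, hl⟩ hy
          have h2 := hy l l.2
          have h3 : y.2 l = false := hl
          rw [h2] at h3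
          exact absurd h3 (by simp)
      have e2 : ∫ y in A \ O k', g y ∂(b.P.prod coin) = 0 := by
        rw [e1]
        exact X9_sum b g hg k' _ fun s hs => hfib k' s hs.2
      have e3 := integral_inter_add_sdiff (hOm k') (hg.integrableOn (s := A))
      rw [e2, add_zero] at e3
      exact e3
    have hlim := tendsto_setIntegral_of_antitone (μ := b.P.prod coin) (f := g)
      (s := fun k' => A ∩ O k') (fun k' => hAm.inter (hOm k'))
      (by
        intro k' k'' hkk y hy
        exact ⟨hy.1, fun l hl => hy.2 l (lt_of_lt_of_le hl (X9_NN_mono 𝒟 hkk))⟩)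
      ⟨0, hg.integrableOn⟩
    have hconst : Tendsto (fun k' => ∫ y in A ∩ O k', g y ∂(b.P.prod coin)) atTop
        (𝓝 (∫ y in A, g y ∂(b.P.prod coin))) := by
      apply tendsto_const_nhds.congr'
      filter_upwards [eventually_ge_atTop k] with k' hk'
      exact (hstep k' hk').symm
    have huniq := tendsto_nhds_unique hconst hlim
    rw [huniq]
    apply setIntegral_measure_zero
    apply measure_mono_null (t := (Set.univ : Set b.Ω) ×ˢ ({fun _ => true} : Set Cn))
    · intro y hy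
      refine ⟨Set.mem_univ _, ?_⟩
      rw [Set.mem_singleton_iff]
      funext l
      have := (Set.mem_iInter.mp hy (l + 1)).2 l
        (lt_of_lt_of_le (Nat.lt_succ_self l) (X9_le_NN 𝒟 (l + 1)))
      exact this
    · rw [Measure.prod_prod, Pool.Agent.H691R3.SL.coin_cyl.2.2.1, mul_zero]
  -- induction on measurable sets
  have hall : ∀ A : Set (b.Ω × Cn), MeasurableSet A → ∫ y in A, g y ∂(b.P.prod coin) = 0 := by
    intro A hA
    have huniv : ∫ y, g y ∂(b.P.prod coin) = 0 := by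
      have := hC 0 Set.univ
      rwa [Set.preimage_univ, setIntegral_univ] at this
    induction A, hA using MeasurableSpace.induction_on_inter (X9_gen b) (X9_pi b) with
    | empty => simp
    | basic A hA =>
      obtain ⟨k, S, rfl⟩ := hA
      exact hC k S
    | compl A hA ih =>
      have := integral_add_compl hA hg
      rw [ih, huniv, zero_add] at this
      exact this
    | iUnion f hd hm ih =>
      rw [integral_iUnion hm hd hg.integrableOn]
      simp [ih]
  exact hg.ae_eq_zero_of_forall_setIntegral_eq_zero fun s hs _ => hall s hs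

end

end Pool.Agent.H691R3.SL
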