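import Pool.Agent.H691R3.SL.Defs
import Pool.Agent.H691R3.SLF.F_D1B
import Pool.Agent.H691R3.SLF.F_D2B
import Pool.Agent.H691R3.SLF.F_D3
import Pool.Agent.H691R3.SLF.F_D7
import Pool.Agent.H691R3.SLF.F_X8
import Pool.Agent.H691R3.SLF.F_X9
/-!
# X10: totality of the levels of the towers
-/

namespace Pool.Agent.H691R3.SL

open MeasureTheory Set Filter Topology
open scoped Real BigOperators

noncomputable section

/-- the frequencies below `NN k` depend only on the class -/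
theorem X10_aux_n {𝒟 : Data} (b : Base 𝒟) (k : ℕ) (ω ω' : b.Ω) (h : b.cl k ω = b.cl k ω')
    (i : ℕ) (hi : i < 𝒟.NN k) : b.n i ω = b.n i ω' := by
  have h1 := b.fr_eq k ω
  have h2 := b.fr_eq k ω'
  rw [h, h2] at h1
  have h3 := List.map_inj_left.mp h1 i (List.mem_range.mpr hi)
  exact h3.symm

/-- the return time is constant on the cylinders with a digit `0` -/
theorem X10_aux_ret {𝒟 : Data} (b : Base 𝒟) (k : ℕ) (w : Cn)
    (hw : ∃ l < 𝒟.NN k, w l = false) (ω ω' : b.Ω) (h : b.cl k ω = b.cl k ω')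
    (e e' : Cn) (he : ∀ l < 𝒟.NN k, e l = w l) (he' : ∀ l < 𝒟.NN k, e' l = w l) :
    ret b.n (ω, e) = ret b.n (ω', e') := by
  classical
  have hw' : ∃ l, w l = false := ⟨hw.choose, hw.choose_spec.2⟩
  set l := Nat.find hw' with hl
  have hl1 : w l = false := Nat.find_spec hw'
  have hlN : l < 𝒟.NN k := lt_of_le_of_lt (Nat.find_min' hw' hw.choose_spec.2) hw.choose_spec.1
  have hl2 : ∀ j < l, w j = true := by
    intro j hj
    have := Nat.find_min hw' hj
    simpa using this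
  rw [(Pool.Agent.H691R3.SL.ret_spec b.n ω e l (fun j hj => by rw [he j (hj.trans hlN)]; exact hl2 j hj)
      (by rw [he l hlN]; exact hl1)).1,
    (Pool.Agent.H691R3.SL.ret_spec b.n ω' e' l (fun j hj => by rw [he' j (hj.trans hlN)]; exact hl2 j hj)
      (by rw [he' l hlN]; exact hl1)).1]
  rw [X10_aux_n b k ω ω' h l hlN]
  congr 1
  refine Finset.sum_congr rfl fun j hj => ?_
  exact X10_aux_n b k ω ω' h j ((Finset.mem_range.mp hj).trans hlN)

theorem X10_aux_meas {𝒟 : Data} (b : Base 𝒟) (k : ℕ) (c : Th 𝒟.K k) (w : Cn) :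
    MeasurableSet {y : b.Ω × Cn | b.cl k y.1 = c ∧ ∀ l < 𝒟.NN k, y.2 l = w l} := by
  have h1 : MeasurableSet {y : b.Ω × Cn | b.cl k y.1 = c} :=
    measurable_fst (b.cl_meas k c)
  have h2 : MeasurableSet {y : b.Ω × Cn | ∀ l < 𝒟.NN k, y.2 l = w l} := by
    have : {y : b.Ω × Cn | ∀ l < 𝒟.NN k, y.2 l = w l}
        = ⋂ l ∈ Finset.range (𝒟.NN k), {y : b.Ω × Cn | y.2 l = w l} := by
      ext y
      simp
    rw [this]
    refine Finset.measurableSet_biInter _ fun l _ => ?_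
    have hm : Measurable fun y : b.Ω × Cn => y.2 l := (measurable_pi_apply l).comp measurable_snd
    exact hm (measurableSet_singleton (w l))
  exact h1.inter h2

/-- X10 (uses X8, X9, D2b, D2c, K1b): totality -/
theorem model_total {𝒟 : Data} (M : Model 𝒟) (u : Lp ℝ 2 M.μ)
    (h : ∀ k (c : Th 𝒟.K k) (j : ℤ),
      ∫ x in ((M.T.toEquiv : Equiv.Perm M.X) ^ j) '' EE M.n (𝒟.NN k) {ω | M.cl k ω = c},
        u x ∂M.μ = 0) : u = 0 := by
  haveI : IsProbabilityMeasure coin := Pool.Agent.H691R3.SL.coin_cyl.1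
  have hm : Measurable (ret M.n) := (Pool.Agent.H691R3.SL.sky_space M.P M.n M.n_meas M.grow).1
  have hu : MemLp u 2 (skyMeasure (M.P.prod coin) (ret M.n)) := Lp.memLp u
  obtain ⟨hint, hzero⟩ := Pool.Agent.H691R3.SL.sky_fiber (M.P.prod coin) (ret M.n) hm u hu
  have key : (u : M.X → ℝ) =ᵐ[M.μ] 0 := by
    refine hzero fun j => ?_
    refine Pool.Agent.H691R3.SL.cyl_total M.toBase _ (hint j) ?_
    intro k c w hw
    by_cases hj : ∀ (ω : M.Ω) (e : Cn), M.cl k ω = c → (∀ l < 𝒟.NN k, e l = w l) →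
        j < ret M.n (ω, e)
    · obtain ⟨m, hm'⟩ := Pool.Agent.H691R3.SL.level_eq M k c w hw j hj
      have h0 := h k c m
      rw [hm'] at h0
      have h1 := (Pool.Agent.H691R3.SL.sky_level (M.P.prod coin) (ret M.n) hm
        {y : M.Ω × Cn | M.cl k y.1 = c ∧ ∀ l < 𝒟.NN k, y.2 l = w l}
        (X10_aux_meas M.toBase k c w) j (fun y hy => hj y.1 y.2 hy.1 hy.2)).2 u
      rw [← h1]
      exact h0
    · push Not at hj
      obtain ⟨ω₀, e₀, hc₀, he₀, hle⟩ := hj
      refine setIntegral_eq_zero_of_forall_eq_zero ?_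
      intro y hy
      have hr : ret M.n y = ret M.n (ω₀, e₀) :=
        X10_aux_ret M.toBase k w hw y.1 ω₀ (by rw [hy.1, hc₀]) y.2 e₀ hy.2 he₀
      rw [dif_neg]
      rw [hr]
      exact not_lt.mpr hle
  exact (Lp.eq_zero_iff_ae_eq_zero).mpr key

end

end Pool.Agent.H691R3.SL
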