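import Pool.Agent.H691R3.SL.Defs
import Pool.Agent.H691R3.SLF.F_D1B
import Pool.Agent.H691R3.SLF.F_D2B
import Pool.Agent.H691R3.SLF.F_D3
import Pool.Agent.H691R3.SLF.F_D7
namespace Pool.Agent.H691R3.SL

open MeasureTheory Set Filter Topology
open scoped Real BigOperators

noncomputable section

/-- X4 (uses D1b, D2b): measurability and measure of the sets `EE` -/
theorem EE_measure {𝒟 : Data} (M : Model 𝒟) (i : ℕ) (C : Set M.Ω) (hC : MeasurableSet C) :
    MeasurableSet (EE M.n i C) ∧ M.μ (EE M.n i C) = (2⁻¹ : ENNReal) ^ i * M.P C := by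
  have hpos : ∀ y : M.Ω × Cn, 0 < ret M.n y := fun y => Pool.Agent.H691R3.SL.ret_pos M.n M.grow y
  have hret : Measurable (ret M.n) := (Pool.Agent.H691R3.SL.sky_space M.P M.n M.n_meas M.grow).1
  have : IsProbabilityMeasure coin := Pool.Agent.H691R3.SL.coin_cyl.1
  have hZ : MeasurableSet {e : Cn | ∀ j < i, e j = false} := by
    have : {e : Cn | ∀ j < i, e j = false} = ⋂ j ∈ Finset.range i, {e : Cn | e j = false} := by
      ext e; simp
    rw [this]
    refine Finset.measurableSet_biInter _ fun j _ => ?_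
    have hj : Measurable (fun e : Cn => e j) := measurable_pi_apply j
    exact hj (measurableSet_singleton false)
  have hAeq : {y : M.Ω × Cn | y.1 ∈ C ∧ ∀ j < i, y.2 j = false}
      = C ×ˢ {e : Cn | ∀ j < i, e j = false} := by
    ext y; simp
  have hAm : MeasurableSet {y : M.Ω × Cn | y.1 ∈ C ∧ ∀ j < i, y.2 j = false} := by
    rw [hAeq]; exact hC.prod hZ
  have hEE : EE M.n i C
      = {p : Sky (ret M.n) | p.1.1 ∈ {y : M.Ω × Cn | y.1 ∈ C ∧ ∀ j < i, y.2 j = false}
          ∧ p.1.2 = 0} := by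
    ext p
    simp only [EE, Set.mem_ofPred_eq]
    tauto
  have hL := (Pool.Agent.H691R3.SL.sky_level (M.P.prod coin) (ret M.n) hret _ hAm 0 (fun y _ => hpos y)).1
  refine ⟨?_, ?_⟩
  · rw [hEE]
    have h1 : Measurable (fun p : Sky (ret M.n) => p.1.1) := measurable_subtype_coe.fst
    have h2 : Measurable (fun p : Sky (ret M.n) => p.1.2) := measurable_subtype_coe.snd
    exact (h1 hAm).inter (h2 (measurableSet_singleton 0))
  · have : M.μ (EE M.n i C) = (M.P.prod coin) {y : M.Ω × Cn | y.1 ∈ C ∧ ∀ j < i, y.2 j = false} := by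
      rw [hEE]
      exact hL
    rw [this, hAeq, Measure.prod_prod, Pool.Agent.H691R3.SL.coin_cyl.2.1 i (fun _ => false), mul_comm]

end

end Pool.Agent.H691R3.SL
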