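import Pool.Agent.H691R3.SL.Defs
import Pool.Agent.H691R3.SLF.F_D3
import Pool.Agent.H691R3.SLF.F_D5
/-!
# Task X5: the two halves of the tower
-/

namespace Pool.Agent.H691R3.SL

open MeasureTheory Set Filter Topology
open scoped Real BigOperators

noncomputable section

theorem X5_pow {X : Type} [MeasurableSpace X] (T : X ≃ᵐ X) (m : ℕ) (p : X) :
    ((T.toEquiv : Equiv.Perm X) ^ (m : ℤ)) p = (fun x => T x)^[m] p := by
  rw [zpow_natCast, ← Equiv.Perm.iterate_eq_pow]
  rfl

theorem X5_key {𝒟 : Data} (M : Model 𝒟) (i : ℕ) (C : Set M.Ω) (m : ℕ)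
    (hC : ∀ ω ∈ C, M.n i ω = m) (p : M.X) (hp : p ∈ EE M.n (i + 1) C) :
    (((M.T.toEquiv : Equiv.Perm M.X) ^ (m : ℤ)) p).1 =
      ((p.1.1.1, Function.update p.1.1.2 i true), 0) := by
  obtain ⟨h1, h2, h3⟩ := hp
  rw [X5_pow]
  have h := Pool.Agent.H691R3.SL.T_pow_n M.n M.grow (fun x => M.T x) M.T1 M.T2 i p h2
    (fun j hj => h3 j (Nat.lt_succ_of_le hj))
  rw [hC _ h1] at h
  exact h

/-- X5 (uses D5): the two halves of the tower -/
theorem EE_split {𝒟 : Data} (M : Model 𝒟) (i : ℕ) (C : Set M.Ω) (m : ℕ)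
    (hC : ∀ ω ∈ C, M.n i ω = m) :
    EE M.n i C = EE M.n (i + 1) C ∪
      ((M.T.toEquiv : Equiv.Perm M.X) ^ (m : ℤ)) '' EE M.n (i + 1) C ∧
    Disjoint (EE M.n (i + 1) C)
      (((M.T.toEquiv : Equiv.Perm M.X) ^ (m : ℤ)) '' EE M.n (i + 1) C) := by
  refine ⟨?_, ?_⟩
  · apply Set.Subset.antisymm
    · intro q hq
      obtain ⟨h1, h2, h3⟩ := hq
      by_cases hqi : q.1.1.2 i = false
      · left
        refine ⟨h1, h2, fun j hj => ?_⟩
        rcases Nat.lt_succ_iff_lt_or_eq.mp hj with h | h
        · exact h3 j h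
        · rw [h]; exact hqi
      · right
        have hqi' : q.1.1.2 i = true := by simpa using hqi
        have hpos : 0 < ret M.n (q.1.1.1, Function.update q.1.1.2 i false) :=
          Pool.Agent.H691R3.SL.ret_pos M.n M.grow _
        refine ⟨⟨((q.1.1.1, Function.update q.1.1.2 i false), 0), hpos⟩, ?_, ?_⟩
        · refine ⟨h1, rfl, fun j hj => ?_⟩
          show Function.update q.1.1.2 i false j = false
          rcases Nat.lt_succ_iff_lt_or_eq.mp hj with h | h
          · rw [Function.update_of_ne h.ne]; exact h3 j h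
          · rw [h, Function.update_self]
        · apply Subtype.ext
          rw [X5_key M i C m hC]
          · show ((q.1.1.1, Function.update (Function.update q.1.1.2 i false) i true), 0) = q.1
            rw [Function.update_idem, ← hqi', Function.update_eq_self, ← h2]
          · refine ⟨h1, rfl, fun j hj => ?_⟩
            show Function.update q.1.1.2 i false j = false
            rcases Nat.lt_succ_iff_lt_or_eq.mp hj with h | h
            · rw [Function.update_of_ne h.ne]; exact h3 j h
            · rw [h, Function.update_self]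
    · rintro q (hq | ⟨p, hp, rfl⟩)
      · exact ⟨hq.1, hq.2.1, fun j hj => hq.2.2 j (Nat.lt_succ_of_lt hj)⟩
      · have hk := X5_key M i C m hC p hp
        refine ⟨?_, ?_, ?_⟩
        · rw [hk]; exact hp.1
        · rw [hk]
        · intro j hj
          rw [hk]
          show Function.update p.1.1.2 i true j = false
          rw [Function.update_of_ne hj.ne]
          exact hp.2.2 j (Nat.lt_succ_of_lt hj)
  · rw [Set.disjoint_left]
    rintro q hq ⟨p, hp, rfl⟩
    have hk := X5_key M i C m hC p hp
    have h := hq.2.2 i (Nat.lt_succ_self i)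
    rw [hk] at h
    simp at h

end

end Pool.Agent.H691R3.SL
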