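import Pool.Agent.H691R3.SL.Defs
import Pool.Agent.H691R3.SLF.F_K1B
import Pool.Agent.H691R3.SLF.F_X1
import Pool.Agent.H691R3.SLF.F_X4
import Pool.Agent.H691R3.SLF.F_X5
/-!
# X11: products of factors `1 + U^n` applied to the indicator of the base of a tower
-/

namespace Pool.Agent.H691R3.SL

open MeasureTheory Set Filter Topology
open scoped Real BigOperators

noncomputable section

theorem X11_aux_append {H : Type*} [NormedAddCommGroup H] [InnerProductSpace ℝ H]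
    (U : H ≃ₗᵢ[ℝ] H) (l : List ℕ) (m : ℕ) (v : H) :
    Pop U (l ++ [m]) v = Pop U l (v + (U ^ (m : ℤ)) v) := by
  induction l with
  | nil => rfl
  | cons n l ih =>
    show Pop U (l ++ [m]) v + (U ^ (n : ℤ)) (Pop U (l ++ [m]) v) =
      Pop U l (v + (U ^ (m : ℤ)) v) + (U ^ (n : ℤ)) (Pop U l (v + (U ^ (m : ℤ)) v))
    rw [ih]

theorem X11_aux_congr {X : Type*} [MeasurableSpace X] {μ : Measure X} {A B : Set X} (h : A = B)
    (hA : MeasurableSet A) (hA' : μ A ≠ ⊤) (hB : MeasurableSet B) (hB' : μ B ≠ ⊤) :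
    (indicatorConstLp 2 hA hA' (1 : ℝ) : Lp ℝ 2 μ) = indicatorConstLp 2 hB hB' (1 : ℝ) := by
  subst h; rfl

/-- X11 (uses X4, X5, K1b): products of factors `1 + U^n` -/
theorem Pop_EE {𝒟 : Data} (M : Model 𝒟) (U : Lp ℝ 2 M.μ ≃ₗᵢ[ℝ] Lp ℝ 2 M.μ)
    (hU : ∀ (j : ℤ) (g : Lp ℝ 2 M.μ),
      ((U ^ j) g : Lp ℝ 2 M.μ) =ᵐ[M.μ] fun x => g (((M.T.toEquiv : Equiv.Perm M.X) ^ (-j)) x))
    (k : ℕ) (c : Th 𝒟.K k)
    (h1 : MeasurableSet (EE M.n (𝒟.NN k) {ω | M.cl k ω = c}))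
    (h2 : M.μ (EE M.n (𝒟.NN k) {ω | M.cl k ω = c}) ≠ ⊤)
    (h3 : MeasurableSet (EE M.n 0 {ω | M.cl k ω = c}))
    (h4 : M.μ (EE M.n 0 {ω | M.cl k ω = c}) ≠ ⊤) :
    Pop U (𝒟.fr k c) (indicatorConstLp 2 h1 h2 (1:ℝ)) = indicatorConstLp 2 h3 h4 (1:ℝ) := by
  set C : Set M.Ω := {ω | M.cl k ω = c} with hCdef
  have hC : MeasurableSet C := M.cl_meas k c
  have hE : ∀ i, MeasurableSet (EE M.n i C) := fun i => (Pool.Agent.H691R3.SL.EE_measure M i C hC).1
  have hne : ∀ i, M.μ (EE M.n i C) ≠ ⊤ := by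
    intro i
    rw [(Pool.Agent.H691R3.SL.EE_measure M i C hC).2]
    exact ENNReal.mul_ne_top (ENNReal.pow_ne_top (by simp)) (measure_ne_top _ _)
  have hlen : (𝒟.fr k c).length = 𝒟.NN k := (Pool.Agent.H691R3.SL.fr_facts 𝒟 k c).1
  have hPC : M.P C ≠ 0 := by
    rw [hCdef, M.cl_prob k c]
    exact ENNReal.inv_ne_zero.mpr (ENNReal.natCast_ne_top _)
  obtain ⟨ω0, hω0⟩ : C.Nonempty := by
    by_contra hcon
    rw [Set.not_nonempty_iff_eq_empty] at hcon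
    exact hPC (by rw [hcon]; simp)
  have hget : ∀ (i : ℕ) (hi : i < (𝒟.fr k c).length), ∀ ω ∈ C, M.n i ω = (𝒟.fr k c)[i] := by
    intro i hi ω hω
    have hcl : M.cl k ω = c := hω
    have h := M.fr_eq k ω
    rw [hcl] at h
    simp only [h, List.getElem_map, List.getElem_range]
  have key : ∀ i, i ≤ 𝒟.NN k →
      Pop U ((𝒟.fr k c).take i) (indicatorConstLp 2 (hE i) (hne i) (1:ℝ))
        = indicatorConstLp 2 (hE 0) (hne 0) (1:ℝ) := by
    intro i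
    induction i with
    | zero => intro _; simp [Pop]
    | succ i ih =>
      intro hi
      have hi' : i < (𝒟.fr k c).length := by rw [hlen]; omega
      have htake : (𝒟.fr k c).take (i + 1) = (𝒟.fr k c).take i ++ [(𝒟.fr k c)[i]] := by
        rw [List.take_append_getElem]
      rw [htake, X11_aux_append]
      have hm := hget i hi'
      obtain ⟨hsplit, hdisj⟩ := Pool.Agent.H691R3.SL.EE_split M i C (𝒟.fr k c)[i] hm
      obtain ⟨k1, k2, k3, -, -⟩ := Pool.Agent.H691R3.SL.koop_ind M.μ M.T M.T_mp U hU _ (hE (i + 1)) (hne (i + 1))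
        (((𝒟.fr k c)[i] : ℕ) : ℤ)
      have k2' : M.μ ((((M.T.toEquiv : Equiv.Perm M.X) ^ (((𝒟.fr k c)[i] : ℕ) : ℤ))) ''
          EE M.n (i + 1) C) ≠ ⊤ := by
        rw [k2]; exact hne (i + 1)
      rw [k3 k1 k2', ← indicatorConstLp_disjoint_union (hE (i + 1)) k1 (hne (i + 1)) k2' hdisj]
      rw [X11_aux_congr hsplit.symm _ _ (hE i) (hne i)]
      exact ih (by omega)
  have := key (𝒟.NN k) le_rfl
  rw [← hlen, List.take_length] at this
  rw [X11_aux_congr (by rw [hlen]) _ _ h1 h2] at this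
  exact this

end

end Pool.Agent.H691R3.SL
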