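import Pool.Agent.H691R3.SL.Defs
import Pool.Agent.H691R3.SLF.F_D1B
import Pool.Agent.H691R3.SLF.F_D6
import Pool.Agent.H691R3.SLF.F_D7
/-!
# Task X6: no early return
-/

namespace Pool.Agent.H691R3.SL

open MeasureTheory Set Filter Topology
open scoped Real BigOperators

noncomputable section

theorem X6_image {𝒟 : Data} (M : Model 𝒟) (j : ℤ) (Z : Set M.X) :
    M.μ (((M.T.toEquiv : Equiv.Perm M.X) ^ j) '' Z) = M.μ Z := by
  set σ : Equiv.Perm M.X := M.T.toEquiv with hσ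
  have h1 : ∀ Z : Set M.X, M.μ (σ '' Z) = M.μ Z := by
    intro Z
    have e : σ '' Z = M.T.symm ⁻¹' Z := M.T.toEquiv.image_eq_preimage_symm Z
    rw [e]
    exact (MeasurePreserving.symm M.T M.T_mp).measure_preimage_equiv Z
  have h2 : ∀ Z : Set M.X, M.μ ((σ⁻¹ : Equiv.Perm M.X) '' Z) = M.μ Z := by
    intro Z
    have := h1 ((σ⁻¹ : Equiv.Perm M.X) '' Z)
    rw [← Set.image_comp] at this
    have e : (σ ∘ (σ⁻¹ : Equiv.Perm M.X)) = id := by
      funext x; exact σ.apply_symm_apply x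
    rw [e, Set.image_id] at this
    exact this.symm
  induction j using Int.induction_on generalizing Z with
  | zero => simp
  | succ i ih =>
    rw [zpow_add_one, Equiv.Perm.coe_mul, Set.image_comp, ih, h1]
  | pred i ih =>
    rw [zpow_sub_one, Equiv.Perm.coe_mul, Set.image_comp, ih, h2]

theorem X6_null {𝒟 : Data} (M : Model 𝒟) :
    M.μ {p : M.X | ¬ ∀ N, ∃ l, N ≤ l ∧ p.1.1.2 l = false} = 0 := by
  have hr : Measurable (ret M.n) := (Pool.Agent.H691R3.SL.sky_space M.P M.n M.n_meas M.grow).1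
  have hs : MeasurableSet {p : (M.Ω × Cn) × ℕ | p.2 < ret M.n p.1} :=
    measurableSet_lt measurable_snd (hr.comp measurable_fst)
  have hcoin := Pool.Agent.H691R3.SL.coin_cyl
  haveI : IsProbabilityMeasure coin := hcoin.1
  have h4 := hcoin.2.2.2
  have h5 : ∀ᵐ y ∂(M.P.prod coin), ∀ N, ∃ l, N ≤ l ∧ y.2 l = false :=
    Measure.quasiMeasurePreserving_snd.ae h4
  have h6 : ∀ᵐ y ∂((M.P.prod coin).prod (Measure.count : Measure ℕ)),
      ∀ N, ∃ l, N ≤ l ∧ y.1.2 l = false :=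
    Measure.quasiMeasurePreserving_fst.ae h5
  have e : M.μ {p : M.X | ¬ ∀ N, ∃ l, N ≤ l ∧ p.1.1.2 l = false} =
      ((M.P.prod coin).prod (Measure.count : Measure ℕ))
        (Subtype.val '' {p : M.X | ¬ ∀ N, ∃ l, N ≤ l ∧ p.1.1.2 l = false}) :=
    (MeasurableEmbedding.subtype_coe hs).comap_apply _ _
  rw [e]
  refine measure_mono_null ?_ h6
  rintro _ ⟨p, hp, rfl⟩
  exact hp

theorem X6_pow {𝒟 : Data} (M : Model 𝒟) (m : ℕ) (p : M.X) :
    ((M.T.toEquiv : Equiv.Perm M.X) ^ (m : ℤ)) p = (M.T : M.X → M.X)^[m] p := by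
  rw [zpow_natCast]
  induction m generalizing p with
  | zero => rfl
  | succ m ih =>
    rw [pow_succ, Equiv.Perm.mul_apply, ih, Function.iterate_succ_apply]
    rfl

theorem X6_pos {𝒟 : Data} (M : Model 𝒟) (i : ℕ) (C : Set M.Ω)
    (m : ℕ) (hm : 0 < m) (h : ∀ ω ∈ C, m < M.n i ω) :
    M.μ ((((M.T.toEquiv : Equiv.Perm M.X) ^ (m : ℤ)) '' EE M.n i C) ∩ EE M.n i C) = 0 := by
  refine measure_mono_null (t := ((M.T.toEquiv : Equiv.Perm M.X) ^ (m : ℤ)) ''
    {p : M.X | ¬ ∀ N, ∃ l, N ≤ l ∧ p.1.1.2 l = false}) ?_ ?_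
  · rintro x ⟨⟨p, hp, rfl⟩, hx⟩
    refine ⟨p, ?_, rfl⟩
    intro hinf
    refine Pool.Agent.H691R3.SL.no_return M.n M.grow M.T M.T1 M.T2 i p hp.2.1 hp.2.2 hinf m hm (h _ hp.1) ?_
    rw [X6_pow] at hx
    exact ⟨hx.2.1, hx.2.2⟩
  · rw [X6_image]; exact X6_null M

/-- X6 (uses D6, D1b): no early return -/
theorem EE_return {𝒟 : Data} (M : Model 𝒟) (i : ℕ) (C : Set M.Ω) (hC : MeasurableSet C)
    (j : ℤ) (hj : j ≠ 0) (h : ∀ ω ∈ C, |j| < (M.n i ω : ℤ)) :
    M.μ ((((M.T.toEquiv : Equiv.Perm M.X) ^ j) '' EE M.n i C) ∩ EE M.n i C) = 0 := by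
  rcases lt_or_gt_of_ne hj with hneg | hpos
  · -- negative
    obtain ⟨m, hm⟩ : ∃ m : ℕ, j = -(m : ℤ) := ⟨j.natAbs, by omega⟩
    subst hm
    have hm0 : 0 < m := by omega
    have key := X6_pos M i C m hm0 (fun ω hω => by
      have := h ω hω
      rw [abs_neg, Nat.abs_cast] at this
      exact_mod_cast this)
    have e : (((M.T.toEquiv : Equiv.Perm M.X) ^ (-(m : ℤ))) '' EE M.n i C) ∩ EE M.n i C =
        ((M.T.toEquiv : Equiv.Perm M.X) ^ (-(m : ℤ))) ''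
          ((((M.T.toEquiv : Equiv.Perm M.X) ^ (m : ℤ)) '' EE M.n i C) ∩ EE M.n i C) := by
      rw [Set.image_inter (Equiv.injective _), ← Set.image_comp, ← Equiv.Perm.coe_mul,
        ← zpow_add, neg_add_cancel, zpow_zero, Equiv.Perm.coe_one, Set.image_id, Set.inter_comm]
    rw [e, X6_image]
    exact key
  · obtain ⟨m, hm⟩ : ∃ m : ℕ, j = (m : ℤ) := ⟨j.natAbs, by omega⟩
    subst hm
    refine X6_pos M i C m (by omega) (fun ω hω => ?_)
    have := h ω hω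
    rw [Nat.abs_cast] at this
    exact_mod_cast this

end

end Pool.Agent.H691R3.SL
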