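import Pool.Agent.H691R3.SL.Defs
import Pool.Agent.H691R3.SLF.F_K1B
import Pool.Agent.H691R3.SLF.F_X1
import Pool.Agent.H691R3.SLF.F_X10
import Pool.Agent.H691R3.SLF.F_X11
import Pool.Agent.H691R3.SLF.F_X4
import Pool.Agent.H691R3.SLF.F_X6
import Pool.Agent.H691R3.SLF.F_X7
namespace Pool.Agent.H691R3.SL

open MeasureTheory Set Filter Topology
open scoped Real BigOperators

noncomputable section

theorem X12_congr {X : Type*} [MeasurableSpace X] {μ : Measure X} {s t : Set X} (h : s = t)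
    (hs : MeasurableSet s) (hs' : μ s ≠ ⊤) (ht : MeasurableSet t) (ht' : μ t ≠ ⊤) :
    indicatorConstLp 2 hs hs' (1:ℝ) = indicatorConstLp 2 ht ht' (1:ℝ) := by
  subst h; rfl

theorem X12_sum {X : Type*} [MeasurableSpace X] {μ : Measure X} {ι : Type*} [DecidableEq ι]
    (B : ι → Set X) (hB : ∀ i, MeasurableSet (B i)) (hB' : ∀ i, μ (B i) ≠ ⊤)
    (hd : ∀ i j, i ≠ j → Disjoint (B i) (B j)) (s : Finset ι) :
    ∀ (h1 : MeasurableSet (⋃ i ∈ s, B i)) (h2 : μ (⋃ i ∈ s, B i) ≠ ⊤),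
      indicatorConstLp 2 h1 h2 (1:ℝ) = ∑ i ∈ s, indicatorConstLp 2 (hB i) (hB' i) (1:ℝ) := by
  induction s using Finset.induction_on with
  | empty =>
    intro h1 h2
    rw [Finset.sum_empty]
    rw [X12_congr (μ := μ) (t := (∅ : Set X)) (by simp) h1 h2 MeasurableSet.empty (by simp)]
    exact indicatorConstLp_empty
  | insert a s ha ih =>
    intro h1 h2
    have hs1 : MeasurableSet (⋃ i ∈ s, B i) := Finset.measurableSet_biUnion _ fun i _ => hB i
    have hs2 : μ (⋃ i ∈ s, B i) ≠ ⊤ := by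
      refine ne_top_of_le_ne_top h2 (measure_mono ?_)
      exact Set.biUnion_subset_biUnion_left fun i hi => Finset.mem_insert_of_mem hi
    have hdis : Disjoint (B a) (⋃ i ∈ s, B i) := by
      rw [Set.disjoint_iUnion₂_right]
      intro i hi
      exact hd a i fun e => ha (e ▸ hi)
    have hset : (⋃ i ∈ insert a s, B i) = B a ∪ ⋃ i ∈ s, B i := by
      rw [Finset.set_biUnion_insert]
    rw [Finset.sum_insert ha, ← ih hs1 hs2, ← indicatorConstLp_disjoint_union (hB a) hs1 (hB' a) hs2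
      hdis (1:ℝ)]
    exact X12_congr hset _ _ _ _

theorem X12_fin {𝒟 : Data} (M : Model 𝒟) (i : ℕ) (C : Set M.Ω) (hC : MeasurableSet C) :
    M.μ (EE M.n i C) ≠ ⊤ := by
  rw [(Pool.Agent.H691R3.SL.EE_measure M i C hC).2]
  exact ENNReal.mul_ne_top (ENNReal.pow_ne_top (by simp)) (measure_ne_top _ _)

theorem X12_part {𝒟 : Data} (M : Model 𝒟) {ι : Type} [Fintype ι] [DecidableEq ι] (C : Set M.Ω)
    (D : ι → Set M.Ω) (hC : MeasurableSet C) (hD : ∀ i, MeasurableSet (D i))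
    (hdis : ∀ i j, i ≠ j → Disjoint (D i) (D j)) (hun : C = ⋃ i, D i) :
    indicatorConstLp 2 (Pool.Agent.H691R3.SL.EE_measure M 0 C hC).1 (X12_fin M 0 C hC) (1:ℝ)
      = ∑ i, indicatorConstLp 2 (Pool.Agent.H691R3.SL.EE_measure M 0 (D i) (hD i)).1 (X12_fin M 0 (D i) (hD i))
          (1:ℝ) := by
  have hset : EE M.n 0 C = ⋃ i ∈ (Finset.univ : Finset ι), EE M.n 0 (D i) := by
    ext p
    simp only [EE, Set.mem_setOf_eq, Finset.mem_univ, Set.iUnion_true, Set.mem_iUnion, hun]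
    constructor
    · rintro ⟨⟨i, hi⟩, h⟩
      exact ⟨i, hi, h⟩
    · rintro ⟨i, hi, h⟩
      exact ⟨⟨i, hi⟩, h⟩
  have h1 : MeasurableSet (⋃ i ∈ (Finset.univ : Finset ι), EE M.n 0 (D i)) :=
    Finset.measurableSet_biUnion _ fun i _ => (Pool.Agent.H691R3.SL.EE_measure M 0 (D i) (hD i)).1
  have h2 : M.μ (⋃ i ∈ (Finset.univ : Finset ι), EE M.n 0 (D i)) ≠ ⊤ := by
    rw [← hset]; exact X12_fin M 0 C hC
  rw [← X12_sum (μ := M.μ) (fun i => EE M.n 0 (D i)) (fun i => (Pool.Agent.H691R3.SL.EE_measure M 0 (D i) (hD i)).1)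
    (fun i => X12_fin M 0 (D i) (hD i)) ?_ Finset.univ h1 h2]
  · exact X12_congr hset _ _ _ _
  · intro i j hij
    rw [Set.disjoint_left]
    intro p hp hq
    exact Set.disjoint_left.mp (hdis i j hij) hp.1 hq.1

theorem model_hilbert {𝒟 : Data} (M : Model 𝒟) (U : Lp ℝ 2 M.μ ≃ₗᵢ[ℝ] Lp ℝ 2 M.μ)
    (hU : ∀ (j : ℤ) (g : Lp ℝ 2 M.μ),
      ((U ^ j) g : Lp ℝ 2 M.μ) =ᵐ[M.μ] fun x => g (((M.T.toEquiv : Equiv.Perm M.X) ^ (-j)) x)) :
    ∃ (f : Lp ℝ 2 M.μ) (v : (k : ℕ) → Th 𝒟.K k → Lp ℝ 2 M.μ), HilbertData 𝒟 U f v := by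
  have hcm : ∀ k (c : Th 𝒟.K k), MeasurableSet {ω | M.cl k ω = c} := fun k c => M.cl_meas k c
  have hEm : ∀ k (c : Th 𝒟.K k), MeasurableSet (EE M.n (𝒟.NN k) {ω | M.cl k ω = c}) :=
    fun k c => (Pool.Agent.H691R3.SL.EE_measure M _ _ (hcm k c)).1
  have hEf : ∀ k (c : Th 𝒟.K k), M.μ (EE M.n (𝒟.NN k) {ω | M.cl k ω = c}) ≠ ⊤ :=
    fun k c => X12_fin M _ _ (hcm k c)
  set f : Lp ℝ 2 M.μ := indicatorConstLp 2 (Pool.Agent.H691R3.SL.EE_measure M 0 Set.univ MeasurableSet.univ).1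
    (X12_fin M 0 Set.univ MeasurableSet.univ) (1:ℝ) with hf
  set v : (k : ℕ) → Th 𝒟.K k → Lp ℝ 2 M.μ := fun k c =>
    indicatorConstLp 2 (hEm k c) (hEf k c) (1:ℝ) with hv
  have hPop : ∀ k (c : Th 𝒟.K k), Pop U (𝒟.fr k c) (v k c)
      = indicatorConstLp 2 (Pool.Agent.H691R3.SL.EE_measure M 0 _ (hcm k c)).1 (X12_fin M 0 _ (hcm k c)) (1:ℝ) :=
    fun k c => Pool.Agent.H691R3.SL.Pop_EE M U hU k c _ _ _ _
  have hkoop := fun (k : ℕ) (c : Th 𝒟.K k) (j : ℤ) =>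
    Pool.Agent.H691R3.SL.koop_ind M.μ M.T M.T_mp U hU (EE M.n (𝒟.NN k) {ω | M.cl k ω = c}) (hEm k c) (hEf k c) j
  refine ⟨f, v, ?_, ?_, ?_, ?_, ?_, ?_, ?_⟩
  · -- sum
    intro k
    rw [hf, X12_part M Set.univ (fun c : Th 𝒟.K k => {ω | M.cl k ω = c}) MeasurableSet.univ
      (hcm k) ?_ ?_]
    · exact Finset.sum_congr rfl fun c _ => (hPop k c).symm
    · intro c c' hne
      rw [Set.disjoint_left]
      intro ω h1 h2
      exact hne (h1.symm.trans h2)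
    · ext ω
      simp
  · -- refine
    intro k c
    rw [hPop, X12_part M {ω | M.cl k ω = c} (fun a : Fin (𝒟.K k + 1) => {ω | M.cl (k + 1) ω = (c, a)})
      (hcm k c) (fun a => hcm (k + 1) (c, a)) ?_ ?_]
    · exact Finset.sum_congr rfl fun a _ => (hPop (k + 1) (c, a)).symm
    · intro a a' hne
      rw [Set.disjoint_left]
      intro ω h1 h2
      have h3 : (c, a) = (c, a') := (Eq.symm h1).trans h2
      exact hne (Prod.ext_iff.mp h3).2
    · ext ω
      simp only [Set.mem_setOf_eq, Set.mem_iUnion]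
      obtain ⟨a, ha⟩ := M.cl_succ k ω
      constructor
      · intro h
        exact ⟨a, by rw [ha, h]⟩
      · rintro ⟨a', ha'⟩
        rw [ha] at ha'
        exact (Prod.ext_iff.mp ha').1
  · -- orth
    intro k c c' hne j
    rw [(hkoop k c j).2.2.2.2 _ (hEm k c') (hEf k c')]
    have : ((((M.T.toEquiv : Equiv.Perm M.X) ^ j) '' EE M.n (𝒟.NN k) {ω | M.cl k ω = c}) ∩
        EE M.n (𝒟.NN k) {ω | M.cl k ω = c'}) = ∅ := by
      rw [Set.eq_empty_iff_forall_notMem]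
      rintro x ⟨⟨p, hp, rfl⟩, hx⟩
      have h1 : M.cl k p.1.1.1 = c := hp.1
      have h2 := hx.1
      rw [Set.mem_setOf_eq, Pool.Agent.H691R3.SL.T_fiber M j p] at h2
      exact hne (h1.symm.trans h2)
    rw [this]
    simp
  · -- gap
    intro k c j hj0 hj
    rw [(hkoop k c j).2.2.2.2 _ (hEm k c) (hEf k c)]
    rw [Pool.Agent.H691R3.SL.EE_return M (𝒟.NN k) _ (hcm k c) j hj0]
    · simp
    · intro ω hω
      have h1 := M.gap k ω
      have h2 : M.cl k ω = c := hω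
      rw [h2] at h1
      refine lt_of_le_of_lt hj ?_
      exact_mod_cast h1
  · -- norm
    intro k c
    rw [hv]
    simp only
    rw [norm_indicatorConstLp (by norm_num) (by norm_num)]
    have h1 : M.μ.real (EE M.n (𝒟.NN k) {ω | M.cl k ω = c})
        = (1 / 2 : ℝ) ^ (𝒟.fr k c).length / (Fintype.card (Th 𝒟.K k) : ℝ) := by
      rw [Measure.real, (Pool.Agent.H691R3.SL.EE_measure M (𝒟.NN k) _ (hcm k c)).2, M.cl_prob k c,
        (Pool.Agent.H691R3.SL.fr_facts 𝒟 k c).1]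
      rw [ENNReal.toReal_mul, ENNReal.toReal_pow, ENNReal.toReal_inv, ENNReal.toReal_inv]
      simp [div_eq_mul_inv]
    rw [h1]
    have h2 : (0:ℝ) ≤ (1 / 2 : ℝ) ^ (𝒟.fr k c).length / (Fintype.card (Th 𝒟.K k) : ℝ) := by
      positivity
    rw [norm_one, one_mul]
    have h3 : (1 / (2 : ENNReal).toReal) = (1/2 : ℝ) := by simp
    rw [h3, ← Real.sqrt_eq_rpow, Real.sq_sqrt h2]
  · -- dom
    intro k c j
    rw [(hkoop k c j).2.2.2.2 _ (hEm k c) (hEf k c)]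
    rw [hf, (Pool.Agent.H691R3.SL.koop_ind M.μ M.T M.T_mp U hU (EE M.n 0 Set.univ)
      (Pool.Agent.H691R3.SL.EE_measure M 0 Set.univ MeasurableSet.univ).1
      (X12_fin M 0 Set.univ MeasurableSet.univ) j).2.2.2.2 _
      (Pool.Agent.H691R3.SL.EE_measure M 0 Set.univ MeasurableSet.univ).1
      (X12_fin M 0 Set.univ MeasurableSet.univ)]
    rw [abs_of_nonneg ENNReal.toReal_nonneg, abs_of_nonneg ENNReal.toReal_nonneg]
    have hsub : EE M.n (𝒟.NN k) {ω | M.cl k ω = c} ⊆ EE M.n 0 Set.univ := by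
      intro p hp
      exact ⟨trivial, hp.2.1, fun j hj => absurd hj (Nat.not_lt_zero _)⟩
    refine ENNReal.toReal_mono ?_ (measure_mono (Set.inter_subset_inter (Set.image_mono hsub) hsub))
    exact ne_top_of_le_ne_top (X12_fin M 0 Set.univ MeasurableSet.univ)
      (measure_mono Set.inter_subset_right)
  · -- total
    intro u hu
    refine Pool.Agent.H691R3.SL.model_total M u fun k c j => ?_
    rw [← (hkoop k c j).2.2.2.1 u]
    exact hu k c j

end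

end Pool.Agent.H691R3.SL
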