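import Pool.Agent.H691R3.SL.Defs
import Pool.Agent.H691R3.SLF.F_X1
/-!
# X2: the probability space of the parameters
-/

namespace Pool.Agent.H691R3.SL

open MeasureTheory Set Filter Topology
open scoped Real BigOperators

noncomputable section

/-- uniform probability on `Fin (n+1)` -/
def X2unif (n : ℕ) : Measure (Fin (n + 1)) := (((n + 1 : ℕ) : ENNReal)⁻¹) • Measure.count

instance X2_unif_prob (n : ℕ) : IsProbabilityMeasure (X2unif n) := by
  constructor
  rw [X2unif, Measure.smul_apply, Measure.count_univ]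
  simp only [smul_eq_mul, ENat.card_eq_coe_fintype_card, Fintype.card_fin]
  exact ENNReal.inv_mul_cancel (by simp) (by simp)

theorem X2_unif_singleton (n : ℕ) (a : Fin (n + 1)) :
    X2unif n {a} = (((n + 1 : ℕ) : ENNReal)⁻¹) := by
  rw [X2unif, Measure.smul_apply, Measure.count_singleton]
  simp

/-- the class of level `k` of a parameter -/
def X2cl (K : ℕ → ℕ) : (k : ℕ) → ((j : ℕ) → Fin (K j + 1)) → Th K k
  | 0, _ => ()
  | k + 1, ω => (X2cl K k ω, ω k)

theorem X2_cl_eq_iff (K : ℕ → ℕ) (ω t : (j : ℕ) → Fin (K j + 1)) :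
    ∀ k, X2cl K k ω = X2cl K k t ↔ ∀ j < k, ω j = t j
  | 0 => by simp [X2cl]
  | k + 1 => by
      have h := X2_cl_eq_iff K ω t k
      constructor
      · intro e j hj
        have e1 : X2cl K k ω = X2cl K k t := congrArg Prod.fst e
        have e2 : ω k = t k := congrArg Prod.snd e
        rcases Nat.lt_succ_iff_lt_or_eq.1 hj with h' | rfl
        · exact h.1 e1 j h'
        · exact e2
      · intro e
        have e1 : X2cl K k ω = X2cl K k t := h.2 fun j hj => e j (by omega)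
        have e2 : ω k = t k := e k (by omega)
        show (X2cl K k ω, ω k) = (X2cl K k t, t k)
        rw [e1, e2]

theorem X2_cl_surj (K : ℕ → ℕ) : ∀ k (c : Th K k), ∃ t, X2cl K k t = c
  | 0, c => ⟨fun _ => 0, rfl⟩
  | k + 1, c => by
      obtain ⟨c, a⟩ := c
      obtain ⟨t, ht⟩ := X2_cl_surj K k c
      refine ⟨Function.update t k a, ?_⟩
      have : X2cl K k (Function.update t k a) = X2cl K k t := by
        rw [X2_cl_eq_iff]
        intro j hj
        rw [Function.update_of_ne (by omega)]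
      show (X2cl K k (Function.update t k a), Function.update t k a k) = (c, a)
      rw [this, ht, Function.update_self]

theorem X2_card (K : ℕ → ℕ) : ∀ k, Fintype.card (Th K k) = ∏ j ∈ Finset.range k, (K j + 1)
  | 0 => by
      show Fintype.card Unit = _
      simp
  | k + 1 => by
      rw [Finset.prod_range_succ, ← X2_card K k]
      show Fintype.card (Th K k × Fin (K k + 1)) = _
      rw [Fintype.card_prod, Fintype.card_fin]

theorem X2_set_eq (K : ℕ → ℕ) (k : ℕ) (t : (j : ℕ) → Fin (K j + 1)) :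
    {ω | X2cl K k ω = X2cl K k t} = Set.pi (Finset.range k : Set ℕ) (fun j => {t j}) := by
  ext ω
  simp only [Set.mem_setOf_eq, X2_cl_eq_iff, Set.mem_pi, Finset.coe_range, Set.mem_Iio,
    Set.mem_singleton_iff]

theorem X2_cl_meas (K : ℕ → ℕ) (k : ℕ) (c : Th K k) :
    MeasurableSet {ω | X2cl K k ω = c} := by
  obtain ⟨t, rfl⟩ := X2_cl_surj K k c
  rw [X2_set_eq]
  exact MeasurableSet.pi (Finset.countable_toSet _) fun j _ => measurableSet_singleton _

theorem X2_cl_prob (K : ℕ → ℕ) (k : ℕ) (c : Th K k) :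
    Measure.infinitePi (fun j => X2unif (K j)) {ω | X2cl K k ω = c}
      = (Fintype.card (Th K k) : ENNReal)⁻¹ := by
  obtain ⟨t, rfl⟩ := X2_cl_surj K k c
  rw [X2_set_eq, Measure.infinitePi_pi _ (fun j _ => measurableSet_singleton _)]
  simp only [X2_unif_singleton]
  rw [X2_card]
  induction k with
  | zero => simp
  | succ k ih =>
    rw [Finset.prod_range_succ, ih, Finset.prod_range_succ, Nat.cast_mul, ENNReal.mul_inv]
    · left; simp [Finset.prod_eq_zero_iff]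
    · left; exact ENNReal.natCast_ne_top _

theorem X2_prefix (𝒟 : Data) (ω : (j : ℕ) → Fin (𝒟.K j + 1)) (k m : ℕ) :
    𝒟.fr k (X2cl 𝒟.K k ω) <+: 𝒟.fr (k + m) (X2cl 𝒟.K (k + m) ω) := by
  induction m with
  | zero => exact List.prefix_refl _
  | succ m ih =>
    refine ih.trans ?_
    have : 𝒟.fr (k + (m + 1)) (X2cl 𝒟.K (k + (m + 1)) ω)
        = 𝒟.fr (k + m) (X2cl 𝒟.K (k + m) ω)
          ++ 𝒟.nl (k + m) (X2cl 𝒟.K (k + m) ω) (ω (k + m)) :=
      𝒟.fr_succ (k + m) _ _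
    rw [this]
    exact List.prefix_append _ _

theorem X2_getD_prefix {l l' : List ℕ} (h : l <+: l') {i : ℕ} (hi : i < l.length) :
    l'.getD i 0 = l.getD i 0 := by
  obtain ⟨s, rfl⟩ := h
  rw [List.getD_append _ _ _ _ hi]

/-- the frequencies -/
def X2n (𝒟 : Data) (i : ℕ) (ω : (j : ℕ) → Fin (𝒟.K j + 1)) : ℕ :=
  (𝒟.fr (i + 1) (X2cl 𝒟.K (i + 1) ω)).getD i 0

theorem X2_n_eq (𝒟 : Data) (ω : (j : ℕ) → Fin (𝒟.K j + 1)) (k i : ℕ) (hi : i < 𝒟.NN k) :
    (𝒟.fr k (X2cl 𝒟.K k ω)).getD i 0 = X2n 𝒟 i ω := by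
  rcases le_total k (i + 1) with h | h
  · obtain ⟨m, hm⟩ := Nat.exists_eq_add_of_le h
    have := X2_getD_prefix (X2_prefix 𝒟 ω k m) (i := i) (by rw [(fr_facts 𝒟 k _).1]; exact hi)
    rw [← hm] at this
    exact this.symm
  · obtain ⟨m, hm⟩ := Nat.exists_eq_add_of_le h
    have h1 : i < 𝒟.NN (i + 1) := (fr_facts 𝒟 (i + 1) (X2cl 𝒟.K (i + 1) ω)).2.2.2
    have := X2_getD_prefix (X2_prefix 𝒟 ω (i + 1) m) (i := i)
      (by rw [(fr_facts 𝒟 (i + 1) _).1]; exact h1)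
    rw [← hm] at this
    exact this

theorem X2_fr_eq (𝒟 : Data) (ω : (j : ℕ) → Fin (𝒟.K j + 1)) (k : ℕ) :
    𝒟.fr k (X2cl 𝒟.K k ω) = (List.range (𝒟.NN k)).map (fun i => X2n 𝒟 i ω) := by
  apply List.ext_getElem
  · rw [(fr_facts 𝒟 k _).1]; simp
  · intro i h1 h2
    have hi : i < 𝒟.NN k := by rw [(fr_facts 𝒟 k _).1] at h1; exact h1
    have := X2_n_eq 𝒟 ω k i hi
    rw [List.getD_eq_getElem _ _ h1] at this
    rw [this]
    simp

theorem X2_gr_get (B : ℕ) : ∀ (w : List ℕ) (s : ℕ), Gr B s w → ∀ i (h : i < w.length),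
    B + 2 * (s + (w.take i).sum) < w[i]
  | [], _, _, i, h => by simp at h
  | n :: w, s, hg, 0, h => by simpa using hg.1
  | n :: w, s, hg, i + 1, h => by
      have := X2_gr_get B w (s + n) hg.2 i (by simpa using h)
      simp only [List.take_succ_cons, List.sum_cons, List.getElem_cons_succ]
      omega

theorem X2_sum_range (f : ℕ → ℕ) (i : ℕ) :
    ((List.range i).map f).sum = ∑ j ∈ Finset.range i, f j := by
  induction i with
  | zero => simp
  | succ i ih => rw [List.range_succ, List.map_append, List.sum_append, ih,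
      Finset.sum_range_succ]; simp

theorem X2_grow (𝒟 : Data) (i : ℕ) (ω : (j : ℕ) → Fin (𝒟.K j + 1)) :
    2 * ∑ j ∈ Finset.range i, X2n 𝒟 j ω < X2n 𝒟 i ω := by
  have hf := fr_facts 𝒟 (i + 1) (X2cl 𝒟.K (i + 1) ω)
  have hi : i < 𝒟.NN (i + 1) := hf.2.2.2
  have hi' : i < (𝒟.fr (i + 1) (X2cl 𝒟.K (i + 1) ω)).length := by rw [hf.1]; exact hi
  have h := X2_gr_get 0 _ 0 hf.2.1 i hi'
  have e1 : ((𝒟.fr (i + 1) (X2cl 𝒟.K (i + 1) ω)).take i).sum = ∑ j ∈ Finset.range i, X2n 𝒟 j ω := by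
    rw [X2_fr_eq, ← List.map_take, List.take_range, min_eq_left hi.le]
    rw [X2_sum_range]
  have e2 : (𝒟.fr (i + 1) (X2cl 𝒟.K (i + 1) ω))[i] = X2n 𝒟 i ω := by
    rw [← X2_n_eq 𝒟 ω (i + 1) i hi, List.getD_eq_getElem _ _ hi']
  rw [e1, e2] at h
  omega

theorem X2_gap (𝒟 : Data) (k : ℕ) (ω : (j : ℕ) → Fin (𝒟.K j + 1)) :
    2 * 𝒟.mm k + 2 * (𝒟.fr k (X2cl 𝒟.K k ω)).sum < X2n 𝒟 (𝒟.NN k) ω := by
  have hlen := (fr_facts 𝒟 k (X2cl 𝒟.K k ω)).1
  have hNN : 𝒟.NN k < 𝒟.NN (k + 1) := by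
    have := 𝒟.d_pos k
    have e : 𝒟.NN (k + 1) = 𝒟.NN k + 𝒟.d k := by simp [Data.NN, Finset.sum_range_succ]
    omega
  rw [← X2_n_eq 𝒟 ω (k + 1) (𝒟.NN k) hNN]
  have e : 𝒟.fr (k + 1) (X2cl 𝒟.K (k + 1) ω)
      = 𝒟.fr k (X2cl 𝒟.K k ω) ++ 𝒟.nl k (X2cl 𝒟.K k ω) (ω k) := 𝒟.fr_succ k _ _
  rw [e, ← hlen]
  have hg := 𝒟.gr k (X2cl 𝒟.K k ω) (ω k)
  have hl := 𝒟.len k (X2cl 𝒟.K k ω) (ω k)
  have hd := 𝒟.d_pos k
  rw [List.getD_append_right _ _ _ _ le_rfl, Nat.sub_self]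
  cases hnl : 𝒟.nl k (X2cl 𝒟.K k ω) (ω k) with
  | nil => rw [hnl] at hl; simp at hl; omega
  | cons m w =>
    rw [hnl] at hg
    exact hg.1

theorem X2_n_meas (𝒟 : Data) (i : ℕ) : Measurable (X2n 𝒟 i) := by
  apply measurable_to_countable'
  intro y
  have : X2n 𝒟 i ⁻¹' {y} = ⋃ c : Th 𝒟.K (i + 1), ⋃ (_ : (𝒟.fr (i + 1) c).getD i 0 = y),
      {ω | X2cl 𝒟.K (i + 1) ω = c} := by
    ext ω
    simp only [Set.mem_preimage, Set.mem_singleton_iff, Set.mem_iUnion, exists_prop]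
    constructor
    · intro h
      exact ⟨_, h, rfl⟩
    · rintro ⟨c, hc, hω⟩
      have hω' : X2cl 𝒟.K (i + 1) ω = c := hω
      rw [← hc, ← hω']
      rfl
  rw [this]
  exact MeasurableSet.iUnion fun c => MeasurableSet.iUnion fun _ => X2_cl_meas _ _ _

theorem X2_gen (K : ℕ → ℕ) :
    MeasurableSpace.generateFrom
      {A : Set ((j : ℕ) → Fin (K j + 1)) | ∃ k c, A = {ω | X2cl K k ω = c}}
      = MeasurableSpace.pi := by
  apply le_antisymm
  · apply MeasurableSpace.generateFrom_le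
    rintro A ⟨k, c, rfl⟩
    exact X2_cl_meas K k c
  · apply iSup_le
    intro j
    rw [MeasurableSpace.comap_le_iff_le_map]
    intro s _
    show MeasurableSet[MeasurableSpace.generateFrom _] ((fun ω : (j : ℕ) → Fin (K j + 1) => ω j) ⁻¹' s)
    have : (fun ω : (j : ℕ) → Fin (K j + 1) => ω j) ⁻¹' s
        = ⋃ c : Th K (j + 1), ⋃ (_ : c.2 ∈ s), {ω | X2cl K (j + 1) ω = c} := by
      ext ω
      simp only [Set.mem_preimage, Set.mem_iUnion, exists_prop]
      constructor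
      · intro h
        exact ⟨X2cl K (j + 1) ω, h, rfl⟩
      · rintro ⟨c, hc, hω⟩
        have hω' : X2cl K (j + 1) ω = c := hω
        rw [← hω'] at hc
        exact hc
    rw [this]
    refine MeasurableSet.iUnion fun c => MeasurableSet.iUnion fun _ => ?_
    exact MeasurableSpace.measurableSet_generateFrom ⟨j + 1, c, rfl⟩

/-- X2: the probability space of the parameters -/
theorem exists_base (𝒟 : Data) : Nonempty (Base 𝒟) := by
  refine ⟨{
    Ω := (j : ℕ) → Fin (𝒟.K j + 1)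
    mΩ := MeasurableSpace.pi
    sΩ := inferInstance
    P := Measure.infinitePi (fun j => X2unif (𝒟.K j))
    hP := inferInstance
    cl := fun k ω => X2cl 𝒟.K k ω
    n := fun i ω => X2n 𝒟 i ω
    cl_meas := fun k c => X2_cl_meas 𝒟.K k c
    cl_prob := fun k c => X2_cl_prob 𝒟.K k c
    cl_succ := fun k ω => ⟨ω k, rfl⟩
    n_meas := fun i => X2_n_meas 𝒟 i
    fr_eq := fun k ω => X2_fr_eq 𝒟 ω k
    grow := fun i ω => X2_grow 𝒟 i ω
    gap := fun k ω => X2_gap 𝒟 k ω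
    gen := X2_gen 𝒟.K }⟩

end

end Pool.Agent.H691R3.SL
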