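import Pool.Agent.H691R3.SL.Defs
import Pool.Agent.H691R3.SLF.F_D1
import Pool.Agent.H691R3.SLF.F_D1B
import Pool.Agent.H691R3.SLF.F_D2
import Pool.Agent.H691R3.SLF.F_D3
import Pool.Agent.H691R3.SLF.F_D7
import Pool.Agent.H691R3.SLF.F_X2
namespace Pool.Agent.H691R3.SL

open MeasureTheory Set Filter Topology

theorem exists_model (𝒟 : Data) : Nonempty (Model 𝒟) := by
  obtain ⟨b⟩ := Pool.Agent.H691R3.SL.exists_base 𝒟
  obtain ⟨S0, hS0, hmp⟩ := Pool.Agent.H691R3.SL.odo_equiv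
  have : IsProbabilityMeasure coin := Pool.Agent.H691R3.SL.coin_cyl.1
  let S : (b.Ω × Cn) ≃ᵐ (b.Ω × Cn) := (MeasurableEquiv.refl b.Ω).prodCongr S0
  have hS : MeasurePreserving S (b.P.prod coin) (b.P.prod coin) :=
    (MeasurePreserving.id b.P).prod hmp
  have hr := (Pool.Agent.H691R3.SL.sky_space b.P b.n b.n_meas b.grow).1
  obtain ⟨T, hT, hT1, hT2⟩ := Pool.Agent.H691R3.SL.sky_equiv (b.P.prod coin) S hS (ret b.n) hr
    (Pool.Agent.H691R3.SL.ret_pos b.n b.grow)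
  refine ⟨⟨b, T, hT, hT1, fun p hp => ?_⟩⟩
  rw [hT2 p hp]
  refine ⟨?_, rfl⟩
  change (p.1.1.1, S0 p.1.1.2) = (p.1.1.1, odo p.1.1.2)
  rw [hS0]

end Pool.Agent.H691R3.SL
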