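import Pool.Agent.H691R3.SLF.F_M16
import Pool.Agent.H691R3.SLF.F_X3
import Pool.Agent.H691R3.SLF.F_K1
import Pool.Agent.H691R3.SLF.F_X12
import Pool.Agent.H691R3.SLF.F_H6
import Pool.Agent.H691R3.SLF.F_K2
import Pool.Agent.H691R3.SLF.F_D7
import Pool.Agent.H691R3.SLF.F_I1
import Pool.Agent.H691R3.SLF.F_I2
import Pool.Agent.H691R3.SLF.F_K3

namespace Pool.Agent.H691R3.SL

open MeasureTheory Set Filter Topology
open scoped Real BigOperators

/-- There is an invertible Lebesgue preserving transformation of the line with a real function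
whose translates form a complete orthonormal system. -/
theorem final_real : ∃ (T : ℝ ≃ᵐ ℝ) (f : ℝ → ℝ), MeasurePreserving T volume volume ∧
    CompleteOrth volume T f := by
  obtain ⟨𝒟⟩ := exists_data
  obtain ⟨M⟩ := exists_model 𝒟
  obtain ⟨U, hU⟩ := koopman M.μ M.T M.T_mp
  obtain ⟨f, v, hD⟩ := model_hilbert M U hU
  obtain ⟨g, h1, h2⟩ := hilbert_main 𝒟 U f v hD
  have hC := completeOrth_of M.μ M.T M.T_mp U hU g h1 h2
  obtain ⟨_, hsb, hsf, hns, hinf⟩ := sky_space M.P M.n M.n_meas M.grow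
  have : StandardBorelSpace M.X := hsb
  have : SigmaFinite M.μ := hsf
  have : NullSingletonClass M.μ := hns
  obtain ⟨φ, hφ⟩ := line_iso M.μ hinf
  exact transport M.μ φ hφ M.T.symm (M.T_mp.symm) g hC

end Pool.Agent.H691R3.SL
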